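import Pool.Agent.W_7742y_h74.LftB
import Pool.Agent.W_7742g_h15.PowB

/-!
# Reduction of the characteristic polynomial

`V` is a valuation ring of `ℂ` with residue characteristic `ℓ > n`, `M` a complex `n × n` matrix of
finite order and `N` a matrix over the residue field such that the traces of all powers of `M` reduce to
those of `N`.  Then the coefficients of the characteristic polynomial of `M` reduce to those of `N`.

Proof.  The coefficients of `Q = M.charpoly` are symmetric functions of the eigenvalues, which are roots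
of unity, so algebraic integers (compare `isIntegral_trace` in `LftB.lean`), hence in `V`
(`mem_of_isIntegral`).  So `Q` comes from a monic polynomial `Q'` over `V`; let `C` be its companion
matrix over `V` (`Polynomial.companion` or any `n × n` matrix over `V` with characteristic polynomial
`Q'`; e.g. `Matrix.companion`, `Polynomial.lifts...`).  The matrices `M` and `C` (mapped to `ℂ`) have the
same characteristic polynomial, so `tr (C ^ k) = tr (M ^ k)` for all `k`
(`Pool.Agent.GalMaass.PowC_trace_pow` for `Matrix.toLin'` of both, file `W_7742g_h15/PowC.lean`).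
Hence the reduction `C'` of `C` satisfies `tr (C' ^ k) = tr (N ^ k)` for all `k`, and over a field in
which `1, ..., n` are invertible this implies that `C'` and `N` have the same characteristic polynomial
(Newton's identities: `Pool/Agent/W_7742g_h15/PowB.lean`, `ClB.lean`, Mathlib
`MvPolynomial.mul_esymm_eq_sum`; over an algebraic closure).

Another way, without companion matrices: Newton's identities express `k e_k` through `e_j`, `j < k`, and
the power sums, both over `ℂ` (roots of `Q`) and over the algebraic closure of the residue field (roots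
of `N.charpoly`); by induction on `k` the coefficient of index `n - k` of `Q` reduces to that of
`N.charpoly`, as `k` is a unit in `V`.  (Equivalently use Mathlib's
`Matrix.charpoly` Newton identities if present: `Matrix.trace_pow...`, `Polynomial.newton...`.)
-/

set_option autoImplicit false

noncomputable section

namespace Pool.Agent.OneP74

open Polynomial in
theorem DetA_newton {R : Type} [CommRing R] {n : ℕ} (M : Matrix (Fin n) (Fin n) R) (k : ℕ) :
    M.charpolyRev.coeff (k + 1) * ((k : R) + 1) =
      - ∑ x ∈ Finset.HasAntidiagonal.antidiagonal k, M.charpolyRev.coeff x.1 * (M ^ (x.2 + 1)).trace := by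
  obtain ⟨r, hr⟩ := Pool.Agent.GalMaass.powB_newton M (k + 1)
  have h := congrArg (fun p => coeff p k) hr
  simp only [coeff_add, coeff_neg, coeff_derivative] at h
  rw [coeff_mul, coeff_X_pow_mul', if_neg (by omega), add_zero] at h
  have h2 : ∀ x ∈ Finset.HasAntidiagonal.antidiagonal k, M.charpolyRev.coeff x.1 *
      (∑ i ∈ Finset.range (k + 1), (X : R[X]) ^ i * C ((M ^ (i + 1)).trace)).coeff x.2 =
      M.charpolyRev.coeff x.1 * (M ^ (x.2 + 1)).trace := by
    intro x hx
    congr 1
    rw [finsetSum_coeff]
    simp only [coeff_mul_C, coeff_X_pow]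
    rw [Finset.sum_eq_single x.2]
    · rw [if_pos rfl, one_mul]
    · intro b _ hb
      rw [if_neg (Ne.symm hb), zero_mul]
    · intro hb
      exfalso
      apply hb
      rw [Finset.mem_range]
      have := Finset.HasAntidiagonal.mem_antidiagonal.1 hx
      omega
  rw [Finset.sum_congr rfl h2] at h
  rw [h, neg_neg]

theorem DetA_inv {V : ValuationSubring ℂ} {x : ℂ} {y : Res V} (h : Red V x y) (hy : y ≠ 0) :
    Red V x⁻¹ y⁻¹ := by
  obtain ⟨h1, h2⟩ := h
  have h3 : IsUnit (⟨x, h1⟩ : V) := by
    rw [← IsLocalRing.residue_ne_zero_iff_isUnit, h2]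
    exact hy
  obtain ⟨u, hu⟩ := h3
  have h4 : x * ((u⁻¹ : Vˣ) : V) = 1 := by
    have h5 : (u : V) * ((u⁻¹ : Vˣ) : V) = 1 := u.mul_inv
    have h6 := congrArg (fun t : V => (t : ℂ)) h5
    rw [hu] at h6
    exact h6
  have h7 : x⁻¹ = (((u⁻¹ : Vˣ) : V) : ℂ) := inv_eq_of_mul_eq_one_right h4
  refine ⟨by rw [h7]; exact ((u⁻¹ : Vˣ) : V).2, ?_⟩
  have h8 : (⟨x⁻¹, by rw [h7]; exact ((u⁻¹ : Vˣ) : V).2⟩ : V) = ((u⁻¹ : Vˣ) : V) :=
    Subtype.ext h7
  rw [h8]
  symm
  apply inv_eq_of_mul_eq_one_right
  rw [← h2, ← hu, ← map_mul, u.mul_inv, map_one]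

theorem red_charpoly (V : ValuationSubring ℂ) {n ℓ : ℕ} (hp : ℓ.Prime) (hℓ : (ℓ : Res V) = 0)
    (hn : n < ℓ) (M : Matrix (Fin n) (Fin n) ℂ) {m : ℕ} (hm : 0 < m) (hM : M ^ m = 1)
    (N : Matrix (Fin n) (Fin n) (Res V)) (h : ∀ k : ℕ, Red V (M ^ k).trace (N ^ k).trace)
    (i : ℕ) : Red V (M.charpoly.coeff i) (N.charpoly.coeff i) := by
  have hunit : ∀ k : ℕ, 0 < k → k ≤ n → ((k : ℕ) : Res V) ≠ 0 := by
    intro k hk hkn h0
    have h1 : Nat.Coprime k ℓ := by
      rw [Nat.coprime_comm]
      exact (Nat.Prime.coprime_iff_not_dvd hp).2 fun h2 => by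
        have := Nat.le_of_dvd hk h2
        omega
    obtain ⟨a, b, hab⟩ := Nat.isCoprime_iff_coprime.2 h1
    have h3 := congrArg (fun z : ℤ => (z : Res V)) hab
    push_cast at h3
    rw [h0, hℓ, mul_zero, mul_zero, add_zero] at h3
    exact zero_ne_one h3
  have h0 : ∀ {R : Type} [CommRing R] (A : Matrix (Fin n) (Fin n) R), A.charpolyRev.coeff 0 = 1 := by
    intro R _ A
    rw [Polynomial.coeff_zero_eq_eval_zero, Matrix.eval_charpolyRev]
  have key : ∀ k : ℕ, k ≤ n → Red V (M.charpolyRev.coeff k) (N.charpolyRev.coeff k) := by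
    intro k
    induction k using Nat.strong_induction_on with
    | _ k ih =>
      intro hk
      rcases Nat.eq_zero_or_pos k with hk0 | hk0
      · subst hk0
        rw [h0, h0]
        exact Red.one
      · obtain ⟨j, rfl⟩ : ∃ j, k = j + 1 := ⟨k - 1, by omega⟩
        have h1 : Red V (M.charpolyRev.coeff (j + 1) * ((j : ℂ) + 1))
            (N.charpolyRev.coeff (j + 1) * ((j : Res V) + 1)) := by
          rw [DetA_newton, DetA_newton]
          refine Red.neg (Red.sum _ fun x hx => ?_)
          have hx' := Finset.HasAntidiagonal.mem_antidiagonal.1 hx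
          exact (ih x.1 (by omega) (by omega)).mul (h _)
        have h2 : Red V ((j : ℂ) + 1) ((j : Res V) + 1) := (Red.natCast j).add Red.one
        have h3 : ((j : Res V) + 1) ≠ 0 := by
          have := hunit (j + 1) (by omega) hk
          push_cast at this
          exact this
        have h4 := h1.mul (DetA_inv h2 h3)
        have h5 : ((j : ℂ) + 1) ≠ 0 := by
          exact_mod_cast Nat.succ_ne_zero j
        rwa [mul_inv_cancel_right₀ h5, mul_inv_cancel_right₀ h3] at h4
  have hrev : ∀ {R : Type} [CommRing R] [Nontrivial R] (A : Matrix (Fin n) (Fin n) R) (t : ℕ),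
      t ≤ n → A.charpoly.coeff t = A.charpolyRev.coeff (n - t) := by
    intro R _ _ A t ht
    rw [← Matrix.reverse_charpoly, Polynomial.coeff_reverse, Matrix.charpoly_natDegree_eq_dim,
      Fintype.card_fin, Polynomial.revAt_le (by omega)]
    congr 1
    omega
  rcases Nat.lt_or_ge n i with hi | hi
  · rw [Polynomial.coeff_eq_zero_of_natDegree_lt, Polynomial.coeff_eq_zero_of_natDegree_lt]
    · exact Red.zero
    · rw [Matrix.charpoly_natDegree_eq_dim, Fintype.card_fin]
      exact hi
    · rw [Matrix.charpoly_natDegree_eq_dim, Fintype.card_fin]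
      exact hi
  · rw [hrev M i hi, hrev N i hi]
    exact key _ (by omega)

end Pool.Agent.OneP74
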