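import Pool.Agent.W_7742y_h74.Defs

/-!
# Roots of unity of order prime to the residue characteristic are determined by their reduction

If `x ^ m = 1 = y ^ m`, `m ≠ 0` in the residue field of `V`, and `x - y` lies in the maximal ideal,
then `x = y`.

Proof.  `x`, `y` lie in `V` (`|x| ^ m = 1` gives `|x| = 1`).  Their residue classes are equal roots of
`X ^ m - 1` over the residue field `κ`.  Put `z = x / y`, a root of unity in `V` with `z ^ m = 1` and
residue class `1`.  If `z ≠ 1` then `1 + z + ... + z ^ (m-1) = 0` (`geom_sum`: `(z - 1) * ∑ = z ^ m - 1 = 0`),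
whose residue class is `m`; so `m = 0` in `κ`, a contradiction.
-/

set_option autoImplicit false

noncomputable section

namespace Pool.Agent.OneP74

theorem eq_of_valuation_lt (V : ValuationSubring ℂ) {m : ℕ} (hm : (m : Res V) ≠ 0) {x y : ℂ}
    (hx : x ^ m = 1) (hy : y ^ m = 1) (h : V.valuation (x - y) < 1) : x = y := by
  have hm0 : m ≠ 0 := by
    rintro rfl
    exact hm Nat.cast_zero
  have hy0 : y ≠ 0 := by
    rintro rfl
    rw [zero_pow hm0] at hy
    exact zero_ne_one hy
  have hvy : V.valuation y = 1 := by
    have h1 : V.valuation y ^ m = 1 := by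
      rw [← map_pow, hy, map_one]
    exact (pow_eq_one_iff_of_nonneg zero_le hm0).1 h1
  by_contra hne
  have hz : (x / y) ^ m = 1 := by
    rw [div_pow, hx, hy, div_one]
  have hz1 : x / y ≠ 1 := by
    intro h1
    exact hne ((div_eq_one_iff_eq hy0).1 h1)
  have hv : V.valuation (x / y - 1) < 1 := by
    have h1 : x / y - 1 = (x - y) / y := by
      field_simp
    rw [h1, map_div₀, hvy, div_one]
    exact h
  have hr : Red V (x / y) 1 := by
    have h1 := red_iff (V := V) (x := x / y) (y := 1) 1 (map_one _)
    rw [h1]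
    exact hv
  have hpow : ∀ i : ℕ, Red V ((x / y) ^ i) 1 := by
    intro i
    induction i with
    | zero =>
      rw [pow_zero]
      exact Red.one
    | succ i ih =>
      rw [pow_succ]
      have := ih.mul hr
      rwa [mul_one] at this
  have hs : Red V (∑ i ∈ Finset.range m, (x / y) ^ i) (∑ _i ∈ Finset.range m, 1) :=
    Red.sum _ fun i _ => hpow i
  have hg : ∑ i ∈ Finset.range m, (x / y) ^ i = 0 := by
    have h1 := geom_sum_mul (x / y) m
    rw [hz, sub_self] at h1
    rcases mul_eq_zero.1 h1 with h2 | h2
    · exact h2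
    · exact absurd (sub_eq_zero.1 h2) hz1
  rw [hg, Finset.sum_const, Finset.card_range, nsmul_eq_mul, mul_one] at hs
  obtain ⟨h1, h2⟩ := hs
  apply hm
  rw [← h2]
  exact map_zero _

end Pool.Agent.OneP74
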