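import Mathlib

/-!
# The order of a root of unity in a number field

If `x` is a root of unity in a number field `K` of degree `d` and `ℓ` is a prime number with
`d + 1 < ℓ` then `x ^ m = 1` for some `m > 0` which is not divisible by `ℓ`.

Proof.  Let `m` be the order of `x` (`orderOf x`, positive: `isOfFinOrder_iff_pow_eq_one`).  `x` is a
primitive `m`-th root of unity, so its minimal polynomial over `ℚ` is the cyclotomic polynomial
(`Polynomial.cyclotomic_eq_minpoly_rat`) of degree `φ(m)` (`Polynomial.natDegree_cyclotomic`), which is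
at most `d` (`minpoly.natDegree_le`).  If `ℓ` divides `m` then `φ(ℓ) = ℓ - 1` divides `φ(m)`
(`Nat.totient_dvd_of_dvd`, `Nat.totient_prime`), so `ℓ - 1 ≤ d`, a contradiction.
-/

set_option autoImplicit false

noncomputable section

namespace Pool.Agent.OneP74

theorem exists_order {K : Type} [Field K] [NumberField K] {x : K} {k : ℕ} (hk : 0 < k)
    (hx : x ^ k = 1) {ℓ : ℕ} (hp : ℓ.Prime) (hℓ : Module.finrank ℚ K + 1 < ℓ) :
    ∃ m : ℕ, 0 < m ∧ ¬ ℓ ∣ m ∧ x ^ m = 1 := by
  have hpos : 0 < orderOf x := orderOf_pos_iff.2 (isOfFinOrder_iff_pow_eq_one.2 ⟨k, hk, hx⟩)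
  refine ⟨orderOf x, hpos, ?_, pow_orderOf_eq_one x⟩
  intro hdvd
  have h1 := Polynomial.cyclotomic_eq_minpoly_rat (IsPrimitiveRoot.orderOf x) hpos
  have h2 : (minpoly ℚ x).natDegree ≤ Module.finrank ℚ K := minpoly.natDegree_le x
  rw [← h1, Polynomial.natDegree_cyclotomic] at h2
  have h3 := Nat.totient_dvd_of_dvd hdvd
  rw [Nat.totient_prime hp] at h3
  have h4 := Nat.le_of_dvd (Nat.totient_pos.2 hpos) h3
  omega

end Pool.Agent.OneP74
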