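import Mathlib

/-!
# Characteristic polynomials of matrices of size at most three

Two invertible complex `n × n` matrices, `n ≤ 3`, with `conj (tr M) = tr (M⁻¹)`, `conj (tr M') =
tr (M'⁻¹)`, the same trace and the same determinant have the same characteristic polynomial.

Proof.  For `n = 0` and `n = 1` this is clear.  For `n = 2` the characteristic polynomial is
`X ^ 2 - tr M X + det M` (`Matrix.charpoly_fin_two`).  For `n = 3` the coefficients of
`M.charpoly` are `1`, `- tr M`, `e₂`, `- det M` (`Matrix.trace_eq_neg_charpoly_coeff`,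
`Matrix.det_eq_sign_charpoly_coeff`, monic of degree `3`), and `e₂ = tr (adj M) = det M * tr (M⁻¹) =
det M * conj (tr M)`: `e₂ = tr (adjugate M)` can be checked by expanding the `3 × 3` determinant
(`Matrix.charpoly`, `Matrix.det_fin_three`, `Matrix.adjugate_fin_three`), or from the theorem of
Cayley-Hamilton: `M ^ 3 - tr M M ^ 2 + e₂ M - det M = 0`; or `M.charpoly` evaluated with
`Matrix.det_one_add_smul`.
-/

set_option autoImplicit false

noncomputable section

namespace Pool.Agent.OneP74

open ComplexConjugate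

theorem DetD_three (M : Matrix (Fin 3) (Fin 3) ℂ) : M.charpoly =
    Polynomial.X ^ 3 - Polynomial.C M.trace * Polynomial.X ^ 2 +
      Polynomial.C M.adjugate.trace * Polynomial.X - Polynomial.C M.det := by
  rw [Matrix.charpoly, Matrix.det_fin_three, Matrix.trace_fin_three, Matrix.trace_fin_three,
    Matrix.adjugate_fin_three, Matrix.det_fin_three]
  simp only [Matrix.charmatrix_apply, Matrix.diagonal_apply, Matrix.of_apply, Matrix.cons_val',
    Matrix.cons_val_zero, Matrix.cons_val_one, Matrix.cons_val, map_sub, map_add, map_mul]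
  simp only [Fin.isValue, if_true, if_false, show (0 : Fin 3) ≠ 1 by decide,
    show (0 : Fin 3) ≠ 2 by decide, show (1 : Fin 3) ≠ 0 by decide, show (1 : Fin 3) ≠ 2 by decide,
    show (2 : Fin 3) ≠ 0 by decide, show (2 : Fin 3) ≠ 1 by decide]
  simp
  ring

theorem DetD_adj {n : ℕ} (M : Matrix (Fin n) (Fin n) ℂ) (hM : M.det ≠ 0)
    (h : conj M.trace = (M⁻¹).trace) : M.adjugate.trace = M.det * conj M.trace := by
  rw [h, Matrix.inv_def, Matrix.trace_smul, Ring.inverse_eq_inv', smul_eq_mul, ← mul_assoc,
    mul_inv_cancel₀ hM, one_mul]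

theorem charpoly_eq_of_le_three {n : ℕ} (hn : n ≤ 3) (M M' : Matrix (Fin n) (Fin n) ℂ)
    (hM : M.det ≠ 0) (hM' : M'.det ≠ 0) (h : conj M.trace = (M⁻¹).trace)
    (h' : conj M'.trace = (M'⁻¹).trace) (ht : M.trace = M'.trace) (hd : M.det = M'.det) :
    M.charpoly = M'.charpoly := by
  obtain rfl | rfl | rfl | rfl : n = 0 ∨ n = 1 ∨ n = 2 ∨ n = 3 := by omega
  · rw [Subsingleton.elim M M']
  · have h1 : M = M' := by
      ext i j
      have hi : i = 0 := Subsingleton.elim _ _
      have hj : j = 0 := Subsingleton.elim _ _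
      rw [hi, hj]
      simpa [Matrix.trace] using ht
    rw [h1]
  · rw [Matrix.charpoly_fin_two, Matrix.charpoly_fin_two, ht, hd]
  · rw [DetD_three, DetD_three, DetD_adj M hM h, DetD_adj M' hM' h', ht, hd]

end Pool.Agent.OneP74
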