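import Pool.Agent.W_7742y_h74.FldA

/-!
# A number field containing the traces, and the conjugates of the traces

`s : K → ℂ` is an embedding of a number field, `R` a complex representation of dimension `n` of a
finite group `Γ`.  There is a number field `L` of degree at most `[K : ℚ] |Γ|` with an embedding
`i : L → ℂ` whose image contains `s (K)` and the traces `tr R(g)`: `i (σ x) = s x`, `i (χ g) = tr R(g)`
with `σ : K → L` and `χ : Γ → L`; the `χ g` are integral, constant on conjugacy classes, and for every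
embedding `τ : L → ℂ` we have `|τ (χ g)| ≤ n` and `∑_g |τ (χ g)|² = ∑_g |tr R(g)|²`.

Proof.  Let `m = |Γ|`, `ζ = exp (2πi/m)` a primitive `m`-th root of unity
(`Complex.isPrimitiveRoot_exp`), and let `L = s(K) ⊔ ℚ(ζ)` as `IntermediateField ℚ ℂ`
(`s.fieldRange` as an intermediate field: `(RingHom.toRatAlgHom s).fieldRange`, of degree `[K : ℚ]`;
`IntermediateField.adjoin ℚ {ζ}` has degree `φ(m) ≤ m`, e.g. `IntermediateField.adjoin.finrank` and
`minpoly ∣ X ^ m - 1`; `IntermediateField.finrank_sup_le`).  By `exists_exponents` with `M = R g`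
(`R g ^ m = R (g ^ m) = 1`), `tr R(g) = ∑ ζ ^ (a i) ∈ L`, an algebraic integer.  Let `τ : L → ℂ` be an
embedding.  `τ ζ` is a primitive `m`-th root of unity (`IsPrimitiveRoot.map_of_injective`), so
`τ ζ = ζ ^ j` with `j` prime to `m` (`IsPrimitiveRoot.isPrimitiveRoot_iff`).  Hence
`τ (χ g) = ∑ (ζ ^ j) ^ (a i) = ∑ ζ ^ (j * a i) = tr (R g ^ j) = tr R(g ^ j)` (for `χ g` use
`i (χ g) = ∑ i(ζ) ^ (a i)` and the injectivity of `i`).  It is a sum of `n` roots of unity, so
`|τ (χ g)| ≤ n`, and `g ↦ g ^ j` is a bijection of `Γ` (`powCoprime`), so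
`∑_g |τ (χ g)|² = ∑_g |tr R(g ^ j)|² = ∑_g |tr R(g)|²`.  `χ` is a class function since `tr R` is one and
`i` is injective.
-/

set_option autoImplicit false

noncomputable section

namespace Pool.Agent.OneP74

theorem exists_field {K : Type} [Field K] [NumberField K] (s : K →+* ℂ) {Γ : Type} [Group Γ]
    [Fintype Γ] {n : ℕ} (R : Γ →* Matrix (Fin n) (Fin n) ℂ) :
    ∃ (L : Type) (_ : Field L) (_ : NumberField L) (i : L →+* ℂ) (σ : K →+* L) (χ : Γ → L),
      Module.finrank ℚ L ≤ Module.finrank ℚ K * Fintype.card Γ ∧ (∀ x, i (σ x) = s x) ∧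
      (∀ g, i (χ g) = (R g).trace) ∧ (∀ g, IsIntegral ℤ (χ g)) ∧
      (∀ x y, IsConj x y → χ x = χ y) ∧
      ∀ τ : L →+* ℂ, (∀ g, ‖τ (χ g)‖ ≤ n) ∧
        ∑ g, ‖τ (χ g)‖ ^ 2 = ∑ g, ‖(R g).trace‖ ^ 2 := by
  classical
  obtain ⟨m, hmdef⟩ : ∃ m : ℕ, m = Fintype.card Γ := ⟨_, rfl⟩
  have hm : 0 < m := by
    rw [hmdef]
    exact Fintype.card_pos
  haveI : NeZero m := ⟨hm.ne'⟩
  obtain ⟨ζ, hζ⟩ : ∃ ζ : ℂ, IsPrimitiveRoot ζ m := ⟨_, Complex.isPrimitiveRoot_exp m hm.ne'⟩
  have hRm : ∀ g, (R g) ^ m = 1 := fun g => by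
    rw [← map_pow, hmdef, pow_card_eq_one, map_one]
  choose a ha using fun g => exists_exponents hm (R g) (hRm g) ζ hζ
  -- the fields
  have e1 : Module.finrank ℚ s.toRatAlgHom.fieldRange = Module.finrank ℚ K :=
    (LinearEquiv.finrank_eq (AlgEquiv.ofInjectiveField s.toRatAlgHom).toLinearEquiv).symm
  haveI f1 : FiniteDimensional ℚ s.toRatAlgHom.fieldRange :=
    LinearEquiv.finiteDimensional (AlgEquiv.ofInjectiveField s.toRatAlgHom).toLinearEquiv
  have hint : IsIntegral ℚ ζ := (hζ.isIntegral hm).tower_top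
  have e2 : Module.finrank ℚ (IntermediateField.adjoin ℚ {ζ}) ≤ m := by
    rw [IntermediateField.adjoin.finrank hint]
    have h1 : minpoly ℚ ζ ∣ Polynomial.X ^ m - Polynomial.C 1 := by
      apply minpoly.dvd
      rw [map_sub, map_pow, Polynomial.aeval_X, Polynomial.aeval_C, hζ.pow_eq_one, map_one, sub_self]
    have h2 := Polynomial.natDegree_le_of_dvd h1 (Polynomial.X_pow_sub_C_ne_zero hm 1)
    rwa [Polynomial.natDegree_X_pow_sub_C] at h2
  haveI f2 : FiniteDimensional ℚ (IntermediateField.adjoin ℚ {ζ}) :=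
    IntermediateField.adjoin.finiteDimensional hint
  obtain ⟨L0, hL0⟩ : ∃ L0 : IntermediateField ℚ ℂ,
      L0 = s.toRatAlgHom.fieldRange ⊔ IntermediateField.adjoin ℚ {ζ} := ⟨_, rfl⟩
  haveI f3 : FiniteDimensional ℚ L0 := by
    rw [hL0]
    exact IntermediateField.finiteDimensional_sup _ _
  have e3 : Module.finrank ℚ L0 ≤ Module.finrank ℚ K * m := by
    rw [hL0]
    refine (IntermediateField.finrank_sup_le _ _).trans ?_
    rw [e1]
    exact Nat.mul_le_mul_left _ e2
  have hsL : ∀ x, s x ∈ L0 := by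
    intro x
    rw [hL0]
    exact (le_sup_left : s.toRatAlgHom.fieldRange ≤ _) ⟨x, rfl⟩
  have hζL : ζ ∈ L0 := by
    rw [hL0]
    exact (le_sup_right : IntermediateField.adjoin ℚ {ζ} ≤ _)
      (IntermediateField.mem_adjoin_simple_self ℚ ζ)
  let σ : K →+* L0 :=
    { toFun := fun x => ⟨s x, hsL x⟩
      map_one' := Subtype.ext (map_one s)
      map_mul' := fun x y => Subtype.ext (map_mul s x y)
      map_zero' := Subtype.ext (map_zero s)
      map_add' := fun x y => Subtype.ext (map_add s x y) }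
  let z : L0 := ⟨ζ, hζL⟩
  have hinj : Function.Injective (algebraMap L0 ℂ) := (algebraMap L0 ℂ).injective
  have hz : IsPrimitiveRoot z m := IsPrimitiveRoot.of_map_of_injective (f := algebraMap L0 ℂ) hζ hinj
  have hχ : ∀ g, algebraMap L0 ℂ (∑ i, z ^ (a g i)) = (R g).trace := by
    intro g
    have h1 := ha g 1
    rw [pow_one] at h1
    rw [h1, map_sum]
    refine Finset.sum_congr rfl fun i _ => ?_
    rw [map_pow, one_mul]
    rfl
  refine ⟨L0, inferInstance, ⟨⟩, algebraMap L0 ℂ, σ, fun g => ∑ i, z ^ (a g i), ?_,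
    fun x => rfl, hχ, fun g => ?_, fun x y hxy => ?_, fun τ => ?_⟩
  · rw [← hmdef]
    exact e3
  · exact IsIntegral.sum _ fun i _ => (hz.isIntegral hm).pow _
  · apply hinj
    rw [hχ, hχ]
    obtain ⟨c, hc⟩ := isConj_iff.1 hxy
    rw [← hc, map_mul, map_mul, Matrix.trace_mul_comm, ← Matrix.mul_assoc, ← map_mul,
      inv_mul_cancel, map_one, Matrix.one_mul]
  · have hτ : IsPrimitiveRoot (τ z) m := hz.map_of_injective τ.injective
    obtain ⟨j, -, hj, hjζ⟩ := (hζ.isPrimitiveRoot_iff).1 hτ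
    have hval : ∀ g, τ (∑ i, z ^ (a g i)) = (R (g ^ j)).trace := by
      intro g
      rw [map_pow, ha g j, map_sum]
      refine Finset.sum_congr rfl fun i _ => ?_
      rw [map_pow, ← hjζ, ← pow_mul]
    refine ⟨fun g => ?_, ?_⟩
    · show ‖τ (∑ i, z ^ (a g i))‖ ≤ n
      rw [map_sum]
      refine (norm_sum_le _ _).trans ?_
      have h1 : ∀ i ∈ (Finset.univ : Finset (Fin n)), ‖τ (z ^ (a g i))‖ ≤ 1 := by
        intro i _
        rw [map_pow, norm_pow, hτ.norm'_eq_one hm.ne', one_pow]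
      refine (Finset.sum_le_card_nsmul _ _ _ h1).trans ?_
      rw [Finset.card_univ, Fintype.card_fin, nsmul_eq_mul, mul_one]
    · have hcop : (Nat.card Γ).Coprime j := by
        rw [Nat.card_eq_fintype_card, ← hmdef]
        exact hj.symm
      have h1 : ∀ g, ‖τ (∑ i, z ^ (a g i))‖ ^ 2 = ‖(R (powCoprime hcop g)).trace‖ ^ 2 := by
        intro g
        rw [hval]
        rfl
      show ∑ g, ‖τ (∑ i, z ^ (a g i))‖ ^ 2 = _
      rw [Finset.sum_congr rfl fun g _ => h1 g]
      exact Equiv.sum_comp (powCoprime hcop) fun g => ‖(R g).trace‖ ^ 2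

end Pool.Agent.OneP74
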