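import Pool.Agent.W_7742y_h74.Mean

/-!
# Self-improvement: a congruence modulo a large prime is an equality for almost all primes

`Γ = G / U` is finite, `ι` a finite nonempty set (of embeddings), `χ τ` are class functions on `Γ` with
`|χ τ x| ≤ n` and mean square at least one, and `a τ p` are complex numbers with
`∑_p |a τ p|² p ^ (-s) ≤ (1 + ε) log (1 / (s - 1))` near `1` for all `ε > 0`.  Let `Z`, `E` be sets of
primes, `Z` of density zero, such that `a τ p = χ τ (frob p)` for `p ∉ Z ∪ E` and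
`∑_τ |a τ p - χ τ (frob p)|² ≥ |ι| (4 n² + 1)` for `p ∈ E`.  Then `E` has density zero, and the mean
square of each `χ τ` is at most one.

Proof.  Let `ε > 0`, `L = log (1 / (s - 1))`, `s > 1` close to `1`, and write `S(X) = primeSum X s`.
By `tendsto_mean` (with `f = |χ τ|²`, mean `≥ 1`) `∑_p |χ τ (frob p)|² p ^ (-s) ≥ (1 - ε) L`, and
`S(Z) ≤ ε L`.  Since `a τ p = χ τ (frob p)` outside `Z ∪ E` and `|χ|² ≤ n²`,
`∑_{p ∈ E} |a τ p|² p^(-s) ≤ ∑_p |a τ p|² p^(-s) - ∑_{p ∉ Z ∪ E} |χ τ (frob p)|² p^(-s)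
≤ (1 + ε) L - (1 - ε) L + n² (S(Z) + S(E)) ≤ (2 + n²) ε L + n² S(E)`.
With `|a - χ|² ≤ 2 |a|² + 2 |χ|²`:
`∑_{p ∈ E} |a τ p - χ τ (frob p)|² p^(-s) ≤ 2 (2 + n²) ε L + 2 n² S(E) + 2 n² S(E)`.  Sum over
`τ ∈ ι`: `|ι| (4 n² + 1) S(E) ≤ |ι| (4 n² S(E) + 2 (2 + n²) ε L)`, so `S(E) ≤ 2 (2 + n²) ε L`.
As `ε > 0` is arbitrary (and `S(E) ≥ 0`) `E` has density zero.
Second claim: `∑_p |χ τ (frob p)|² p^(-s) ≤ ∑_{p ∉ Z ∪ E} |a τ p|² p^(-s) + n² (S(Z) + S(E))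
≤ (1 + ε) L + o(L)`; divide by `L` and let `s → 1`: the mean is `≤ 1 + ε`, for all `ε > 0`.

All sums converge for `s > 1` close to `1`: `LogBound` contains the summability of
`|a τ p|² p^(-s)`, `summable_frob`, and `Chb_summable` etc. (`W_7742e_h15/Chb.lean`).  Sums over a
subset are written with `Set.indicator`.
-/

set_option autoImplicit false

noncomputable section

open Filter Topology

namespace Pool.Agent.OneP74

open Pool.Agent.GalSide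

variable {G : Type} [Group G] [TopologicalSpace G] [IsTopologicalGroup G] [CompactSpace G]

theorem Imp_sq (a c : ℂ) : ‖a - c‖ ^ 2 ≤ 2 * ‖a‖ ^ 2 + 2 * ‖c‖ ^ 2 := by
  have h1 := norm_sub_le a c
  have h2 := norm_nonneg (a - c)
  have h3 : ‖a - c‖ ^ 2 ≤ (‖a‖ + ‖c‖) ^ 2 := pow_le_pow_left₀ h2 h1 2
  nlinarith [sq_nonneg (‖a‖ - ‖c‖)]

theorem Imp_hasSum_primeSum (X : Set Nat.Primes) {s : ℝ} (hs : 1 < s) :
    HasSum (fun p : Nat.Primes => X.indicator (fun q : Nat.Primes => ((q : ℕ) : ℝ) ^ (-s)) p)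
      (primeSum X s) :=
  (Chb_summable hs X).hasSum

/-- The bound for the sum over `E` at a point `s > 1`. -/
theorem Imp_bound {ι : Type} [Fintype ι] {n : ℕ} (c a : ι → Nat.Primes → ℂ)
    (hc : ∀ τ p, ‖c τ p‖ ≤ n) (Z E : Set Nat.Primes)
    (hE : ∀ p ∈ E, (Fintype.card ι : ℝ) * (4 * (n : ℝ) ^ 2 + 1) ≤ ∑ τ, ‖a τ p - c τ p‖ ^ 2)
    (hEc : ∀ p, p ∉ Z → p ∉ E → ∀ τ, a τ p = c τ p) {s : ℝ} (hs : 1 < s)
    (hsa : ∀ τ, Summable fun p : Nat.Primes => ‖a τ p‖ ^ 2 * ((p : ℕ) : ℝ) ^ (-s))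
    (hsc : ∀ τ, Summable fun p : Nat.Primes => ‖c τ p‖ ^ 2 * ((p : ℕ) : ℝ) ^ (-s)) :
    (Fintype.card ι : ℝ) * primeSum E s ≤
      2 * ∑ τ, (∑' p : Nat.Primes, ‖a τ p‖ ^ 2 * ((p : ℕ) : ℝ) ^ (-s) -
        ∑' p : Nat.Primes, ‖c τ p‖ ^ 2 * ((p : ℕ) : ℝ) ^ (-s)) +
      (Fintype.card ι : ℝ) * (2 * (n : ℝ) ^ 2) * primeSum Z s := by
  have h1 := (Imp_hasSum_primeSum E hs).mul_left (Fintype.card ι : ℝ)
  have h2 := (Imp_hasSum_primeSum Z hs).mul_left ((Fintype.card ι : ℝ) * (2 * (n : ℝ) ^ 2))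
  have h3 := (hasSum_sum (s := Finset.univ) fun τ _ => (hsa τ).hasSum.sub (hsc τ).hasSum).mul_left 2
  refine hasSum_le (fun p => ?_) h1 (h3.add h2)
  have hw : 0 ≤ ((p : ℕ) : ℝ) ^ (-s) := Real.rpow_nonneg (Nat.cast_nonneg _) _
  have hcn : ∀ τ, ‖c τ p‖ ^ 2 ≤ (n : ℝ) ^ 2 := fun τ => pow_le_pow_left₀ (norm_nonneg _) (hc τ p) 2
  have e1 : 2 * ∑ τ, (‖a τ p‖ ^ 2 * ((p : ℕ) : ℝ) ^ (-s) - ‖c τ p‖ ^ 2 * ((p : ℕ) : ℝ) ^ (-s)) =
      (∑ τ, (2 * ‖a τ p‖ ^ 2 - 2 * ‖c τ p‖ ^ 2)) * ((p : ℕ) : ℝ) ^ (-s) := by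
    rw [Finset.mul_sum, Finset.sum_mul]
    refine Finset.sum_congr rfl fun τ _ => ?_
    ring
  rw [e1]
  have hcard : ∑ _τ : ι, (1 : ℝ) = Fintype.card ι := by
    rw [Finset.sum_const, nsmul_eq_mul, mul_one, Finset.card_univ]
  by_cases hpE : p ∈ E
  · rw [Set.indicator_of_mem hpE]
    have h4 : (Fintype.card ι : ℝ) ≤ ∑ τ, (2 * ‖a τ p‖ ^ 2 - 2 * ‖c τ p‖ ^ 2) := by
      have h5 : ∑ τ, ‖a τ p - c τ p‖ ^ 2 ≤
          ∑ τ, ((2 * ‖a τ p‖ ^ 2 - 2 * ‖c τ p‖ ^ 2) + 4 * (n : ℝ) ^ 2 * 1) := by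
        refine Finset.sum_le_sum fun τ _ => ?_
        have h6 := Imp_sq (a τ p) (c τ p)
        have h7 := hcn τ
        linarith
      rw [Finset.sum_add_distrib, ← Finset.mul_sum, hcard] at h5
      have h8 := hE p hpE
      linarith
    have h9 : 0 ≤ (Fintype.card ι : ℝ) * (2 * (n : ℝ) ^ 2) *
        Z.indicator (fun q : Nat.Primes => ((q : ℕ) : ℝ) ^ (-s)) p := by
      refine mul_nonneg (by positivity) (Set.indicator_nonneg (fun q _ => ?_) p)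
      exact Real.rpow_nonneg (Nat.cast_nonneg _) _
    have h10 := mul_le_mul_of_nonneg_right h4 hw
    linarith
  · rw [Set.indicator_of_notMem hpE, mul_zero]
    by_cases hpZ : p ∈ Z
    · rw [Set.indicator_of_mem hpZ]
      have h4 : -((Fintype.card ι : ℝ) * (2 * (n : ℝ) ^ 2)) ≤
          ∑ τ, (2 * ‖a τ p‖ ^ 2 - 2 * ‖c τ p‖ ^ 2) := by
        have h5 : ∑ _τ : ι, -(2 * (n : ℝ) ^ 2) * 1 ≤ ∑ τ, (2 * ‖a τ p‖ ^ 2 - 2 * ‖c τ p‖ ^ 2) := by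
          refine Finset.sum_le_sum fun τ _ => ?_
          have h7 := hcn τ
          have h8 := sq_nonneg ‖a τ p‖
          linarith
        rw [← Finset.mul_sum, hcard] at h5
        linarith
      have h10 := mul_le_mul_of_nonneg_right h4 hw
      linarith
    · rw [Set.indicator_of_notMem hpZ, mul_zero, add_zero]
      refine mul_nonneg (Finset.sum_nonneg fun τ _ => ?_) hw
      rw [hEc p hpZ hpE τ, sub_self]

/-- The bound for the mean at a point `s > 1`. -/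
theorem Imp_bound2 {n : ℕ} (c a : Nat.Primes → ℂ)
    (hc : ∀ p, ‖c p‖ ≤ n) (Z E : Set Nat.Primes)
    (hEc : ∀ p, p ∉ Z → p ∉ E → a p = c p) {s : ℝ} (hs : 1 < s)
    (hsa : Summable fun p : Nat.Primes => ‖a p‖ ^ 2 * ((p : ℕ) : ℝ) ^ (-s))
    (hsc : Summable fun p : Nat.Primes => ‖c p‖ ^ 2 * ((p : ℕ) : ℝ) ^ (-s)) :
    ∑' p : Nat.Primes, ‖c p‖ ^ 2 * ((p : ℕ) : ℝ) ^ (-s) ≤
      ∑' p : Nat.Primes, ‖a p‖ ^ 2 * ((p : ℕ) : ℝ) ^ (-s) +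
        ((n : ℝ) ^ 2 * primeSum Z s + (n : ℝ) ^ 2 * primeSum E s) := by
  have h1 := (Imp_hasSum_primeSum E hs).mul_left ((n : ℝ) ^ 2)
  have h2 := (Imp_hasSum_primeSum Z hs).mul_left ((n : ℝ) ^ 2)
  refine hasSum_le (fun p => ?_) hsc.hasSum (hsa.hasSum.add (h2.add h1))
  have hw : 0 ≤ ((p : ℕ) : ℝ) ^ (-s) := Real.rpow_nonneg (Nat.cast_nonneg _) _
  have hcn : ‖c p‖ ^ 2 ≤ (n : ℝ) ^ 2 := pow_le_pow_left₀ (norm_nonneg _) (hc p) 2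
  have ha : 0 ≤ ‖a p‖ ^ 2 * ((p : ℕ) : ℝ) ^ (-s) := mul_nonneg (sq_nonneg _) hw
  have h3 : ‖c p‖ ^ 2 * ((p : ℕ) : ℝ) ^ (-s) ≤ (n : ℝ) ^ 2 * ((p : ℕ) : ℝ) ^ (-s) :=
    mul_le_mul_of_nonneg_right hcn hw
  have hZ : 0 ≤ (n : ℝ) ^ 2 * Z.indicator (fun q : Nat.Primes => ((q : ℕ) : ℝ) ^ (-s)) p :=
    mul_nonneg (sq_nonneg _) (Set.indicator_nonneg
      (fun q _ => Real.rpow_nonneg (Nat.cast_nonneg _) _) p)
  have hE : 0 ≤ (n : ℝ) ^ 2 * E.indicator (fun q : Nat.Primes => ((q : ℕ) : ℝ) ^ (-s)) p :=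
    mul_nonneg (sq_nonneg _) (Set.indicator_nonneg
      (fun q _ => Real.rpow_nonneg (Nat.cast_nonneg _) _) p)
  by_cases hpZ : p ∈ Z
  · rw [Set.indicator_of_mem hpZ] at hZ ⊢
    linarith
  · by_cases hpE : p ∈ E
    · rw [Set.indicator_of_mem hpE] at hE ⊢
      linarith
    · rw [hEc p hpZ hpE]
      linarith

theorem improve (Φ : FrobeniusData G) (U : Subgroup G) [U.Normal] (hU : IsOpen (U : Set G))
    [Fintype (G ⧸ U)] {ι : Type} [Fintype ι] [Nonempty ι] {n : ℕ}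
    (χ : ι → G ⧸ U → ℂ) (hχc : ∀ τ x y, IsConj x y → χ τ x = χ τ y)
    (hχn : ∀ τ x, ‖χ τ x‖ ≤ n)
    (hχ1 : ∀ τ, (Fintype.card (G ⧸ U) : ℝ) ≤ ∑ x, ‖χ τ x‖ ^ 2)
    (a : ι → Nat.Primes → ℂ)
    (ha : ∀ τ, ∀ ε : ℝ, 0 < ε → LogBound (1 + ε) (fun p => ‖a τ p‖ ^ 2))
    (Z E : Set Nat.Primes) (hZ : HasDensity Z 0)
    (hE : ∀ p ∈ E, (Fintype.card ι : ℝ) * (4 * (n : ℝ) ^ 2 + 1) ≤
      ∑ τ, ‖a τ p - χ τ (QuotientGroup.mk (Φ.frob p))‖ ^ 2)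
    (hEc : ∀ p, p ∉ Z → p ∉ E → ∀ τ, a τ p = χ τ (QuotientGroup.mk (Φ.frob p))) :
    HasDensity E 0 ∧ ∀ τ, ∑ x, ‖χ τ x‖ ^ 2 ≤ (Fintype.card (G ⧸ U) : ℝ) := by
  have hcl : ∀ τ, ∀ x y : G ⧸ U, IsConj x y → ‖χ τ x‖ ^ 2 = ‖χ τ y‖ ^ 2 := fun τ x y h => by
    rw [hχc τ x y h]
  have hmean := fun τ => tendsto_mean Φ U hU (fun x => ‖χ τ x‖ ^ 2) (hcl τ)
  have hsc : ∀ {s : ℝ}, 1 < s → ∀ τ, Summable fun p : Nat.Primes =>
      ‖χ τ (QuotientGroup.mk (Φ.frob p))‖ ^ 2 * ((p : ℕ) : ℝ) ^ (-s) := fun hs τ =>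
    summable_frob Φ U (fun x => ‖χ τ x‖ ^ 2) hs
  have hG0 : (0 : ℝ) < Fintype.card (G ⧸ U) := by
    exact_mod_cast Fintype.card_pos
  have hι0 : (0 : ℝ) < Fintype.card ι := by
    exact_mod_cast Fintype.card_pos
  have hE0 : HasDensity E 0 := by
    unfold HasDensity
    refine tendsto_order.2 ⟨fun b hb => ?_, fun b hb => ?_⟩
    · filter_upwards [Chb_log.eventually_gt_atTop 0] with s hs
      exact hb.trans_le (div_nonneg (Chb_nonneg _ _) hs.le)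
    · obtain ⟨ε, hε, hεb⟩ : ∃ ε : ℝ, 0 < ε ∧ (4 + 2 * (n : ℝ) ^ 2) * ε < b := by
        refine ⟨b / (2 * (4 + 2 * (n : ℝ) ^ 2)), by positivity, ?_⟩
        have h1 : 0 < 4 + 2 * (n : ℝ) ^ 2 := by positivity
        have h2 : (4 + 2 * (n : ℝ) ^ 2) * (b / (2 * (4 + 2 * (n : ℝ) ^ 2))) = b / 2 := by
          field_simp
        rw [h2]
        linarith
      have h1 : ∀ᶠ s : ℝ in 𝓝[>] 1, ∀ τ, 1 - ε < (∑' p : Nat.Primes,
          ‖χ τ (QuotientGroup.mk (Φ.frob p))‖ ^ 2 * ((p : ℕ) : ℝ) ^ (-s)) /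
            Real.log (1 / (s - 1)) := by
        refine eventually_all.2 fun τ => (tendsto_order.1 (hmean τ)).1 _ ?_
        have h2 : 1 ≤ (∑ x, ‖χ τ x‖ ^ 2) / (Fintype.card (G ⧸ U) : ℝ) := by
          rw [le_div_iff₀ hG0, one_mul]
          exact hχ1 τ
        linarith
      have h2 : ∀ᶠ s : ℝ in 𝓝[>] 1, ∀ τ,
          Summable (fun p : Nat.Primes => ‖a τ p‖ ^ 2 * ((p : ℕ) : ℝ) ^ (-s)) ∧
          ∑' p : Nat.Primes, ‖a τ p‖ ^ 2 * ((p : ℕ) : ℝ) ^ (-s) ≤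
            (1 + ε) * Real.log (1 / (s - 1)) := eventually_all.2 fun τ => ha τ ε hε
      have h3 := (tendsto_order.1 hZ).2 ε hε
      filter_upwards [h1, h2, h3, Chb_gt, Chb_log.eventually_gt_atTop 0] with s h1 h2 h3 hs hL
      rw [div_lt_iff₀ hL] at h3 ⊢
      have h4 := Imp_bound (fun τ p => χ τ (QuotientGroup.mk (Φ.frob p))) a
        (fun τ p => hχn τ _) Z E hE hEc hs (fun τ => (h2 τ).1) (hsc hs)
      have h5 : ∑ τ, (∑' p : Nat.Primes, ‖a τ p‖ ^ 2 * ((p : ℕ) : ℝ) ^ (-s) -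
          ∑' p : Nat.Primes, ‖χ τ (QuotientGroup.mk (Φ.frob p))‖ ^ 2 * ((p : ℕ) : ℝ) ^ (-s)) ≤
          ∑ _τ : ι, 2 * ε * Real.log (1 / (s - 1)) := by
        refine Finset.sum_le_sum fun τ _ => ?_
        have h6 := h1 τ
        rw [lt_div_iff₀ hL] at h6
        have h7 := (h2 τ).2
        linarith
      rw [Finset.sum_const, nsmul_eq_mul, Finset.card_univ] at h5
      have h8 : (Fintype.card ι : ℝ) * (2 * (n : ℝ) ^ 2) * primeSum Z s ≤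
          (Fintype.card ι : ℝ) * (2 * (n : ℝ) ^ 2) * (ε * Real.log (1 / (s - 1))) :=
        mul_le_mul_of_nonneg_left h3.le (by positivity)
      have h9 : (Fintype.card ι : ℝ) * primeSum E s ≤
          (Fintype.card ι : ℝ) * ((4 + 2 * (n : ℝ) ^ 2) * ε * Real.log (1 / (s - 1))) := by
        nlinarith [h4, h5, h8]
      have h10 := le_of_mul_le_mul_left h9 hι0
      exact h10.trans_lt (mul_lt_mul_of_pos_right hεb hL)
  refine ⟨hE0, fun τ => ?_⟩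
  have h1 : (∑ x, ‖χ τ x‖ ^ 2) / (Fintype.card (G ⧸ U) : ℝ) ≤ 1 := by
    refine le_of_forall_pos_le_add fun ε hε => ?_
    have h2 : Tendsto (fun s : ℝ => (1 + ε) + ((n : ℝ) ^ 2 * (primeSum Z s / Real.log (1 / (s - 1))) +
        (n : ℝ) ^ 2 * (primeSum E s / Real.log (1 / (s - 1))))) (𝓝[>] 1)
        (𝓝 ((1 + ε) + ((n : ℝ) ^ 2 * 0 + (n : ℝ) ^ 2 * 0))) :=
      ((hZ.const_mul _).add (hE0.const_mul _)).const_add _
    rw [mul_zero, add_zero, add_zero] at h2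
    refine le_of_tendsto_of_tendsto (hmean τ) h2 ?_
    filter_upwards [ha τ ε hε, Chb_gt, Chb_log.eventually_gt_atTop 0] with s h3 hs hL
    have h4 := Imp_bound2 (fun p => χ τ (QuotientGroup.mk (Φ.frob p))) (a τ)
      (fun p => hχn τ _) Z E (fun p h h' => hEc p h h' τ) hs h3.1 (hsc hs τ)
    rw [div_le_iff₀ hL]
    have e1 : (1 + ε + ((n : ℝ) ^ 2 * (primeSum Z s / Real.log (1 / (s - 1))) +
        (n : ℝ) ^ 2 * (primeSum E s / Real.log (1 / (s - 1))))) * Real.log (1 / (s - 1)) =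
        (1 + ε) * Real.log (1 / (s - 1)) + ((n : ℝ) ^ 2 * primeSum Z s +
          (n : ℝ) ^ 2 * primeSum E s) := by
      field_simp
    rw [e1]
    have h5 := h3.2
    linarith
  rwa [div_le_iff₀ hG0, one_mul] at h1

end Pool.Agent.OneP74
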