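import Pool.Agent.W_7742e_h15.Irr

/-!
# Mean squares of characters

The mean square of the character of a complex representation of positive dimension of a finite group
is at least one, and of a sum of two such characters at least two.

Proof.  As in `Pool.Agent.GalSide.eq_bot_or_eq_top` (`W_7742e_h15/Irr.lean`):
`(1/|Γ|) ∑_g |tr R(g)|²` is the dimension of the space of the `Γ`-equivariant endomorphisms of
`ℂ ^ n` (`Representation.card_inv_mul_sum_char_eq_finrank` for `Representation.linHom r r`,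
`Representation.char_linHom`, `irr_trace_inv_eq`), which contains the identity.  For the second claim
take the block diagonal representation `R = R₁ ⊕ R₂` (`exists_sum` in `SS.lean` or
`Matrix.fromBlocks`) and the two projections, or expand:
`∑ |χ₁ + χ₂|² = ∑ |χ₁|² + ∑ |χ₂|² + 2 Re ∑ χ₁ conj χ₂`, and the last sum is `|Γ|` times the
dimension of the space of the equivariant maps, so it is `≥ 0`.  Another way: if
`∑ |χ₁ + χ₂|² < 2 |Γ|` then, being `|Γ|` times a natural number, it is `≤ |Γ|`, and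
`eq_bot_or_eq_top` for the block diagonal representation contradicts the stable subspace `ℂ ^ a ⊕ 0`.
-/

set_option autoImplicit false

noncomputable section

namespace Pool.Agent.OneP74

open Pool.Agent.GalSide

theorem MeanGe_pair {Γ : Type} [Group Γ] [Fintype Γ] {a b : ℕ}
    (R₁ : Γ →* Matrix (Fin a) (Fin a) ℂ) (R₂ : Γ →* Matrix (Fin b) (Fin b) ℂ) :
    ∃ d : ℕ, ∑ g, star (R₁ g).trace * (R₂ g).trace = ((Fintype.card Γ : ℂ) * (d : ℂ)) ∧
      (a = b → 0 < a → (∀ g, HEq (R₁ g) (R₂ g)) → 0 < d) := by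
  classical
  let r₁ : Representation ℂ Γ (Fin a → ℂ) :=
    (Matrix.toLinAlgEquiv' (R := ℂ) (n := Fin a)).toMonoidHom.comp R₁
  let r₂ : Representation ℂ Γ (Fin b → ℂ) :=
    (Matrix.toLinAlgEquiv' (R := ℂ) (n := Fin b)).toMonoidHom.comp R₂
  have hchar₁ : ∀ g, r₁.character g = (R₁ g).trace := fun g => Matrix.trace_toLin'_eq (R₁ g)
  have hchar₂ : ∀ g, r₂.character g = (R₂ g).trace := fun g => Matrix.trace_toLin'_eq (R₂ g)
  have hcard0 : (Nat.card Γ : ℂ) ≠ 0 := Nat.cast_ne_zero.2 Nat.card_pos.ne'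
  let _ : Invertible (Nat.card Γ : ℂ) := invertibleOfNonzero hcard0
  have key := Representation.card_inv_mul_sum_char_eq_finrank (Representation.linHom r₁ r₂)
  have hsum : ∑ g : Γ, (Representation.linHom r₁ r₂).character g =
      ∑ g, star (R₁ g).trace * (R₂ g).trace := by
    refine Finset.sum_congr rfl fun g _ => ?_
    rw [Representation.char_linHom, hchar₁, hchar₂]
    have h1 : (R₁ g⁻¹).trace = star (R₁ g).trace := by
      have := irr_trace_inv_eq R₁ g⁻¹
      rw [inv_inv] at this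
      exact this.symm
    rw [h1]
  rw [hsum, inv_mul_eq_iff_eq_mul₀ hcard0] at key
  refine ⟨Module.finrank ℂ (Representation.linHom r₁ r₂).invariants, ?_, ?_⟩
  · rw [key, Nat.card_eq_fintype_card]
  · intro hab ha hR
    subst hab
    have hRR : R₁ = R₂ := by
      ext1 g
      exact eq_of_heq (hR g)
    subst hRR
    have h1inv : (LinearMap.id : (Fin a → ℂ) →ₗ[ℂ] (Fin a → ℂ)) ∈
        (Representation.linHom r₁ r₂).invariants := by
      intro k
      rw [Representation.linHom_apply]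
      refine LinearMap.ext fun v => ?_
      show r₁ k (r₁ k⁻¹ v) = v
      rw [← Module.End.mul_apply, ← map_mul, mul_inv_cancel, map_one, Module.End.one_apply]
    refine Nat.pos_of_ne_zero fun hz => ?_
    have h0 : (Representation.linHom r₁ r₂).invariants = ⊥ := Submodule.finrank_eq_zero.1 hz
    rw [h0, Submodule.mem_bot] at h1inv
    have h3 := LinearMap.congr_fun h1inv (fun _ => 1)
    have h4 := congrFun h3 ⟨0, ha⟩
    simp at h4

theorem card_le_sum {Γ : Type} [Group Γ] [Fintype Γ] {n : ℕ} (hn : 0 < n)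
    (R : Γ →* Matrix (Fin n) (Fin n) ℂ) :
    (Fintype.card Γ : ℝ) ≤ ∑ g, ‖(R g).trace‖ ^ 2 := by
  obtain ⟨d, hd, hd0⟩ := MeanGe_pair R R
  have hd1 : 0 < d := hd0 rfl hn fun g => HEq.rfl
  have h1 : ((∑ g, ‖(R g).trace‖ ^ 2 : ℝ) : ℂ) = (((Fintype.card Γ : ℝ) * (d : ℝ) : ℝ) : ℂ) := by
    push_cast
    rw [← hd]
    refine Finset.sum_congr rfl fun g _ => ?_
    exact (Complex.conj_mul' _).symm
  have h2 := Complex.ofReal_injective h1
  rw [h2]
  have h3 : (1 : ℝ) ≤ d := by exact_mod_cast hd1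
  have h4 : (0 : ℝ) ≤ Fintype.card Γ := Nat.cast_nonneg _
  nlinarith

theorem two_mul_card_le_sum {Γ : Type} [Group Γ] [Fintype Γ] {a b : ℕ} (ha : 0 < a) (hb : 0 < b)
    (R₁ : Γ →* Matrix (Fin a) (Fin a) ℂ) (R₂ : Γ →* Matrix (Fin b) (Fin b) ℂ) :
    2 * (Fintype.card Γ : ℝ) ≤ ∑ g, ‖(R₁ g).trace + (R₂ g).trace‖ ^ 2 := by
  obtain ⟨d, hd, -⟩ := MeanGe_pair R₁ R₂
  have h1 := card_le_sum ha R₁
  have h2 := card_le_sum hb R₂
  have h3 : ∑ g, ‖(R₁ g).trace + (R₂ g).trace‖ ^ 2 = ∑ g, ‖(R₁ g).trace‖ ^ 2 +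
      ∑ g, ‖(R₂ g).trace‖ ^ 2 + 2 * (∑ g, star (R₁ g).trace * (R₂ g).trace).re := by
    rw [Complex.re_sum, Finset.mul_sum, ← Finset.sum_add_distrib, ← Finset.sum_add_distrib]
    refine Finset.sum_congr rfl fun g _ => ?_
    rw [← Complex.normSq_eq_norm_sq, ← Complex.normSq_eq_norm_sq, ← Complex.normSq_eq_norm_sq,
      Complex.normSq_apply, Complex.normSq_apply, Complex.normSq_apply]
    simp only [Complex.add_re, Complex.add_im, Complex.mul_re, Complex.star_def, Complex.conj_re,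
      Complex.conj_im]
    ring
  have h4 : 0 ≤ (∑ g, star (R₁ g).trace * (R₂ g).trace).re := by
    rw [hd]
    have : (Fintype.card Γ : ℂ) * (d : ℂ) = (((Fintype.card Γ * d : ℕ) : ℝ) : ℂ) := by
      push_cast
      rfl
    rw [this, Complex.ofReal_re]
    exact Nat.cast_nonneg _
  rw [h3]
  linarith

end Pool.Agent.OneP74
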