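import Pool.Agent.W_7742y_h74.LftB

/-!
# The norm argument

`L` is a number field, `i : L → ℂ` an embedding, `V` a valuation ring of `ℂ` with `ℓ ∈ 𝔪`, `ℓ` a prime
number, and `δ ≠ 0` an integer of `L` with `i δ ∈ 𝔪`.  If `c ≥ 0` and `c ^ [L : ℚ] ≤ ℓ` then
`∑_τ |τ δ|² ≥ [L : ℚ] c²`, the sum over all embeddings of `L`.

Proof.  The norm `N = Algebra.norm ℚ δ` is a nonzero integer (`Algebra.isIntegral_norm`,
`Algebra.norm_ne_zero_iff`), and `N = ∏_τ τ δ` (`Algebra.norm_eq_prod_embeddings ℚ ℂ`, over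
`L →ₐ[ℚ] ℂ`, to be compared with `L →+* ℂ` by `RingHom.equivRatAlgHom`).  In this product the factor
for `τ = i` lies in `𝔪` and the other ones are algebraic integers, so they lie in `V`
(`mem_of_isIntegral`); hence `V.valuation N < 1`.  An integer `N` prime to `ℓ` satisfies
`u N + v ℓ = 1` with integers `u`, `v`, which would give `V.valuation 1 < 1`; so `ℓ` divides `N` and
`|N| ≥ ℓ`.  By the inequality between the geometric and the arithmetic mean
(`Real.inner_le_nnorm_mul_nnorm`... `Real.inner`; use `Finset.prod_pow_le...`,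
`Real.geom_mean_le_arith_mean_weighted`, or `inner_le`; for instance
`(∏ |τ δ|²) ^ (1/D) ≤ (1/D) ∑ |τ δ|²` with `D = [L : ℚ]`, the number of embeddings
(`NumberField.Embeddings.card`)), `∑_τ |τ δ|² ≥ D (|N|²) ^ (1/D) ≥ D (c ^ (2 D)) ^ (1/D) = D c²`.
-/

set_option autoImplicit false

noncomputable section

namespace Pool.Agent.OneP74

theorem sum_sq_ge {L : Type} [Field L] [NumberField L] (i : L →+* ℂ) (V : ValuationSubring ℂ)
    {ℓ : ℕ} (hp : ℓ.Prime) (hℓ : V.valuation (ℓ : ℂ) < 1) (δ : L) (hint : IsIntegral ℤ δ)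
    (h0 : δ ≠ 0) (hδ : V.valuation (i δ) < 1) (c : ℝ) (hc : 0 ≤ c)
    (hcl : c ^ Module.finrank ℚ L ≤ (ℓ : ℝ)) :
    (Module.finrank ℚ L : ℝ) * c ^ 2 ≤ ∑ τ : L →+* ℂ, ‖τ δ‖ ^ 2 := by
  classical
  -- the norm
  have hN1 : IsIntegral ℤ (Algebra.norm ℚ δ) := Algebra.isIntegral_norm ℚ hint
  obtain ⟨N, hN⟩ := IsIntegrallyClosed.isIntegral_iff.1 hN1
  have hNne : N ≠ 0 := by
    rintro rfl
    rw [map_zero] at hN
    exact h0 ((Algebra.norm_eq_zero_iff).1 hN.symm)
  have hprod : ((N : ℤ) : ℂ) = ∏ τ : L →+* ℂ, τ δ := by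
    have h1 := Algebra.norm_eq_prod_embeddings ℚ ℂ δ
    have h2 : algebraMap ℚ ℂ (Algebra.norm ℚ δ) = ((N : ℤ) : ℂ) := by
      rw [← hN]
      simp
    rw [← h2, h1]
    exact (Fintype.prod_equiv (RingHom.equivRatAlgHom (R := L) (S := ℂ)) _ _ fun τ => rfl).symm
  -- the valuation of the norm
  have hval : V.valuation ((N : ℤ) : ℂ) < 1 := by
    rw [hprod, ← Finset.mul_prod_erase Finset.univ (fun τ : L →+* ℂ => τ δ) (Finset.mem_univ i),
      map_mul]
    have h1 : V.valuation (∏ τ ∈ Finset.univ.erase i, τ δ) ≤ 1 := by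
      rw [ValuationSubring.valuation_le_one_iff]
      exact prod_mem fun τ _ => mem_of_isIntegral V (hint.map τ.toIntAlgHom)
    calc V.valuation (i δ) * V.valuation (∏ τ ∈ Finset.univ.erase i, τ δ)
        ≤ V.valuation (i δ) * 1 := by gcongr
      _ < 1 := by rw [mul_one]; exact hδ
  have hdvd : (ℓ : ℤ) ∣ N := by
    by_contra hnd
    have hco : IsCoprime (ℓ : ℤ) N :=
      ((Nat.prime_iff_prime_int.1 hp).coprime_iff_not_dvd).2 hnd
    obtain ⟨u, v, huv⟩ := hco
    have h1 : V.valuation (((u * ℓ + v * N : ℤ)) : ℂ) < 1 := by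
      push_cast
      refine lt_of_le_of_lt (Valuation.map_add _ _ _) (max_lt ?_ ?_)
      · rw [map_mul]
        have h2 : V.valuation ((u : ℤ) : ℂ) ≤ 1 := by
          rw [ValuationSubring.valuation_le_one_iff]
          exact intCast_mem V u
        calc V.valuation ((u : ℤ) : ℂ) * V.valuation ((ℓ : ℕ) : ℂ)
            ≤ 1 * V.valuation ((ℓ : ℕ) : ℂ) := by gcongr
          _ < 1 := by rw [one_mul]; exact hℓ
      · rw [map_mul]
        have h2 : V.valuation ((v : ℤ) : ℂ) ≤ 1 := by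
          rw [ValuationSubring.valuation_le_one_iff]
          exact intCast_mem V v
        calc V.valuation ((v : ℤ) : ℂ) * V.valuation ((N : ℤ) : ℂ)
            ≤ 1 * V.valuation ((N : ℤ) : ℂ) := by gcongr
          _ < 1 := by rw [one_mul]; exact hval
    rw [huv] at h1
    simp at h1
  have hNl : (ℓ : ℝ) ≤ |(N : ℝ)| := by
    have h1 := Int.le_of_dvd (abs_pos.2 hNne) ((dvd_abs _ _).2 hdvd)
    have h2 : ((ℓ : ℤ) : ℝ) ≤ ((|N| : ℤ) : ℝ) := by exact_mod_cast h1
    rw [Int.cast_abs] at h2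
    exact_mod_cast h2
  -- the number of embeddings
  have hcard : Fintype.card (L →+* ℂ) = Module.finrank ℚ L := NumberField.Embeddings.card L ℂ
  set D := Module.finrank ℚ L with hD
  have hDpos : 0 < D := Module.finrank_pos
  have hDr : (0 : ℝ) < D := by exact_mod_cast hDpos
  -- the product of the squares
  have hpr : ∏ τ : L →+* ℂ, ‖τ δ‖ ^ 2 = |(N : ℝ)| ^ 2 := by
    rw [Finset.prod_pow, ← norm_prod, ← hprod, Complex.norm_intCast]
  have hge : (c ^ 2) ^ D ≤ ∏ τ : L →+* ℂ, ‖τ δ‖ ^ 2 := by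
    rw [hpr, ← pow_mul, mul_comm 2 D, pow_mul]
    exact pow_le_pow_left₀ (pow_nonneg hc _) (hcl.trans hNl) 2
  -- the inequality between the means
  have ham := Real.geom_mean_le_arith_mean_weighted Finset.univ (fun _ : L →+* ℂ => (1 : ℝ) / D)
    (fun τ => ‖τ δ‖ ^ 2) (fun _ _ => by positivity)
    (by rw [Finset.sum_const, Finset.card_univ, hcard, nsmul_eq_mul]; field_simp)
    (fun _ _ => by positivity)
  rw [Real.finsetProd_rpow _ _ (fun _ _ => by positivity), ← Finset.mul_sum] at ham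
  have h3 : c ^ 2 ≤ (∏ τ : L →+* ℂ, ‖τ δ‖ ^ 2) ^ ((1 : ℝ) / D) := by
    have h4 : ((c ^ 2) ^ D) ^ ((1 : ℝ) / D) = c ^ 2 := by
      rw [← Real.rpow_natCast, ← Real.rpow_mul (by positivity)]
      rw [mul_one_div_cancel hDr.ne', Real.rpow_one]
    rw [← h4]
    exact Real.rpow_le_rpow (by positivity) hge (by positivity)
  have h5 := h3.trans ham
  rw [one_div, inv_mul_eq_div, le_div_iff₀ hDr] at h5
  linarith

end Pool.Agent.OneP74
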