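import Mathlib

/-!
# The number of algebraic integers with bounded conjugates

Let `K` be a number field of degree `d` and `H ≥ 1` an integer.  There are at most
`d * (2 * (2 * H) ^ d + 1) ^ (d + 1)` integers `x` of `K` with `|σ x| ≤ H` for all `σ : K → ℂ`.

Proof.  Finiteness: `NumberField.Embeddings.finite_of_norm_le` (preimage under the injective map
`𝓞 K → K`).  Number: let `q = minpoly ℤ x` (for `x : K` integral).  Its degree is at most `d` (it is
the degree of `minpoly ℚ x`, `minpoly.isIntegrallyClosed_eq_field_fractions'`, and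
`minpoly.natDegree_le`) and each coefficient has absolute value at most
`max H 1 ^ d * d.choose (d / 2) ≤ H ^ d * 2 ^ d = (2 * H) ^ d`
(`NumberField.Embeddings.coeff_bdd_of_norm_le`, for `minpoly ℚ x`, whose coefficients are the
casts of those of `q`).  Map `x` to the vector of the coefficients with index `0, ..., d`, an
element of `(Finset.Icc (-(2 * H) ^ d) ((2 * H) ^ d)) ^ (d + 1)` (`Fin (d + 1) → ℤ`,
`Fintype.piFinset`, of cardinality `(2 * (2 * H) ^ d + 1) ^ (d + 1)`).  This vector determines `q`
(degree `≤ d`), and `x` is one of the at most `d` roots of `q` in `K`, so every fibre has at most `d`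
elements (`Finset.card_le_mul_card_image` with image contained in the `piFinset`).
-/

set_option autoImplicit false

noncomputable section

namespace Pool.Agent.OneP74

open NumberField

/-- degree of the minimal polynomial over `ℤ` -/
theorem CntA_deg (K : Type) [Field K] [NumberField K] (x : 𝓞 K) :
    (minpoly ℤ (x : K)).natDegree ≤ Module.finrank ℚ K := by
  have hx : IsIntegral ℤ (x : K) := x.isIntegral_coe
  have h := minpoly.isIntegrallyClosed_eq_field_fractions' ℚ hx
  rw [← (minpoly.monic hx).natDegree_map (algebraMap ℤ ℚ), ← h]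
  exact minpoly.natDegree_le (x : K)

theorem CntA_coeff (K : Type) [Field K] [NumberField K] (H : ℕ) (hH : 1 ≤ H) (x : 𝓞 K)
    (hx' : ∀ σ : K →+* ℂ, ‖σ (x : K)‖ ≤ (H : ℝ)) (i : ℕ) :
    |(minpoly ℤ (x : K)).coeff i| ≤ (((2 * H) ^ Module.finrank ℚ K : ℕ) : ℤ) := by
  have hx : IsIntegral ℤ (x : K) := x.isIntegral_coe
  have h := minpoly.isIntegrallyClosed_eq_field_fractions' ℚ hx
  have h1 := Embeddings.coeff_bdd_of_norm_le hx' i
  rw [h, Polynomial.coeff_map, eq_intCast, Int.norm_cast_rat, Int.norm_eq_abs] at h1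
  have h2 : max (H : ℝ) 1 = H := max_eq_left (by exact_mod_cast hH)
  rw [h2] at h1
  have h3 : (((Module.finrank ℚ K).choose (Module.finrank ℚ K / 2) : ℕ) : ℝ) ≤
      2 ^ Module.finrank ℚ K := by
    exact_mod_cast Nat.choose_le_two_pow _ _
  have h4 : |((minpoly ℤ (x : K)).coeff i : ℝ)| ≤ (2 * H : ℝ) ^ Module.finrank ℚ K := by
    refine h1.trans ?_
    rw [mul_pow, mul_comm]
    gcongr
  rw [← Int.cast_abs] at h4
  exact_mod_cast h4

theorem card_bounded (K : Type) [Field K] [NumberField K] (H : ℕ) (hH : 1 ≤ H) :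
    {x : 𝓞 K | ∀ σ : K →+* ℂ, ‖σ (x : K)‖ ≤ (H : ℝ)}.Finite ∧
      {x : 𝓞 K | ∀ σ : K →+* ℂ, ‖σ (x : K)‖ ≤ (H : ℝ)}.ncard ≤
        Module.finrank ℚ K * (2 * (2 * H) ^ Module.finrank ℚ K + 1) ^ (Module.finrank ℚ K + 1) := by
  classical
  set d := Module.finrank ℚ K with hd
  have hfin : {x : 𝓞 K | ∀ σ : K →+* ℂ, ‖σ (x : K)‖ ≤ (H : ℝ)}.Finite := by
    refine Set.Finite.subset ((Embeddings.finite_of_norm_le K ℂ (H : ℝ)).preimage
      (f := fun x : 𝓞 K => (x : K)) RingOfIntegers.coe_injective.injOn) ?_
    intro x hx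
    exact ⟨x.isIntegral_coe, hx⟩
  refine ⟨hfin, ?_⟩
  rw [Set.ncard_eq_toFinset_card _ hfin]
  let f : 𝓞 K → (Fin (d + 1) → ℤ) := fun x i => (minpoly ℤ (x : K)).coeff i
  let t : Finset (Fin (d + 1) → ℤ) :=
    Fintype.piFinset fun _ => Finset.Icc (-(((2 * H) ^ d : ℕ) : ℤ)) (((2 * H) ^ d : ℕ) : ℤ)
  have ht : t.card = (2 * (2 * H) ^ d + 1) ^ (d + 1) := by
    show (Fintype.piFinset _).card = _
    rw [Fintype.card_piFinset_const, Int.card_Icc]
    congr 1
    omega
  rw [← ht]
  refine Finset.card_le_mul_card_image_of_maps_to (f := f) ?_ d ?_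
  · intro x hx
    rw [Set.Finite.mem_toFinset] at hx
    rw [Fintype.mem_piFinset]
    intro i
    rw [Finset.mem_Icc, ← abs_le]
    exact CntA_coeff K H hH x hx i
  · intro c _
    rcases Finset.eq_empty_or_nonempty (Finset.filter (fun x => f x = c) hfin.toFinset) with h | h
    · rw [h]
      exact Nat.zero_le _
    · obtain ⟨x₀, hx₀⟩ := h
      rw [Finset.mem_filter] at hx₀
      set q := minpoly ℤ (x₀ : K) with hq
      have hq0 : q.map (algebraMap ℤ K) ≠ 0 := by
        have h1 : q.Monic := minpoly.monic x₀.isIntegral_coe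
        exact (h1.map _).ne_zero
      have h1 : (Finset.filter (fun x => f x = c) hfin.toFinset).card ≤
          (q.map (algebraMap ℤ K)).roots.toFinset.card := by
        refine Finset.card_le_card_of_injOn (fun x : 𝓞 K => (x : K)) ?_
          RingOfIntegers.coe_injective.injOn
        intro x hx
        rw [Finset.coe_filter] at hx
        have h2 : minpoly ℤ (x : K) = q := by
          ext i
          by_cases hi : i < d + 1
          · have h3 := congrFun (hx.2.trans hx₀.2.symm) ⟨i, hi⟩
            exact h3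
          · rw [Polynomial.coeff_eq_zero_of_natDegree_lt, Polynomial.coeff_eq_zero_of_natDegree_lt]
            · have h4 := CntA_deg K x₀
              rw [← hq] at h4
              omega
            · have h4 := CntA_deg K x
              omega
        rw [Finset.mem_coe, Multiset.mem_toFinset, Polynomial.mem_roots hq0,
          Polynomial.IsRoot.def, Polynomial.eval_map_algebraMap, ← h2]
        exact minpoly.aeval ℤ (x : K)
      refine h1.trans ((Multiset.toFinset_card_le _).trans ((Polynomial.card_roots' _).trans ?_))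
      exact (Polynomial.natDegree_map_le).trans (CntA_deg K x₀)

end Pool.Agent.OneP74
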