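import Pool.Agent.W_7742e_h15.Spn

/-!
# Counting the elements of a finite group by traces

`ρ : G → M_n(κ)` is a representation over a field, `U` the normal subgroup of the `g` with
`tr ρ(g h) = tr ρ(h)` for all `h`, and `G / U` is finite.  Suppose that `tr ρ(g) ∈ W` for all `g`
whose class is not in `B`, where `2 n² |B| ≤ |G / U|`.  Then `|G / U| ≤ 2 |W| ^ (n²)`.

Proof.  `Pool.Agent.GalSide.exists_test` gives `h 0, ..., h (m-1)`, `m ≤ n²`, such that
`tr ρ(g h j) = tr ρ(g' h j)` for all `j` implies `tr ρ(g x) = tr ρ(g' x)` for all `x`.  Let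
`A` be the set of the classes `x ∈ G / U` with `x * mk (h j) ∉ B` for all `j`; the complement is
the union of the `m` sets `{x | x * mk (h j) ∈ B}` of cardinality `|B|` (right multiplication is
injective), so `|A| ≥ |G / U| - m |B| ≥ |G / U| - n² |B| ≥ |G / U| / 2`.  Map `x ∈ A`,
`x = mk g` (`Quotient.out`), to the vector `j ↦ tr ρ(g h j) ∈ W` (`Fin m → W`, there are
`|W| ^ m ≤ |W| ^ (n²)` of them, as `W` is nonempty).  The map is injective: if the vectors of `g`
and `g'` agree then `tr ρ(g x) = tr ρ(g' x)` for all `x`, hence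
`tr ρ((g'⁻¹ g) x) = tr ρ(g'⁻¹ (g x)) = tr ρ((g x) g'⁻¹) = tr ρ(g (x g'⁻¹)) = tr ρ(g' (x g'⁻¹)) =
tr ρ(x)` (`Matrix.trace_mul_comm`), i.e. `g'⁻¹ g ∈ U`, so `mk g = mk g'`.
-/

set_option autoImplicit false

noncomputable section

namespace Pool.Agent.OneP74

theorem card_quot_le {G κ : Type} [Group G] [Field κ] {n : ℕ}
    (ρ : G →* Matrix (Fin n) (Fin n) κ) (U : Subgroup G) [U.Normal] [Finite (G ⧸ U)]
    (hU : ∀ g, g ∈ U ↔ ∀ h, (ρ (g * h)).trace = (ρ h).trace) (W : Finset κ) (hW : W.Nonempty)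
    (B : Set (G ⧸ U)) (hB : ∀ g : G, (QuotientGroup.mk g : G ⧸ U) ∉ B → (ρ g).trace ∈ W)
    (hc : 2 * n ^ 2 * Nat.card B ≤ Nat.card (G ⧸ U)) :
    Nat.card (G ⧸ U) ≤ 2 * W.card ^ n ^ 2 := by
  classical
  obtain ⟨m, h, hm, htest⟩ := Pool.Agent.GalSide.exists_test ρ
  have : Fintype (G ⧸ U) := Fintype.ofFinite _
  obtain ⟨A, hA⟩ : ∃ A : Finset (G ⧸ U), A = Finset.univ.filter
      (fun x => ∀ j, x * (QuotientGroup.mk (h j) : G ⧸ U) ∉ B) := ⟨_, rfl⟩
  have hBc : Nat.card B = B.toFinset.card := by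
    rw [Nat.card_eq_fintype_card, Set.toFinset_card]
  have hcompl : (Finset.univ.filter
      (fun x : G ⧸ U => ¬ ∀ j, x * (QuotientGroup.mk (h j) : G ⧸ U) ∉ B)).card ≤ m * Nat.card B := by
    have h1 : Finset.univ.filter
        (fun x : G ⧸ U => ¬ ∀ j, x * (QuotientGroup.mk (h j) : G ⧸ U) ∉ B) ⊆
        Finset.univ.biUnion (fun j : Fin m => Finset.univ.filter
          (fun x : G ⧸ U => x * (QuotientGroup.mk (h j) : G ⧸ U) ∈ B)) := by
      intro x hx
      have h2 := (Finset.mem_filter.1 hx).2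
      push Not at h2
      obtain ⟨j, hj⟩ := h2
      exact Finset.mem_biUnion.2 ⟨j, Finset.mem_univ _, Finset.mem_filter.2 ⟨Finset.mem_univ _, hj⟩⟩
    refine (Finset.card_le_card h1).trans (Finset.card_biUnion_le.trans ?_)
    have h3 : ∀ j ∈ (Finset.univ : Finset (Fin m)), (Finset.univ.filter
        (fun x : G ⧸ U => x * (QuotientGroup.mk (h j) : G ⧸ U) ∈ B)).card ≤ Nat.card B := by
      intro j _
      rw [hBc]
      refine Finset.card_le_card_of_injOn (fun x => x * (QuotientGroup.mk (h j) : G ⧸ U))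
        (fun x hx => ?_) (fun x _ y _ hxy => mul_right_cancel hxy)
      rw [Finset.mem_coe] at hx ⊢
      exact Set.mem_toFinset.2 (Finset.mem_filter.1 hx).2
    refine (Finset.sum_le_sum h3).trans (le_of_eq ?_)
    rw [Finset.sum_const, Finset.card_univ, Fintype.card_fin, smul_eq_mul]
  have hsplit : A.card + (Finset.univ.filter
      (fun x : G ⧸ U => ¬ ∀ j, x * (QuotientGroup.mk (h j) : G ⧸ U) ∉ B)).card =
      Nat.card (G ⧸ U) := by
    rw [hA, Finset.card_filter_add_card_filter_not, Finset.card_univ, Nat.card_eq_fintype_card]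
  have hAW : A.card ≤ W.card ^ m := by
    have h4 : (Fintype.piFinset fun _ : Fin m => W).card = W.card ^ m := by
      rw [Fintype.card_piFinset, Finset.prod_const, Finset.card_univ, Fintype.card_fin]
    rw [← h4]
    refine Finset.card_le_card_of_injOn
      (fun x => fun j => (ρ (Quotient.out x * h j)).trace) (fun x hx => ?_) (fun x _ y _ hxy => ?_)
    · rw [Finset.mem_coe] at hx ⊢
      refine Fintype.mem_piFinset.2 fun j => hB _ ?_
      rw [hA] at hx
      have h5 := (Finset.mem_filter.1 hx).2 j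
      rw [QuotientGroup.mk_mul, QuotientGroup.out_eq']
      exact h5
    · have h6 : ∀ j, (ρ (Quotient.out x * h j)).trace = (ρ (Quotient.out y * h j)).trace :=
        fun j => congrFun hxy j
      have h7 := htest _ _ h6
      have h8 : (Quotient.out y)⁻¹ * Quotient.out x ∈ U := by
        rw [hU]
        intro z
        have c1 : ∀ a b : G, (ρ (a * b)).trace = (ρ (b * a)).trace := by
          intro a b
          rw [map_mul, map_mul, Matrix.trace_mul_comm]
        calc (ρ ((Quotient.out y)⁻¹ * Quotient.out x * z)).trace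
            = (ρ ((Quotient.out y)⁻¹ * (Quotient.out x * z))).trace := by rw [mul_assoc]
          _ = (ρ ((Quotient.out x * z) * (Quotient.out y)⁻¹)).trace := c1 _ _
          _ = (ρ (Quotient.out x * (z * (Quotient.out y)⁻¹))).trace := by rw [mul_assoc]
          _ = (ρ (Quotient.out y * (z * (Quotient.out y)⁻¹))).trace := h7 _
          _ = (ρ ((z * (Quotient.out y)⁻¹) * Quotient.out y)).trace := c1 _ _
          _ = (ρ z).trace := by rw [inv_mul_cancel_right]
      have h9 : (QuotientGroup.mk (Quotient.out y) : G ⧸ U) = QuotientGroup.mk (Quotient.out x) :=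
        QuotientGroup.eq.2 h8
      rw [QuotientGroup.out_eq', QuotientGroup.out_eq'] at h9
      exact h9.symm
  have hW1 : 1 ≤ W.card := Finset.card_pos.2 hW
  have h10 : W.card ^ m ≤ W.card ^ n ^ 2 := Nat.pow_le_pow_right hW1 hm
  have h11 : 2 * (m * Nat.card B) ≤ 2 * n ^ 2 * Nat.card B := by
    rw [← mul_assoc]
    exact Nat.mul_le_mul_right _ (Nat.mul_le_mul_left _ hm)
  have h12 : Nat.card (G ⧸ U) ≤ 2 * A.card := by omega
  calc Nat.card (G ⧸ U) ≤ 2 * A.card := h12
    _ ≤ 2 * W.card ^ n ^ 2 := Nat.mul_le_mul_left _ (hAW.trans h10)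

end Pool.Agent.OneP74
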