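import Pool.Agent.W_7742e_h15.Chb

/-!
# The primes with a large conjugate are rare

Let `b : primes → 𝓞 K` satisfy `∑_p |σ (b p)|² p ^ (-s) ≤ (1 + ε) log (1 / (s - 1))` near `1` for all
embeddings `σ` and all `ε > 0`, and let `n ≥ 1`, `d = [K : ℚ]`.  The primes such that
`|σ (b p)| > 2 n d` for some `σ` have upper Dirichlet density at most `3 / (8 n²)`.

Proof.  See `Pool.Agent.GalSide.exists_finite_values` (`W_7742e_h15/Lrg.lean`).  For such `p`,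
`∑_σ |σ (b p)|² ≥ (2 n d)² = 4 n² d²`, so `primeSum {…} s ≤ (4 n² d²)⁻¹ ∑_σ ∑_p |σ (b p)|² p ^ (-s)
≤ (4 n² d²)⁻¹ d (3/2) log (1 / (s - 1)) ≤ (3 / (8 n²)) log (1 / (s - 1))`, as `d ≥ 1` (there are `d`
embeddings: `NumberField.Embeddings.card K ℂ`; `ε = 1/2`).
-/

set_option autoImplicit false

noncomputable section

open Filter Topology NumberField

namespace Pool.Agent.OneP74

open Pool.Agent.GalSide

theorem primeSum_large {K : Type} [Field K] [NumberField K] (b : Nat.Primes → 𝓞 K)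
    (hRS : ∀ σ : K →+* ℂ, ∀ ε : ℝ, 0 < ε → LogBound (1 + ε) (fun p => ‖σ (b p : K)‖ ^ 2))
    {n : ℕ} (hn : 0 < n) : ∀ᶠ s : ℝ in 𝓝[>] 1,
      primeSum {p | ¬ ∀ σ : K →+* ℂ, ‖σ (b p : K)‖ ≤ ((2 * n * Module.finrank ℚ K : ℕ) : ℝ)} s ≤
        3 / (8 * (n : ℝ) ^ 2) * Real.log (1 / (s - 1)) := by
  classical
  obtain ⟨d, hd⟩ : ∃ d : ℕ, d = Module.finrank ℚ K := ⟨_, rfl⟩
  have hd1 : 0 < d := by
    rw [hd]
    exact Module.finrank_pos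
  obtain ⟨T, hT⟩ : ∃ T : ℝ, T = ((2 * n * Module.finrank ℚ K : ℕ) : ℝ) := ⟨_, rfl⟩
  have hT' : T = 2 * (n : ℝ) * (d : ℝ) := by
    rw [hT, ← hd]
    push_cast
    ring
  have hn1 : (1 : ℝ) ≤ (n : ℝ) := by exact_mod_cast hn
  have hd1' : (1 : ℝ) ≤ (d : ℝ) := by exact_mod_cast hd1
  have hTp : 0 < T := by
    rw [hT']
    positivity
  rw [← hT]
  have hall : ∀ᶠ s : ℝ in 𝓝[>] 1, ∀ σ : K →+* ℂ,
      Summable (fun p : Nat.Primes => ‖σ (b p : K)‖ ^ 2 * ((p : ℕ) : ℝ) ^ (-s)) ∧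
        ∑' p : Nat.Primes, ‖σ (b p : K)‖ ^ 2 * ((p : ℕ) : ℝ) ^ (-s) ≤
          (1 + 1 / 2) * Real.log (1 / (s - 1)) :=
    eventually_all.2 fun σ => hRS σ (1 / 2) (by norm_num)
  have hgt : ∀ᶠ s : ℝ in 𝓝[>] 1, 1 < s := eventually_mem_nhdsWithin
  have hlt : ∀ᶠ s : ℝ in 𝓝[>] 1, s < 2 :=
    (eventually_lt_nhds (by norm_num : (1 : ℝ) < 2)).filter_mono nhdsWithin_le_nhds
  filter_upwards [hall, hgt, hlt] with s hs h1 h2
  have hlog : 0 ≤ Real.log (1 / (s - 1)) := by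
    refine Real.log_nonneg ?_
    rw [le_div_iff₀ (by linarith)]
    linarith
  have hpow : ∀ p : Nat.Primes, 0 ≤ ((p : ℕ) : ℝ) ^ (-s) := fun p =>
    Real.rpow_nonneg (Nat.cast_nonneg _) _
  have hsumm : Summable (fun p : Nat.Primes => ∑ σ : K →+* ℂ,
      ‖σ (b p : K)‖ ^ 2 * ((p : ℕ) : ℝ) ^ (-s)) := summable_sum fun σ _ => (hs σ).1
  obtain ⟨S, hS⟩ : ∃ S : Set Nat.Primes, S = {p | ¬ ∀ σ : K →+* ℂ, ‖σ (b p : K)‖ ≤ T} :=
    ⟨_, rfl⟩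
  rw [← hS]
  have hterm : ∀ p : Nat.Primes, S.indicator
      (fun q : Nat.Primes => ((q : ℕ) : ℝ) ^ (-s)) p ≤
        (T ^ 2)⁻¹ * ∑ σ : K →+* ℂ, ‖σ (b p : K)‖ ^ 2 * ((p : ℕ) : ℝ) ^ (-s) := by
    intro p
    have hnn : ∀ σ : K →+* ℂ, 0 ≤ ‖σ (b p : K)‖ ^ 2 * ((p : ℕ) : ℝ) ^ (-s) := fun σ =>
      mul_nonneg (sq_nonneg _) (hpow p)
    by_cases hp : p ∈ S
    · rw [Set.indicator_of_mem hp]
      have h3 : ¬ ∀ σ : K →+* ℂ, ‖σ (b p : K)‖ ≤ T := by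
        rw [hS] at hp
        exact hp
      push Not at h3
      obtain ⟨σ, hσ⟩ := h3
      have h5 : T ^ 2 * ((p : ℕ) : ℝ) ^ (-s) ≤
          ∑ σ : K →+* ℂ, ‖σ (b p : K)‖ ^ 2 * ((p : ℕ) : ℝ) ^ (-s) := by
        refine le_trans ?_ (Finset.single_le_sum (fun σ _ => hnn σ) (Finset.mem_univ σ))
        exact mul_le_mul_of_nonneg_right (pow_le_pow_left₀ hTp.le hσ.le 2) (hpow p)
      rw [inv_mul_eq_div, le_div_iff₀ (by positivity)]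
      linarith
    · rw [Set.indicator_of_notMem hp]
      exact mul_nonneg (by positivity) (Finset.sum_nonneg fun σ _ => hnn σ)
  have hterm0 : ∀ p : Nat.Primes, 0 ≤ S.indicator
      (fun q : Nat.Primes => ((q : ℕ) : ℝ) ^ (-s)) p := fun p =>
    Set.indicator_nonneg (fun q _ => hpow q) p
  have hsumm' := hsumm.mul_left (T ^ 2)⁻¹
  have h6 : primeSum S s ≤
      ∑' p : Nat.Primes, (T ^ 2)⁻¹ * ∑ σ : K →+* ℂ, ‖σ (b p : K)‖ ^ 2 * ((p : ℕ) : ℝ) ^ (-s) :=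
    (Summable.of_nonneg_of_le hterm0 hterm hsumm').tsum_le_tsum hterm hsumm'
  refine h6.trans ?_
  rw [tsum_mul_left, Summable.tsum_finsetSum fun σ _ => (hs σ).1]
  have h7 : ∑ σ : K →+* ℂ, ∑' p : Nat.Primes, ‖σ (b p : K)‖ ^ 2 * ((p : ℕ) : ℝ) ^ (-s) ≤
      (d : ℝ) * ((1 + 1 / 2) * Real.log (1 / (s - 1))) := by
    refine (Finset.sum_le_sum fun σ _ => (hs σ).2).trans ?_
    rw [Finset.sum_const, Finset.card_univ, NumberField.Embeddings.card K ℂ, ← hd, nsmul_eq_mul]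
  calc (T ^ 2)⁻¹ * ∑ σ : K →+* ℂ, ∑' p : Nat.Primes, ‖σ (b p : K)‖ ^ 2 * ((p : ℕ) : ℝ) ^ (-s) ≤
        (T ^ 2)⁻¹ * ((d : ℝ) * ((1 + 1 / 2) * Real.log (1 / (s - 1)))) :=
        mul_le_mul_of_nonneg_left h7 (by positivity)
    _ = ((T ^ 2)⁻¹ * ((d : ℝ) * (1 + 1 / 2))) * Real.log (1 / (s - 1)) := by ring
    _ ≤ 3 / (8 * (n : ℝ) ^ 2) * Real.log (1 / (s - 1)) := by
        refine mul_le_mul_of_nonneg_right ?_ hlog
        have hn0 : (0 : ℝ) < n := by linarith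
        have hd0 : (0 : ℝ) < d := by linarith
        have e : (T ^ 2)⁻¹ * ((d : ℝ) * (1 + 1 / 2)) = 3 / (8 * (n : ℝ) ^ 2) / d := by
          rw [hT']
          field_simp
          ring
        rw [e]
        exact div_le_self (by positivity) hd1'

end Pool.Agent.OneP74
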