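import Mathlib

/-!
# Matrices all of whose powers have trace zero

This is `Pool.Agent.GalSide.isNilpotent_of_trace_pow` (file `W_7742e_h15/SS.lean`) with the
hypothesis `CharZero F` replaced by `k ≠ 0` in `F` for `0 < k ≤ N`: the characteristic zero is
used only at the end, where the trace of an idempotent `N × N` matrix `e` is the image in `F` of its
rank, a natural number `≤ N`; if the trace is zero then the rank is zero and `e = 0`.  Copy the proof.
-/

set_option autoImplicit false

noncomputable section

namespace Pool.Agent.OneP74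

theorem isNilpotent_of_trace_pow' {F : Type*} [Field F] {N : ℕ}
    (hF : ∀ k : ℕ, 0 < k → k ≤ N → (k : F) ≠ 0)
    (x : Matrix (Fin N) (Fin N) F) (h : ∀ k : ℕ, 1 ≤ k → (x ^ k).trace = 0) : IsNilpotent x := by
  classical
  have htr : ∀ p : Polynomial F, p.coeff 0 = 0 → Matrix.trace (Polynomial.aeval x p) = 0 := by
    intro p hp
    rw [Polynomial.aeval_eq_sum_range, Matrix.trace_sum]
    refine Finset.sum_eq_zero fun k _ => ?_
    rw [Matrix.trace_smul]
    rcases Nat.eq_zero_or_pos k with hk | hk
    · rw [hk, hp, zero_smul]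
    · rw [h k hk, smul_zero]
  have hne : minpoly F x ≠ 0 := minpoly.ne_zero (Algebra.IsIntegral.isIntegral x)
  obtain ⟨q, hq1, hq2⟩ :=
    Polynomial.exists_eq_pow_rootMultiplicity_mul_and_not_dvd (minpoly F x) hne 0
  rw [Polynomial.C_0, sub_zero] at hq1 hq2
  set j := (minpoly F x).rootMultiplicity 0
  have hcop : IsCoprime (Polynomial.X ^ (j + 1)) q :=
    ((Polynomial.irreducible_X.coprime_iff_not_dvd).2 hq2).pow_left
  obtain ⟨u, v, huv⟩ := hcop
  have h0 : Polynomial.aeval x (Polynomial.X ^ j * q) = 0 := by
    rw [← hq1, minpoly.aeval]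
  set e : Matrix (Fin N) (Fin N) F := Polynomial.aeval x (u * Polynomial.X ^ (j + 1)) with he
  have h1e : e + Polynomial.aeval x (v * q) = 1 := by
    rw [he, ← map_add, huv, map_one]
  have hemul : e * Polynomial.aeval x (v * q) = 0 := by
    have h2 : u * Polynomial.X ^ (j + 1) * (v * q) =
        (u * v * Polynomial.X) * (Polynomial.X ^ j * q) := by ring
    rw [he, ← map_mul, h2, map_mul, h0, mul_zero]
  have hidem : e * e = e := by
    have h3 : e * (e + Polynomial.aeval x (v * q)) = e := by rw [h1e, mul_one]
    rwa [mul_add, hemul, add_zero] at h3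
  have htre : Matrix.trace e = 0 := by
    rw [he]
    apply htr
    rw [pow_succ, ← mul_assoc, Polynomial.mul_coeff_zero, Polynomial.coeff_X_zero, mul_zero]
  have he0 : e = 0 := by
    have h4 : IsIdempotentElem (Matrix.toLin' e) := by
      unfold IsIdempotentElem
      rw [Module.End.mul_eq_comp, ← Matrix.toLin'_mul, hidem]
    have h5 := LinearMap.IsProj.trace (LinearMap.IsIdempotentElem.isProj_range _ h4)
    rw [Matrix.trace_toLin'_eq, htre] at h5
    have h6 : Module.finrank F (LinearMap.range (Matrix.toLin' e)) ≤ N := by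
      refine (Submodule.finrank_le _).trans ?_
      simp
    have h7 : Module.finrank F (LinearMap.range (Matrix.toLin' e)) = 0 := by
      by_contra h8
      exact hF _ (Nat.pos_of_ne_zero h8) h6 h5.symm
    rw [Submodule.finrank_eq_zero, LinearMap.range_eq_bot] at h7
    exact (LinearEquiv.map_eq_zero_iff _).1 h7
  rw [he0, zero_add] at h1e
  refine ⟨j, ?_⟩
  have h6 : x ^ j = Polynomial.aeval x ((Polynomial.X : Polynomial F) ^ j) := by
    rw [map_pow, Polynomial.aeval_X]
  have h7 : x ^ j * Polynomial.aeval x (v * q) = 0 := by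
    rw [h6, ← map_mul]
    have h8 : (Polynomial.X : Polynomial F) ^ j * (v * q) = v * (Polynomial.X ^ j * q) := by ring
    rw [h8, map_mul, h0, mul_zero]
  rwa [h1e, mul_one] at h7

end Pool.Agent.OneP74
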