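import Pool.Agent.W_7742e_h15.SS
import Pool.Agent.W_7742y_h74.Nil

/-!
# Semisimplification of a pair of representations

`ρ₁`, `ρ₂` are representations of dimensions `a`, `b` over a field in which `1, ..., a + b` are not
zero.  There are representations `ρ₁'`, `ρ₂'` of the same dimensions with the same traces such that
`ρ₁' g = 1`, `ρ₂' g = 1` whenever `tr ρ₁(g h) + tr ρ₂(g h) = tr ρ₁(h) + tr ρ₂(h)` for all `h`.

Proof (compare `Pool.Agent.GalSide.exists_semisimple`).  Let `ρ = ρ₁ ⊕ ρ₂` on the matrices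
`Fin (a + b)` (or `Fin a ⊕ Fin b` reindexed; `Matrix.fromBlocks (ρ₁ g) 0 0 (ρ₂ g)`), and let `J` be
the set of the `x` in the span `A` of the `ρ g` with `tr (x (ρ h)) = 0` for all `h`, so
`tr (x y) = 0` for all `y ∈ A`.  `A` is an algebra, `J` an ideal of it, and for `x ∈ J` the powers
`x ^ k`, `k ≥ 1`, have trace zero (`x ^ k = x * x ^ (k-1)`), so `x` is nilpotent
(`isNilpotent_of_trace_pow'`).  The elements of `A` are block diagonal; let `J₁` be the image of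
`J` in `End (F ^ a)` (first diagonal block; a linear map on block diagonal matrices which is
multiplicative on them), `J₂` the image in `End (F ^ b)`.  Then `J₁` satisfies the assumptions of
`Pool.Agent.GalSide.exists_aux a (Fin a → F)` for `ρ₁` (as `Module.End`): its elements are
nilpotent, `ρ₁ g * j ∈ J₁`, and they lie in the span of the `ρ₁ g`.  Apply `exists_aux` to both.
If `tr ρ₁(g h) + tr ρ₂(g h) = tr ρ₁(h) + tr ρ₂(h)` for all `h` then `ρ g - 1 ∈ J`, so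
`ρ₁ g - 1 ∈ J₁` and `ρ₂ g - 1 ∈ J₂`, and `exists_aux` gives `ρ₁' g = 1`, `ρ₂' g = 1`.

To avoid block matrices one may take `J = {(x₁, x₂)}`, a submodule of
`Module.End F (Fin a → F) × Module.End F (Fin b → F)`: the pairs in the span of the pairs
`(ρ₁ g, ρ₂ g)` with `tr (x₁ ρ₁ h) + tr (x₂ ρ₂ h) = 0` for all `h`; nilpotency of both components
follows from `isNilpotent_of_trace_pow'` for the block matrix `Matrix.fromBlocks x₁ 0 0 x₂`.
-/

set_option autoImplicit false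

noncomputable section

namespace Pool.Agent.OneP74

open Pool.Agent.GalSide

/-- The block diagonal matrix. -/
def SSp_bd {F : Type} [Field F] {a b : ℕ} (A : Matrix (Fin a) (Fin a) F)
    (B : Matrix (Fin b) (Fin b) F) : Matrix (Fin (a + b)) (Fin (a + b)) F :=
  Matrix.reindexAlgEquiv F F finSumFinEquiv (Matrix.fromBlocks A 0 0 B)

theorem SSp_bd_mul {F : Type} [Field F] {a b : ℕ} (A A' : Matrix (Fin a) (Fin a) F)
    (B B' : Matrix (Fin b) (Fin b) F) : SSp_bd A B * SSp_bd A' B' = SSp_bd (A * A') (B * B') := by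
  unfold SSp_bd
  rw [← map_mul, Matrix.fromBlocks_multiply]
  congr 2 <;> simp

theorem SSp_bd_pow {F : Type} [Field F] {a b : ℕ} (A : Matrix (Fin a) (Fin a) F)
    (B : Matrix (Fin b) (Fin b) F) (k : ℕ) : SSp_bd A B ^ k = SSp_bd (A ^ k) (B ^ k) := by
  induction k with
  | zero =>
    rw [pow_zero, pow_zero, pow_zero]
    unfold SSp_bd
    rw [Matrix.fromBlocks_one, map_one]
  | succ k ih => rw [pow_succ, ih, SSp_bd_mul, ← pow_succ, ← pow_succ]

theorem SSp_bd_trace {F : Type} [Field F] {a b : ℕ} (A : Matrix (Fin a) (Fin a) F)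
    (B : Matrix (Fin b) (Fin b) F) : (SSp_bd A B).trace = A.trace + B.trace := by
  unfold SSp_bd
  rw [← trace_fromBlocks' A 0 0 B, Matrix.coe_reindexAlgEquiv, Matrix.trace, Matrix.trace]
  refine Fintype.sum_equiv finSumFinEquiv.symm _ _ fun i => ?_
  simp

theorem SSp_bd_zero {F : Type} [Field F] {a b : ℕ} {A : Matrix (Fin a) (Fin a) F}
    {B : Matrix (Fin b) (Fin b) F} (h : SSp_bd A B = 0) : A = 0 ∧ B = 0 := by
  unfold SSp_bd at h
  have h1 := (EmbeddingLike.map_eq_zero_iff (f := Matrix.reindexAlgEquiv F F finSumFinEquiv)).1 h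
  rw [← Matrix.fromBlocks_zero, Matrix.fromBlocks_inj] at h1
  exact ⟨h1.1, h1.2.2.2⟩

theorem exists_pair_semisimple {G F : Type} [Group G] [Field F] {a b : ℕ}
    (hF : ∀ k : ℕ, 0 < k → k ≤ a + b → (k : F) ≠ 0)
    (ρ₁ : G →* Matrix (Fin a) (Fin a) F) (ρ₂ : G →* Matrix (Fin b) (Fin b) F) :
    ∃ (ρ₁' : G →* Matrix (Fin a) (Fin a) F) (ρ₂' : G →* Matrix (Fin b) (Fin b) F),
      (∀ g, (ρ₁' g).trace = (ρ₁ g).trace) ∧ (∀ g, (ρ₂' g).trace = (ρ₂ g).trace) ∧
      ∀ g, (∀ h, (ρ₁ (g * h)).trace + (ρ₂ (g * h)).trace = (ρ₁ h).trace + (ρ₂ h).trace) →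
        ρ₁' g = 1 ∧ ρ₂' g = 1 := by
  classical
  let T₁ : Matrix (Fin a) (Fin a) F ≃ₐ[F] Module.End F (Fin a → F) := Matrix.toLinAlgEquiv'
  let T₂ : Matrix (Fin b) (Fin b) F ≃ₐ[F] Module.End F (Fin b → F) := Matrix.toLinAlgEquiv'
  have hT₁ : ∀ x, LinearMap.trace F (Fin a → F) (T₁ x) = x.trace := fun x =>
    Matrix.trace_toLin'_eq x
  have hT₂ : ∀ x, LinearMap.trace F (Fin b → F) (T₂ x) = x.trace := fun x =>
    Matrix.trace_toLin'_eq x
  let r₁ : G →* Module.End F (Fin a → F) := T₁.toMonoidHom.comp ρ₁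
  let r₂ : G →* Module.End F (Fin b → F) := T₂.toMonoidHom.comp ρ₂
  have hr₁ : ∀ g, r₁ g = T₁ (ρ₁ g) := fun g => rfl
  have hr₂ : ∀ g, r₂ g = T₂ (ρ₂ g) := fun g => rfl
  let r : G →* Module.End F (Fin a → F) × Module.End F (Fin b → F) := r₁.prod r₂
  have hr : ∀ g, r g = (r₁ g, r₂ g) := fun g => rfl
  let tr : Module.End F (Fin a → F) × Module.End F (Fin b → F) →ₗ[F] F :=
    (LinearMap.trace F (Fin a → F)).coprod (LinearMap.trace F (Fin b → F))
  have htr : ∀ x, tr x = LinearMap.trace F (Fin a → F) x.1 + LinearMap.trace F (Fin b → F) x.2 :=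
    fun x => rfl
  have hcomm : ∀ x y, tr (x * y) = tr (y * x) := by
    intro x y
    rw [htr, htr, Prod.fst_mul, Prod.snd_mul, Prod.fst_mul, Prod.snd_mul,
      LinearMap.trace_mul_comm, LinearMap.trace_mul_comm F x.2]
  let S : Submodule F (Module.End F (Fin a → F) × Module.End F (Fin b → F)) :=
    Submodule.span F (Set.range r)
  have hSmul : ∀ {x y}, x ∈ S → y ∈ S → x * y ∈ S := by
    intro x y hx hy
    have h := Submodule.mul_mem_mul hx hy
    rw [Submodule.span_mul_span] at h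
    refine Submodule.span_mono ?_ h
    rintro _ ⟨_, ⟨g, rfl⟩, _, ⟨h, rfl⟩, rfl⟩
    exact ⟨g * h, map_mul r g h⟩
  have hS1 : 1 ∈ S := Submodule.subset_span ⟨1, map_one r⟩
  have hSg : ∀ g, r g ∈ S := fun g => Submodule.subset_span ⟨g, rfl⟩
  let J : Submodule F (Module.End F (Fin a → F) × Module.End F (Fin b → F)) :=
    { carrier := {x | x ∈ S ∧ ∀ h, tr (x * r h) = 0}
      add_mem' := by
        rintro x y ⟨hx, hx'⟩ ⟨hy, hy'⟩
        exact ⟨S.add_mem hx hy, fun h => by rw [add_mul, map_add, hx', hy', add_zero]⟩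
      zero_mem' := ⟨S.zero_mem, fun h => by rw [zero_mul, map_zero]⟩
      smul_mem' := by
        rintro c x ⟨hx, hx'⟩
        exact ⟨S.smul_mem _ hx, fun h => by rw [smul_mul_assoc, map_smul, hx', smul_zero]⟩ }
  have hJS : ∀ x ∈ J, ∀ y ∈ S, tr (x * y) = 0 := by
    rintro x ⟨_, hx⟩ y hy
    refine Submodule.span_induction (p := fun y _ => tr (x * y) = 0) ?_ ?_ ?_ ?_ hy
    · rintro _ ⟨g, rfl⟩
      exact hx g
    · rw [mul_zero, map_zero]
    · intro a b _ _ ha hb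
      rw [mul_add, map_add, ha, hb, add_zero]
    · intro c a _ ha
      rw [mul_smul_comm, map_smul, ha, smul_zero]
  have hJg : ∀ g, ∀ x ∈ J, r g * x ∈ J := by
    rintro g x ⟨hx, hx'⟩
    refine ⟨hSmul (hSg g) hx, fun h => ?_⟩
    rw [mul_assoc, hcomm, mul_assoc, ← map_mul]
    exact hx' _
  have hnil : ∀ x ∈ J, ∃ m : ℕ, x.1 ^ m = 0 ∧ x.2 ^ m = 0 := by
    intro x hx
    have hpow : ∀ k : ℕ, x ^ k ∈ S := by
      intro k
      induction k with
      | zero => rw [pow_zero]; exact hS1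
      | succ k ihk => rw [pow_succ]; exact hSmul ihk hx.1
    have h3 : IsNilpotent (SSp_bd (T₁.symm x.1) (T₂.symm x.2)) := by
      refine isNilpotent_of_trace_pow' hF _ fun k hk => ?_
      rw [SSp_bd_pow, SSp_bd_trace, ← hT₁, ← hT₂, map_pow T₁, map_pow T₂,
        AlgEquiv.apply_symm_apply, AlgEquiv.apply_symm_apply]
      obtain ⟨l, rfl⟩ := Nat.exists_eq_add_of_le' hk
      have h4 := hJS x hx _ (hpow l)
      rw [← pow_succ', htr] at h4
      exact h4
    obtain ⟨m, hm⟩ := h3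
    rw [SSp_bd_pow] at hm
    obtain ⟨h5, h6⟩ := SSp_bd_zero hm
    refine ⟨m, ?_, ?_⟩
    · rw [← map_pow] at h5
      exact (EmbeddingLike.map_eq_zero_iff (f := T₁.symm)).1 h5
    · rw [← map_pow] at h6
      exact (EmbeddingLike.map_eq_zero_iff (f := T₂.symm)).1 h6
  obtain ⟨ρ₁', h1, h2⟩ := exists_aux a (Fin a → F) (by simp) r₁
    (J.map (LinearMap.fst F _ _))
    (by
      rintro j ⟨x, hx, rfl⟩
      obtain ⟨m, hm, _⟩ := hnil x hx
      exact ⟨m, hm⟩)
    (by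
      rintro g j ⟨x, hx, rfl⟩
      exact ⟨r g * x, hJg g x hx, rfl⟩)
    (by
      rintro j ⟨x, hx, rfl⟩
      have h3 : LinearMap.fst F _ _ x ∈ S.map (LinearMap.fst F _ _) := ⟨x, hx.1, rfl⟩
      rw [Submodule.map_span] at h3
      refine Submodule.span_mono ?_ h3
      rintro _ ⟨_, ⟨g, rfl⟩, rfl⟩
      exact ⟨g, rfl⟩)
  obtain ⟨ρ₂', k1, k2⟩ := exists_aux b (Fin b → F) (by simp) r₂
    (J.map (LinearMap.snd F _ _))
    (by
      rintro j ⟨x, hx, rfl⟩
      obtain ⟨m, _, hm⟩ := hnil x hx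
      exact ⟨m, hm⟩)
    (by
      rintro g j ⟨x, hx, rfl⟩
      exact ⟨r g * x, hJg g x hx, rfl⟩)
    (by
      rintro j ⟨x, hx, rfl⟩
      have h3 : LinearMap.snd F _ _ x ∈ S.map (LinearMap.snd F _ _) := ⟨x, hx.1, rfl⟩
      rw [Submodule.map_span] at h3
      refine Submodule.span_mono ?_ h3
      rintro _ ⟨_, ⟨g, rfl⟩, rfl⟩
      exact ⟨g, rfl⟩)
  refine ⟨ρ₁', ρ₂', fun g => ?_, fun g => ?_, fun g hg => ?_⟩
  · rw [h1, hr₁, hT₁]
  · rw [k1, hr₂, hT₂]
  · have hmem : r g - 1 ∈ J := by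
      refine ⟨S.sub_mem (hSg g) hS1, fun h => ?_⟩
      rw [sub_mul, one_mul, map_sub, ← map_mul, htr, htr]
      show LinearMap.trace F (Fin a → F) (T₁ (ρ₁ (g * h))) +
        LinearMap.trace F (Fin b → F) (T₂ (ρ₂ (g * h))) -
        (LinearMap.trace F (Fin a → F) (T₁ (ρ₁ h)) + LinearMap.trace F (Fin b → F) (T₂ (ρ₂ h))) = 0
      rw [hT₁, hT₂, hT₁, hT₂, hg, sub_self]
    exact ⟨h2 g ⟨r g - 1, hmem, rfl⟩, k2 g ⟨r g - 1, hmem, rfl⟩⟩

end Pool.Agent.OneP74
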