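import Pool.Agent.W_7742y_h74.Bnd
import Pool.Agent.W_7742y_h74.CntA
import Pool.Agent.W_7742y_h74.CntB
import Pool.Agent.W_7742y_h74.SSp
import Pool.Agent.W_7742y_h74.Mark

/-!
# The bound for the image

`b`, `K` as in `primeSum_large`, `φ : 𝓞 K → κ` a ring homomorphism to a field in which
`1, ..., n = a₁ + a₂` are not zero, and `r₁`, `r₂` representations of `G` of dimensions `a₁`, `a₂` over
`κ` with open kernels such that `tr r₁(frob p) + tr r₂(frob p) = φ (b p)` outside a set of primes of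
density zero.  There are an open normal subgroup `U` of index at most `ord n d` and representations
`ρ₁`, `ρ₂` of `G / U` with the traces of `r₁`, `r₂`; `U` contains the intersection of the kernels.

Proof.  Let `T g = tr r₁(g) + tr r₂(g)` and `U = {g | T (g h) = T h for all h}`.  It is a normal
subgroup (`T (g h) = T (h g)`; if `g, g' ∈ U` then `T (g g' h) = T (g' h) = T h`;
`T (g⁻¹ h) = T (g (g⁻¹ h)) = T h`; `T (k g k⁻¹ h) = T (g k⁻¹ h k) = T (k⁻¹ h k) = T h`) and contains
the intersection of the kernels, which is open, so `U` is open (`Subgroup.isOpen_mono`) and of finite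
index (`G` compact).  `exists_pair_semisimple` gives `ρ₁'`, `ρ₂'` trivial on `U`, which factor through
`G / U` (`QuotientGroup.lift`, monoid version: for monoid homomorphisms to a monoid use
`QuotientGroup.lift U ρ (...)`, its target may be a monoid).

The bound: let `r` be the block diagonal representation of dimension `n` with trace `T`
(`Pool.Agent.GalSide.exists_sum`), `H = 2 n d`, `W` the image under `φ` of the finite set of
`card_bounded K H`; so `|W| ≤ cnt n d` (`2 * H = 4 * n * d`), `0 ∈ W`.  Let `B ⊆ G / U` be the set of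
the classes of the `g` with `T g ∉ W` (`T` is constant on the cosets of `U`: `T (g u) = T (u g) = T g`),
closed under conjugation.  If `frob p ∈ B` then `φ (b p) ≠ T (frob p)` or `b p` has a large conjugate,
so `p` lies in `X = {p | large} ∪ Z` where `Z` is the exceptional set of density zero, and
`primeSum X s ≤ (3 / (8 n²) + 1 / (8 n²)) L = 1 / (2 n²) L` near `1`
(`primeSum_large`, `Chb_union`, `HasDensity Z 0`).  `card_le_of_frob` with `E = ∅` and
`η = 1 / (2 n²)` gives `2 n² |B| ≤ |G / U|`, and `card_quot_le` gives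
`|G / U| ≤ 2 |W| ^ (n²) ≤ ord n d`.
-/

set_option autoImplicit false

noncomputable section

open Filter Topology NumberField

namespace Pool.Agent.OneP74

open Pool.Agent.GalSide

variable {G : Type} [Group G] [TopologicalSpace G] [IsTopologicalGroup G] [CompactSpace G]

theorem exists_quot (Φ : FrobeniusData G) {K : Type} [Field K] [NumberField K]
    (b : Nat.Primes → 𝓞 K)
    (hRS : ∀ σ : K →+* ℂ, ∀ ε : ℝ, 0 < ε → LogBound (1 + ε) (fun p => ‖σ (b p : K)‖ ^ 2))
    {κ : Type} [Field κ] (φ : 𝓞 K →+* κ) {n a₁ a₂ : ℕ} (hn : 0 < n) (hna : a₁ + a₂ = n)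
    (hκ : ∀ k : ℕ, 0 < k → k ≤ n → (k : κ) ≠ 0)
    (r₁ : G →* Matrix (Fin a₁) (Fin a₁) κ) (r₂ : G →* Matrix (Fin a₂) (Fin a₂) κ)
    (h₁ : IsOpen ({g | r₁ g = 1} : Set G)) (h₂ : IsOpen ({g | r₂ g = 1} : Set G))
    (hZ : HasDensity {p | (r₁ (Φ.frob p)).trace + (r₂ (Φ.frob p)).trace ≠ φ (b p)} 0) :
    ∃ (U : Subgroup G) (_ : U.Normal), IsOpen (U : Set G) ∧
      (∀ g, r₁ g = 1 → r₂ g = 1 → g ∈ U) ∧
      Nat.card (G ⧸ U) ≤ ord n (Module.finrank ℚ K) ∧
      ∃ (ρ₁ : G ⧸ U →* Matrix (Fin a₁) (Fin a₁) κ) (ρ₂ : G ⧸ U →* Matrix (Fin a₂) (Fin a₂) κ),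
        ∀ g, (ρ₁ (QuotientGroup.mk g)).trace = (r₁ g).trace ∧
          (ρ₂ (QuotientGroup.mk g)).trace = (r₂ g).trace := by
  classical
  obtain ⟨r, hrT, hr1⟩ := exists_sum hna r₁ r₂
  -- cyclic invariance of the trace
  have hcyc : ∀ g h : G, (r (g * h)).trace = (r (h * g)).trace := by
    intro g h
    rw [map_mul, map_mul, Matrix.trace_mul_comm]
  let U : Subgroup G :=
    { carrier := {g | ∀ h, (r (g * h)).trace = (r h).trace}
      one_mem' := fun h => by rw [one_mul]
      mul_mem' := by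
        intro g g' hg hg' h
        rw [mul_assoc, hg, hg']
      inv_mem' := by
        intro g hg h
        rw [← hg (g⁻¹ * h), mul_inv_cancel_left] }
  have hUm : ∀ g, g ∈ U ↔ ∀ h, (r (g * h)).trace = (r h).trace := fun g => Iff.rfl
  have hnorm : U.Normal := by
    refine ⟨fun g hg k h => ?_⟩
    have e1 : k * g * k⁻¹ * h = k * (g * (k⁻¹ * h)) := by group
    rw [e1, hcyc, mul_assoc, hg, mul_assoc, hcyc, mul_assoc, mul_inv_cancel, mul_one]
  have hker : ∀ g, r₁ g = 1 → r₂ g = 1 → g ∈ U := by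
    intro g h1 h2 h
    rw [map_mul, hr1 g h1 h2, one_mul]
  have hUo : IsOpen (U : Set G) := by
    refine U.isOpen_of_mem_nhds (g := 1) ?_
    refine Filter.mem_of_superset ((h₁.inter h₂).mem_nhds ⟨map_one r₁, map_one r₂⟩) ?_
    rintro g ⟨hg1, hg2⟩
    exact hker g hg1 hg2
  have hfin : Finite (G ⧸ U) := U.quotient_finite_of_isOpen hUo
  refine ⟨U, hnorm, hUo, hker, ?_, ?_⟩
  · -- the bound
    obtain ⟨hWf, hWc⟩ := card_bounded K (2 * n * Module.finrank ℚ K)
      (Nat.mul_pos (Nat.mul_pos two_pos hn) Module.finrank_pos)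
    set W0 : Set (𝓞 K) := {x : 𝓞 K | ∀ σ : K →+* ℂ, ‖σ (x : K)‖ ≤
      ((2 * n * Module.finrank ℚ K : ℕ) : ℝ)} with hW0
    let W : Finset κ := hWf.toFinset.image φ
    have hWm : ∀ x ∈ W0, φ x ∈ W := fun x hx =>
      Finset.mem_image_of_mem _ (hWf.mem_toFinset.2 hx)
    have hWcard : W.card ≤ cnt n (Module.finrank ℚ K) := by
      refine Finset.card_image_le.trans ?_
      rw [← Set.ncard_eq_toFinset_card W0 hWf]
      refine hWc.trans (le_of_eq ?_)
      rw [cnt]
      congr 5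
      ring
    have hWne : W.Nonempty := by
      refine ⟨φ 0, hWm 0 fun σ => ?_⟩
      have h0 : ((0 : 𝓞 K) : K) = 0 := rfl
      rw [h0, map_zero, norm_zero]
      exact Nat.cast_nonneg _
    have hTc : ∀ g u : G, u ∈ U → (r (g * u)).trace = (r g).trace := by
      intro g u hu
      rw [hcyc, hu]
    obtain ⟨B, hB⟩ : ∃ B : Set (G ⧸ U), B = {x | ∃ g : G, QuotientGroup.mk g = x ∧
      (r g).trace ∉ W} := ⟨_, rfl⟩
    have hBm : ∀ g : G, (QuotientGroup.mk g : G ⧸ U) ∈ B ↔ (r g).trace ∉ W := by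
      intro g
      rw [hB]
      constructor
      · rintro ⟨g', hg', h'⟩
        have h1 : g'⁻¹ * g ∈ U := QuotientGroup.eq.mp hg'
        have h2 := hTc g' _ h1
        rw [mul_inv_cancel_left] at h2
        rwa [h2]
      · intro h
        exact ⟨g, rfl, h⟩
    have hBc : ∀ x ∈ B, ∀ y, IsConj x y → y ∈ B := by
      intro x hx y hxy
      obtain ⟨c, rfl⟩ := isConj_iff.mp hxy
      obtain ⟨c, rfl⟩ := QuotientGroup.mk_surjective c
      obtain ⟨g, rfl⟩ := QuotientGroup.mk_surjective x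
      rw [hBm] at hx
      rw [← QuotientGroup.mk_inv, ← QuotientGroup.mk_mul, ← QuotientGroup.mk_mul, hBm, hcyc,
        inv_mul_cancel_left]
      exact hx
    have hn2 : (0 : ℝ) < (n : ℝ) ^ 2 := by positivity
    have hXs : ∀ᶠ s : ℝ in 𝓝[>] 1, primeSum ({p | ¬ ∀ σ : K →+* ℂ, ‖σ (b p : K)‖ ≤
        ((2 * n * Module.finrank ℚ K : ℕ) : ℝ)} ∪
        {p | (r₁ (Φ.frob p)).trace + (r₂ (Φ.frob p)).trace ≠ φ (b p)}) s ≤
        (1 / (2 * (n : ℝ) ^ 2)) * Real.log (1 / (s - 1)) := by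
      have hZ' : ∀ᶠ s : ℝ in 𝓝[>] 1, primeSum {p | (r₁ (Φ.frob p)).trace +
          (r₂ (Φ.frob p)).trace ≠ φ (b p)} s / Real.log (1 / (s - 1)) < 1 / (8 * (n : ℝ) ^ 2) :=
        (tendsto_order.1 hZ).2 _ (by positivity)
      filter_upwards [primeSum_large b hRS hn, hZ', Chb_gt, Chb_log.eventually_gt_atTop 0]
        with s h1 h2 hs hl
      rw [div_lt_iff₀ hl] at h2
      refine (Chb_union hs _ _).trans ?_
      have e : (1 / (2 * (n : ℝ) ^ 2)) * Real.log (1 / (s - 1)) =
          3 / (8 * (n : ℝ) ^ 2) * Real.log (1 / (s - 1)) +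
            1 / (8 * (n : ℝ) ^ 2) * Real.log (1 / (s - 1)) := by
        field_simp
        ring
      rw [e]
      exact add_le_add h1 h2.le
    have hcard := card_le_of_frob Φ U hUo B hBc _ ∅ Set.finite_empty _ hXs (fun p _ hp => by
      rw [hBm] at hp
      by_contra hcon
      rw [Set.mem_union, not_or, Set.mem_setOf_eq, Set.mem_setOf_eq, not_not, not_not] at hcon
      apply hp
      rw [hrT, hcon.2]
      exact hWm _ hcon.1)
    have hc : 2 * n ^ 2 * Nat.card B ≤ Nat.card (G ⧸ U) := by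
      have h1 : (2 * (n : ℝ) ^ 2) * (Nat.card B : ℝ) ≤ (Nat.card (G ⧸ U) : ℝ) := by
        calc (2 * (n : ℝ) ^ 2) * (Nat.card B : ℝ)
            ≤ (2 * (n : ℝ) ^ 2) * (1 / (2 * (n : ℝ) ^ 2) * (Nat.card (G ⧸ U) : ℝ)) :=
              mul_le_mul_of_nonneg_left hcard (by positivity)
          _ = (Nat.card (G ⧸ U) : ℝ) := by field_simp
      exact_mod_cast h1
    have hfinal := card_quot_le r U hUm W hWne B (fun g hg => by
      rw [hBm, not_not] at hg
      exact hg) hc
    refine hfinal.trans ?_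
    rw [ord]
    exact Nat.mul_le_mul_left _ (Nat.pow_le_pow_left hWcard _)
  · obtain ⟨ρ₁', ρ₂', h1, h2, h3⟩ := exists_pair_semisimple (a := a₁) (b := a₂)
      (fun k hk hk' => hκ k hk (by omega)) r₁ r₂
    have h4 : ∀ g ∈ U, ρ₁' g = 1 ∧ ρ₂' g = 1 := by
      intro g hg
      refine h3 g fun h => ?_
      rw [← hrT, ← hrT]
      exact hg h
    refine ⟨QuotientGroup.lift U ρ₁' fun g hg => (h4 g hg).1,
      QuotientGroup.lift U ρ₂' fun g hg => (h4 g hg).2, fun g => ⟨h1 g, h2 g⟩⟩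

end Pool.Agent.OneP74
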