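import Pool.Agent.W_7742y_h74.Defs

/-!
# A valuation ring of `ℂ` which induces a given prime of a number field

`s : K → ℂ` is an embedding of a number field and `φ : 𝓞 K → F` a ring homomorphism to a finite field.
There are a valuation ring `V` of `ℂ` containing the `s x`, `x ∈ 𝓞 K`, and an embedding
`ι : F → κ` into its residue field such that the residue class of `s x` is `ι (φ x)`.

Proof.  Let `A = s (𝓞 K)` (a subring of `ℂ`, isomorphic to `𝓞 K`) and `I` the ideal of the `s x` with
`φ x = 0`; it is not `⊤`, since `φ 1 = 1 ≠ 0` and `s` is injective.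
`Ideal.image_subset_nonunits_valuationSubring` gives `V ⊇ A` such that the elements of `I` are
nonunits of `V` (`V.valuation < 1`; see `Pool/Agent/W_MP_4ae68b_lc/Exist.lean`, `exists_val`, for an
example).  The residue field of `V` is algebraically closed: `isAlgClosed_resF` in the same file
(copy the proof, do not import).  The homomorphism `ψ : 𝓞 K → V → κ` (residue class of `s x`) kills
the kernel `𝔭` of `φ`.  `𝔭` is a maximal ideal (`𝓞 K ⧸ 𝔭` embeds in the finite field `F`, a finite
domain is a field; `Finite.isField_of_domain` or `Ideal.Quotient.maximal_of_isField`), let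
`k = 𝓞 K ⧸ 𝔭`; `F` is a finite, so algebraic, extension of `k` (by `Ideal.Quotient.lift 𝔭 φ`) and `κ`
is an algebraically closed `k`-algebra (by `Ideal.Quotient.lift 𝔭 ψ`).  Take `ι = IsAlgClosed.lift`,
a `k`-algebra homomorphism `F → κ`: for `x ∈ 𝓞 K`, `ι (φ x)` is the image of the class of `x`, i.e.
`ψ x`.
-/

set_option autoImplicit false

noncomputable section

namespace Pool.Agent.OneP74

open NumberField

theorem Val_isAlgClosed (V : ValuationSubring ℂ) : IsAlgClosed (Res V) := by
  apply IsAlgClosed.of_exists_root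
  intro p hp hirr
  obtain ⟨q, hq1, hq2, hq3⟩ := Polynomial.lifts_and_natDegree_eq_and_monic
    (f := IsLocalRing.residue V) (p := p) (by
      rw [Polynomial.lifts_iff_coeff_lifts]
      intro n
      obtain ⟨x, hx⟩ := IsLocalRing.residue_surjective (R := V) (p.coeff n)
      exact ⟨x, hx⟩) hp
  have hdeg : 0 < p.natDegree := hirr.natDegree_pos
  have hqd : (q.map (algebraMap V ℂ)).degree ≠ 0 := by
    rw [hq3.degree_map, Polynomial.degree_eq_natDegree hq3.ne_zero, hq2]
    exact_mod_cast hdeg.ne'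
  obtain ⟨x, hx⟩ := IsAlgClosed.exists_root _ hqd
  have hint : IsIntegral V x := ⟨q, hq3, by rw [← Polynomial.eval_map]; exact hx⟩
  obtain ⟨y, rfl⟩ := IsIntegrallyClosed.isIntegral_iff.mp hint
  refine ⟨IsLocalRing.residue V y, ?_⟩
  rw [← hq1, Polynomial.eval_map, Polynomial.eval₂_at_apply]
  have h1 : algebraMap V ℂ (q.eval y) = 0 := by
    rw [Polynomial.IsRoot.def, Polynomial.eval_map, Polynomial.eval₂_at_apply] at hx
    exact hx
  have h2 : q.eval y = 0 := by
    apply (injective_iff_map_eq_zero (algebraMap V ℂ)).mp (IsFractionRing.injective V ℂ)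
    exact h1
  rw [h2, map_zero]

theorem exists_val {K F : Type} [Field K] [NumberField K] [Field F] [Finite F] (s : K →+* ℂ)
    (φ : 𝓞 K →+* F) : ∃ (V : ValuationSubring ℂ) (ι : F →+* Res V),
      ∀ x : 𝓞 K, Red V (s (x : K)) (ι (φ x)) := by
  let σ : 𝓞 K →+* ℂ := s.comp (algebraMap (𝓞 K) K)
  have hσ : Function.Injective σ :=
    s.injective.comp (FaithfulSMul.algebraMap_injective (𝓞 K) K)
  have hsurj : Function.Surjective σ.rangeRestrict := σ.rangeRestrict_surjective
  let I : Ideal σ.range := (RingHom.ker φ).map σ.rangeRestrict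
  have hI : I ≠ ⊤ := by
    intro h
    rw [Ideal.eq_top_iff_one] at h
    obtain ⟨x, hx, h1⟩ := (Ideal.mem_map_iff_of_surjective _ hsurj).1 h
    have h2 : σ x = σ 1 := by
      rw [map_one]
      exact congrArg Subtype.val h1
    have h3 : x = 1 := hσ h2
    rw [h3, RingHom.mem_ker, map_one] at hx
    exact one_ne_zero hx
  obtain ⟨V, hV1, hV2⟩ := Ideal.image_subset_nonunits_valuationSubring I hI
  have hV : ∀ x : 𝓞 K, σ x ∈ V := fun x => hV1 ⟨x, rfl⟩
  let ψ : 𝓞 K →+* Res V := (IsLocalRing.residue V).comp (σ.codRestrict V hV)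
  have hψ : ∀ x ∈ RingHom.ker φ, ψ x = 0 := by
    intro x hx
    have h1 : σ x ∈ V.nonunits :=
      hV2 ⟨σ.rangeRestrict x, Ideal.mem_map_of_mem _ hx, rfl⟩
    rw [V.mem_nonunits_iff] at h1
    exact (IsLocalRing.residue_eq_zero_iff _).2 ((V.valuation_lt_one_iff ⟨σ x, hV x⟩).2 h1)
  have hprime : (RingHom.ker φ).IsPrime := RingHom.ker_isPrime φ
  have hfin : Finite (𝓞 K ⧸ RingHom.ker φ) :=
    Finite.of_injective (RingHom.kerLift φ) (RingHom.kerLift_injective φ)
  have hfield : IsField (𝓞 K ⧸ RingHom.ker φ) := Finite.isField_of_domain _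
  have hmax : (RingHom.ker φ).IsMaximal := Ideal.Quotient.maximal_of_isField _ hfield
  let _ : Field (𝓞 K ⧸ RingHom.ker φ) := Ideal.Quotient.field (RingHom.ker φ)
  let a1 : Algebra (𝓞 K ⧸ RingHom.ker φ) F := (RingHom.kerLift φ).toAlgebra
  let a2 : Algebra (𝓞 K ⧸ RingHom.ker φ) (Res V) :=
    (Ideal.Quotient.lift (RingHom.ker φ) ψ hψ).toAlgebra
  have hac : IsAlgClosed (Res V) := Val_isAlgClosed V
  have hmf : Module.Finite (𝓞 K ⧸ RingHom.ker φ) F := Module.Finite.of_finite
  have halg : Algebra.IsAlgebraic (𝓞 K ⧸ RingHom.ker φ) F := Algebra.IsAlgebraic.of_finite _ _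
  let ι : F →ₐ[𝓞 K ⧸ RingHom.ker φ] Res V := IsAlgClosed.lift
  refine ⟨V, ι.toRingHom, fun x => ⟨hV x, ?_⟩⟩
  exact (ι.commutes (Ideal.Quotient.mk (RingHom.ker φ) x)).symm

end Pool.Agent.OneP74
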