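import Pool.Agent.W_7742y_h74.Lft
import Pool.Agent.W_7742y_h74.Val
import Pool.Agent.W_7742y_h74.Nrm
import Pool.Agent.W_7742y_h74.FldB
import Pool.Agent.W_7742y_h74.MeanGe
import Pool.Agent.W_7742y_h74.Imp
import Pool.Agent.W_7742y_h74.OrdB

/-!
# The main theorem for one prime

Let `d = [K : ℚ]`, `ℓ ≥ bnd n d` the characteristic of the finite field `F`, `φ : 𝓞 K → F`,
`r₁`, `r₂` representations of `G` over `F` of dimensions `a₁ + a₂ = n` with open kernels and
`tr r₁(frob p) + tr r₂(frob p) = φ (b p)` for `p` outside a set of density zero.  Then for every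
embedding `s` there is a complex representation `R` of `G` of dimension `n` with open kernel, trivial
where `r₁` and `r₂` are, with `tr R(frob p) = s (b p)` outside a set of density zero; it is
irreducible; and `a₁ = 0` or `a₂ = 0`.

Proof.  Take `V`, `ι` from `exists_val s φ`; `κ = Res V` has characteristic `ℓ` (`ι` is injective).
Since `n * ord n d < bnd n d ≤ ℓ` (`mul_ord_lt_bnd`), `1, ..., n` are not zero in `κ`.  Apply
`exists_quot` to `ι ∘ φ` and the representations over `κ` (`(RingHom.mapMatrix ι)` composed with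
`r₁`, `r₂`; `ι` is injective, so the kernels are the same; `AddMonoidHom.map_trace` or
`RingHom.map_trace`), giving `U`, `Γ = G / U` with `|Γ| ≤ ord n d`, `ρ₁`, `ρ₂`.  `exists_lift` (as
`a_j |Γ| ≤ n |Γ| < ℓ`) gives complex representations `R₁`, `R₂` of `Γ` lifting `ρ₁`, `ρ₂`; let `R` be
their block sum of dimension `n` (`Pool.Agent.GalSide.exists_sum`), so `tr R = tr R₁ + tr R₂` reduces to
`T g = ι (tr r₁ g + tr r₂ g)`.  Take `L`, `i`, `σ`, `χ` from `exists_field s R`.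

Let `Z` be the exceptional set of the hypothesis and `E` the set of the `p ∉ Z` such that
`δ p = σ (b p) - χ (frob p) ≠ 0`.  For `p ∉ Z`, `i (δ p) = s (b p) - tr R(frob p)` has residue class
`ι (φ (b p)) - T (frob p) = 0`, so its valuation is `< 1`.  For `p ∈ E`, `sum_sq_ge` with `c = 3 n`
(`(3 n) ^ [L : ℚ] ≤ bnd n d ≤ ℓ` by `pow_le_bnd`, as `[L : ℚ] ≤ d |Γ|`; `δ p` is integral) gives
`∑_τ |τ (δ p)|² ≥ [L : ℚ] 9 n² ≥ [L : ℚ] (4 n² + 1)`; the number of the embeddings `τ : L → ℂ` is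
`[L : ℚ]` (`NumberField.Embeddings.card`).  Apply `improve` with the set of the embeddings `τ` of `L`,
`a τ p = τ (σ (b p))` (`τ ∘ σ` is an embedding of `K`, so `hRS` applies), `χ τ = τ ∘ χ`; the mean square
of `τ ∘ χ` is that of `tr R`, at least one (`card_le_sum`, `n > 0`).  It gives that `E` has density
zero, so `E ∪ Z` too (`Chb_union`), and `tr R(frob p) = i (χ (frob p)) = i (σ (b p)) = s (b p)` outside
`E ∪ Z`; and `∑ |tr R|² ≤ |Γ|` (take `τ = i`), so `R` is irreducible (`eq_bot_or_eq_top`), and not both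
`a₁`, `a₂` are positive (`two_mul_card_le_sum`).  The representation of `G` is `R` composed with
`G → Γ`; to get units (`GL`) use `MonoidHom.toHomUnits`.
-/

set_option autoImplicit false

noncomputable section

open Filter Topology NumberField

namespace Pool.Agent.OneP74

open Pool.Agent.GalSide

variable {G : Type} [Group G] [TopologicalSpace G] [IsTopologicalGroup G] [CompactSpace G]

theorem main (Φ : FrobeniusData G) {K : Type} [Field K] [NumberField K]
    (b : Nat.Primes → 𝓞 K)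
    (hRS : ∀ σ : K →+* ℂ, ∀ ε : ℝ, 0 < ε → LogBound (1 + ε) (fun p => ‖σ (b p : K)‖ ^ 2))
    {F : Type} [Field F] [Finite F] {ℓ : ℕ} [CharP F ℓ] (φ : 𝓞 K →+* F) {n a₁ a₂ : ℕ}
    (hn : 0 < n) (hna : a₁ + a₂ = n) (hℓ : bnd n (Module.finrank ℚ K) ≤ ℓ)
    (r₁ : G →* Matrix (Fin a₁) (Fin a₁) F) (r₂ : G →* Matrix (Fin a₂) (Fin a₂) F)
    (h₁ : IsOpen ({g | r₁ g = 1} : Set G)) (h₂ : IsOpen ({g | r₂ g = 1} : Set G))
    (hZ : HasDensity {p | (r₁ (Φ.frob p)).trace + (r₂ (Φ.frob p)).trace ≠ φ (b p)} 0)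
    (s : K →+* ℂ) :
    ∃ (V : ValuationSubring ℂ) (ι : F →+* Res V) (m : ℕ) (R : G →* GL (Fin n) ℂ),
      (∀ x : 𝓞 K, Red V (s (x : K)) (ι (φ x))) ∧ 0 < m ∧ m < ℓ ∧ n < ℓ ∧
      Module.finrank ℚ K + 1 < ℓ ∧ (∀ g, R g ^ m = 1) ∧
      (∀ g, Red V (R g).val.trace (ι ((r₁ g).trace + (r₂ g).trace))) ∧
      IsOpen (R.ker : Set G) ∧
      (∀ g, r₁ g = 1 → r₂ g = 1 → R g = 1) ∧
      HasDensity {p | (R (Φ.frob p)).val.trace ≠ s (b p : K)} 0 ∧
      (∀ W : Submodule ℂ (Fin n → ℂ), (∀ g, ∀ w ∈ W, (R g).val.mulVec w ∈ W) →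
        W = ⊥ ∨ W = ⊤) ∧ (a₁ = 0 ∨ a₂ = 0) := by
  classical
  obtain ⟨V, ι, hι⟩ := exists_val s φ
  have hp : ℓ.Prime := CharP.char_is_prime F ℓ
  have : CharP (Res V) ℓ := charP_of_injective_ringHom ι.injective ℓ
  have hℓκ : (ℓ : Res V) = 0 := CharP.cast_eq_zero (Res V) ℓ
  set d := Module.finrank ℚ K with hddef
  have hd : 0 < d := Module.finrank_pos
  have hlt : n * ord n d < ℓ := (mul_ord_lt_bnd hn hd).trans_le hℓ
  have hκ : ∀ k : ℕ, 0 < k → k ≤ n → (k : Res V) ≠ 0 := by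
    intro k hk hkn h0
    rw [CharP.cast_eq_zero_iff (Res V) ℓ] at h0
    have h1 := Nat.le_of_dvd hk h0
    have h2 : n ≤ n * ord n d := Nat.le_mul_of_pos_right _ (ord_pos hd)
    omega
  have hmap : ∀ (a : ℕ) (M : Matrix (Fin a) (Fin a) F), ι.mapMatrix M = 1 ↔ M = 1 := by
    intro a M
    constructor
    · intro h
      rw [← map_one (ι.mapMatrix : Matrix (Fin a) (Fin a) F →+* _)] at h
      exact Matrix.map_injective ι.injective h
    · intro h
      rw [h, map_one]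
  have htr : ∀ (a : ℕ) (M : Matrix (Fin a) (Fin a) F), (ι.mapMatrix M).trace = ι M.trace :=
    fun a M => (AddMonoidHom.map_trace (ι : F →+ Res V) M).symm
  set Z : Set Nat.Primes := {p | (r₁ (Φ.frob p)).trace + (r₂ (Φ.frob p)).trace ≠ φ (b p)}
    with hZdef
  obtain ⟨U, hUn, hUo, hUker, hcard, ρ₁, ρ₂, hρ⟩ := exists_quot Φ b hRS (ι.comp φ) hn hna hκ
    ((ι.mapMatrix : Matrix (Fin a₁) (Fin a₁) F →+* _).toMonoidHom.comp r₁)
    ((ι.mapMatrix : Matrix (Fin a₂) (Fin a₂) F →+* _).toMonoidHom.comp r₂)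
    (by
      have h : {g | ((ι.mapMatrix : Matrix (Fin a₁) (Fin a₁) F →+* _).toMonoidHom.comp r₁) g = 1}
          = {g | r₁ g = 1} := Set.ext fun g => hmap a₁ (r₁ g)
      rw [h]
      exact h₁)
    (by
      have h : {g | ((ι.mapMatrix : Matrix (Fin a₂) (Fin a₂) F →+* _).toMonoidHom.comp r₂) g = 1}
          = {g | r₂ g = 1} := Set.ext fun g => hmap a₂ (r₂ g)
      rw [h]
      exact h₂)
    (by
      have h : {p | (((ι.mapMatrix : Matrix (Fin a₁) (Fin a₁) F →+* _).toMonoidHom.comp r₁)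
            (Φ.frob p)).trace +
          (((ι.mapMatrix : Matrix (Fin a₂) (Fin a₂) F →+* _).toMonoidHom.comp r₂)
            (Φ.frob p)).trace ≠ (ι.comp φ) (b p)} = Z := by
        ext p
        show ((ι.mapMatrix (r₁ (Φ.frob p))).trace + (ι.mapMatrix (r₂ (Φ.frob p))).trace ≠
          ι (φ (b p))) ↔ _
        rw [htr, htr, ← map_add]
        exact not_congr ι.injective.eq_iff
      rw [h]
      exact hZ)
  have : Finite (G ⧸ U) := Subgroup.quotient_finite_of_isOpen U hUo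
  let _ : Fintype (G ⧸ U) := Fintype.ofFinite _
  have hcard' : Fintype.card (G ⧸ U) ≤ ord n d := by
    rw [← Nat.card_eq_fintype_card]
    exact hcard
  obtain ⟨R₁, hR₁⟩ := exists_lift V hp hℓκ
    (lt_of_le_of_lt (Nat.mul_le_mul (by omega) hcard') hlt) ρ₁
  obtain ⟨R₂, hR₂⟩ := exists_lift V hp hℓκ
    (lt_of_le_of_lt (Nat.mul_le_mul (by omega) hcard') hlt) ρ₂
  obtain ⟨R, hR, -⟩ := exists_sum hna R₁ R₂
  obtain ⟨L, iF, iN, i, σ, χ, hdeg, hσ, hχ, hχi, hχc, hτ⟩ := exists_field s R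
  have hred : ∀ p, p ∉ Z →
      V.valuation (s (b p : K) - (R (QuotientGroup.mk (Φ.frob p))).trace) < 1 := by
    intro p hpZ
    have h1 := hι (b p)
    have h2 := (hR₁ (QuotientGroup.mk (Φ.frob p))).add (hR₂ (QuotientGroup.mk (Φ.frob p)))
    rw [← hR, (hρ _).1, (hρ _).2] at h2
    have h3 : (r₁ (Φ.frob p)).trace + (r₂ (Φ.frob p)).trace = φ (b p) := not_not.1 hpZ
    have h4 : (((ι.mapMatrix : Matrix (Fin a₁) (Fin a₁) F →+* _).toMonoidHom.comp r₁)
            (Φ.frob p)).trace +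
          (((ι.mapMatrix : Matrix (Fin a₂) (Fin a₂) F →+* _).toMonoidHom.comp r₂)
            (Φ.frob p)).trace = ι (φ (b p)) := by
      show (ι.mapMatrix (r₁ (Φ.frob p))).trace + (ι.mapMatrix (r₂ (Φ.frob p))).trace = _
      rw [htr, htr, ← map_add, h3]
    rw [h4] at h2
    exact h1.valuation_lt h2
  have hℓV : V.valuation (ℓ : ℂ) < 1 := by
    have h1 : Red V (ℓ : ℂ) 0 := by
      rw [← hℓκ]
      exact Red.natCast ℓ
    have h2 := h1.valuation_lt Red.zero
    rwa [sub_zero] at h2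
  set E : Set Nat.Primes := {p | p ∉ Z ∧ σ (b p : K) - χ (QuotientGroup.mk (Φ.frob p)) ≠ 0}
    with hEdef
  have hn1 : (1 : ℝ) ≤ n := by exact_mod_cast hn
  have hE : ∀ p ∈ E, (Fintype.card (L →+* ℂ) : ℝ) * (4 * (n : ℝ) ^ 2 + 1) ≤
      ∑ τ : L →+* ℂ, ‖τ (σ (b p : K)) - τ (χ (QuotientGroup.mk (Φ.frob p)))‖ ^ 2 := by
    intro p hpE
    have h1 : IsIntegral ℤ (σ (b p : K) - χ (QuotientGroup.mk (Φ.frob p))) :=
      (((b p).2).map (σ.toIntAlgHom)).sub (hχi _)
    have h2 : V.valuation (i (σ (b p : K) - χ (QuotientGroup.mk (Φ.frob p)))) < 1 := by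
      rw [map_sub, hσ, hχ]
      exact hred p hpE.1
    have h3 : ((3 * n : ℕ) : ℝ) ^ Module.finrank ℚ L ≤ (ℓ : ℝ) := by
      exact_mod_cast (pow_le_bnd hn hcard' hdeg).trans hℓ
    have h4 := sum_sq_ge i V hp hℓV _ h1 hpE.2 h2 ((3 * n : ℕ) : ℝ) (Nat.cast_nonneg _) h3
    rw [NumberField.Embeddings.card]
    have h5 : (Module.finrank ℚ L : ℝ) * (4 * (n : ℝ) ^ 2 + 1) ≤
        (Module.finrank ℚ L : ℝ) * ((3 * n : ℕ) : ℝ) ^ 2 := by
      refine mul_le_mul_of_nonneg_left ?_ (Nat.cast_nonneg _)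
      push_cast
      nlinarith
    refine h5.trans (h4.trans_eq ?_)
    refine Finset.sum_congr rfl fun τ _ => ?_
    rw [map_sub]
  have : Nonempty (L →+* ℂ) := ⟨i⟩
  have himp := improve Φ U hUo (ι := L →+* ℂ) (n := n) (fun τ x => τ (χ x))
    (fun τ x y hxy => by rw [hχc x y hxy]) (fun τ x => (hτ τ).1 x)
    (fun τ => by
      rw [(hτ τ).2]
      exact card_le_sum hn R)
    (fun τ p => τ (σ (b p : K))) (fun τ ε hε => hRS (τ.comp σ) ε hε) Z E hZ hE
    (by
      intro p hpZ hpE τ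
      have h1 : σ (b p : K) - χ (QuotientGroup.mk (Φ.frob p)) = 0 := by
        by_contra h
        exact hpE ⟨hpZ, h⟩
      rw [sub_eq_zero] at h1
      simp only [h1])
  obtain ⟨hEd, hms⟩ := himp
  have hmsR : ∑ g, ‖(R g).trace‖ ^ 2 ≤ (Fintype.card (G ⧸ U) : ℝ) := by
    have h1 := hms i
    simp only [hχ] at h1
    exact h1
  let R' : G →* GL (Fin n) ℂ := (R.comp (QuotientGroup.mk' U)).toHomUnits
  have hR' : ∀ g, (R' g).val = R (QuotientGroup.mk g) := fun g => rfl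
  have hU1 : ∀ g ∈ U, R' g = 1 := by
    intro g hg
    apply Units.ext
    rw [hR', (QuotientGroup.eq_one_iff g).2 hg, map_one]
    rfl
  have hmR : ∀ g, R' g ^ Fintype.card (G ⧸ U) = 1 := by
    intro g
    apply Units.ext
    rw [Units.val_pow_eq_pow_val, hR', ← map_pow, pow_card_eq_one, map_one]
    rfl
  have hredR : ∀ g, Red V (R' g).val.trace (ι ((r₁ g).trace + (r₂ g).trace)) := by
    intro g
    have h2 := (hR₁ (QuotientGroup.mk g)).add (hR₂ (QuotientGroup.mk g))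
    rw [← hR, (hρ _).1, (hρ _).2] at h2
    have h4 : (((ι.mapMatrix : Matrix (Fin a₁) (Fin a₁) F →+* _).toMonoidHom.comp r₁) g).trace +
          (((ι.mapMatrix : Matrix (Fin a₂) (Fin a₂) F →+* _).toMonoidHom.comp r₂) g).trace =
            ι ((r₁ g).trace + (r₂ g).trace) := by
      show (ι.mapMatrix (r₁ g)).trace + (ι.mapMatrix (r₂ g)).trace = _
      rw [htr, htr, ← map_add]
    rw [h4] at h2
    rw [hR']
    exact h2
  have hcl : Fintype.card (G ⧸ U) < ℓ := by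
    have h1 : ord n d ≤ n * ord n d := Nat.le_mul_of_pos_left _ hn
    omega
  have hnl : n < ℓ := by
    have h1 : n ≤ n * ord n d := Nat.le_mul_of_pos_right _ (ord_pos hd)
    omega
  have hdl : d + 1 < ℓ := (lt_bnd hn hd).trans_le hℓ
  refine ⟨V, ι, Fintype.card (G ⧸ U), R', hι, Fintype.card_pos, hcl, hnl, hdl, hmR, hredR,
    ?_, ?_, ?_, ?_, ?_⟩
  · exact Subgroup.isOpen_mono (H₁ := U) (fun g hg => MonoidHom.mem_ker.2 (hU1 g hg)) hUo
  · intro g h1 h2
    refine hU1 g (hUker g ?_ ?_)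
    · exact (hmap a₁ (r₁ g)).2 h1
    · exact (hmap a₂ (r₂ g)).2 h2
  · have hsub : {p | (R' (Φ.frob p)).val.trace ≠ s (b p : K)} ⊆ E ∪ Z := by
      intro p hp'
      by_contra hcon
      rw [Set.mem_union, not_or] at hcon
      apply hp'
      have h1 : σ (b p : K) - χ (QuotientGroup.mk (Φ.frob p)) = 0 := by
        by_contra h
        exact hcon.1 ⟨hcon.2, h⟩
      rw [hR', ← hχ, ← hσ, sub_eq_zero.1 h1]
    have h3 : Tendsto (fun s : ℝ => primeSum E s / Real.log (1 / (s - 1)) +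
        primeSum Z s / Real.log (1 / (s - 1))) (𝓝[>] 1) (𝓝 0) := by
      have := hEd.add hZ
      rwa [add_zero] at this
    refine squeeze_zero' ?_ ?_ h3
    · filter_upwards [Chb_log.eventually_gt_atTop 0] with s hs
      exact div_nonneg (Chb_nonneg s _) hs.le
    · filter_upwards [Chb_log.eventually_gt_atTop 0, Chb_gt] with s hs hs1
      rw [← add_div]
      exact div_le_div_of_nonneg_right ((Chb_mono hs1 hsub).trans (Chb_union hs1 E Z)) hs.le
  · intro W hW
    refine eq_bot_or_eq_top R hmsR W fun g w hw => ?_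
    obtain ⟨g, rfl⟩ := QuotientGroup.mk_surjective g
    exact hW g w hw
  · by_contra hcon
    rw [not_or] at hcon
    have h1 := two_mul_card_le_sum (Nat.pos_of_ne_zero hcon.1) (Nat.pos_of_ne_zero hcon.2) R₁ R₂
    have h2 : (0 : ℝ) < Fintype.card (G ⧸ U) := by exact_mod_cast Fintype.card_pos
    simp only [← hR] at h1
    linarith

end Pool.Agent.OneP74
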