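import Pool.Agent.W_7742y_h74.Stmt
import Pool.Agent.W_7742y_h74.Main
import Pool.Agent.W_7742x_h74.ZLog
import Pool.Agent.Chebotarev_h15.AppC2
import Pool.Agent.W_7742y_h74.DetA
import Pool.Agent.W_7742y_h74.DetB
import Pool.Agent.W_7742y_h74.DetC
import Pool.Agent.W_7742y_h74.DetD

/-!
# The one-prime theorem for cusp forms on `GL_n`
-/

set_option autoImplicit false

noncomputable section

open Filter Topology NumberField

namespace Pool.Agent.OneP74

open Pool.Agent.GalSide Pool.Agent.Cheb Pool.Agent.H74V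

/-- The trace of `A p` as an integer of `K`; `0` if `p` divides the level. -/
theorem exists_trace {K : Type} [Field K] [NumberField K] {n : ℕ} (hn : 0 < n)
    (π : SatakeSystem K n) : ∃ b : Nat.Primes → 𝓞 K,
      (∀ p : Nat.Primes, ¬ (p : ℕ) ∣ π.level → (b p : K) = (π.A p).trace) ∧
      ∀ p : Nat.Primes, (p : ℕ) ∣ π.level → b p = 0 := by
  classical
  have hne : Nonempty (Fin n) := ⟨⟨0, hn⟩⟩
  have h : ∀ p : Nat.Primes, ∃ x : 𝓞 K,
      (¬ (p : ℕ) ∣ π.level → (x : K) = (π.A p).trace) ∧ ((p : ℕ) ∣ π.level → x = 0) := by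
    intro p
    by_cases hp : (p : ℕ) ∣ π.level
    · exact ⟨0, fun h => absurd hp h, fun _ => rfl⟩
    · have h1 : IsIntegral ℤ (π.A p).trace := by
        rw [Matrix.trace_eq_neg_charpoly_coeff]
        exact (π.integral p p.2 hp _).neg
      exact ⟨⟨_, h1⟩, fun _ => rfl, fun h => absurd h hp⟩
  choose b hb using h
  exact ⟨b, fun p hp => (hb p).1 hp, fun p hp => (hb p).2 hp⟩

/-- The Rankin-Selberg bound. -/
theorem logBound_trace {K : Type} [Field K] [NumberField K] {n : ℕ} (hn : 2 ≤ n)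
    (π : SatakeSystem K n) (σ : K →+* ℂ) (h : π.IsCuspidal σ) (b : Nat.Primes → 𝓞 K)
    (hb : ∀ p : Nat.Primes, ¬ (p : ℕ) ∣ π.level → (b p : K) = (π.A p).trace)
    (hb0 : ∀ p : Nat.Primes, (p : ℕ) ∣ π.level → b p = 0) (ε : ℝ) (hε : 0 < ε) :
    LogBound (1 + ε) (fun p => ‖σ (b p : K)‖ ^ 2) := by
  have hne : Nonempty (Fin n) := ⟨⟨0, by omega⟩⟩
  obtain ⟨C, hC⟩ := GL74.cusp_log hn π.level_pos h
  have hterm : ∀ p : Nat.Primes, (if (p : ℕ) ∣ π.level then (0 : ℝ)
      else ‖((fun p => (π.A p).charpoly.map σ) (p : ℕ)).coeff (n - 1)‖ ^ 2) =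
        ‖σ (b p : K)‖ ^ 2 := by
    intro p
    split_ifs with hp
    · rw [hb0 p hp]
      simp
    · have h1 := Matrix.trace_eq_neg_charpoly_coeff (π.A p)
      rw [Fintype.card_fin] at h1
      rw [hb p hp, h1, Polynomial.coeff_map, map_neg, norm_neg]
  simp only [hterm] at hC
  have hlog : Tendsto (fun s : ℝ => Real.log (1 / (s - 1))) (𝓝[>] 1) atTop := Chb_log
  have hlt : ∀ᶠ s : ℝ in 𝓝[>] 1, s < 2 :=
    (eventually_lt_nhds (by norm_num : (1 : ℝ) < 2)).filter_mono nhdsWithin_le_nhds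
  filter_upwards [Chb_gt, hlt, hlog.eventually_ge_atTop (C / ε)] with s h1 h2 h3
  obtain ⟨h4, h5⟩ := hC s h1 h2.le
  refine ⟨h4, h5.trans ?_⟩
  rw [div_le_iff₀ hε] at h3
  linarith

/-- Finite sets of primes have density zero, also together with a set of density zero. -/
theorem density_union {X E : Set Nat.Primes} (hX : HasDensity X 0) (hE : E.Finite)
    {Y : Set Nat.Primes} (hY : Y ⊆ X ∪ E) : HasDensity Y 0 := by
  unfold HasDensity at hX ⊢
  have h1 := hX.add (Chb_const (hE.toFinset.card : ℝ))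
  rw [add_zero] at h1
  refine tendsto_of_tendsto_of_tendsto_of_le_of_le' tendsto_const_nhds h1 ?_ ?_
  · filter_upwards [Chb_log.eventually_gt_atTop 0] with s hs
    exact div_nonneg (Chb_nonneg _ _) hs.le
  · filter_upwards [Chb_log.eventually_gt_atTop 0, Chb_gt] with s hs hs1
    rw [← add_div]
    refine div_le_div_of_nonneg_right ?_ hs.le
    exact (Chb_mono hs1 hY).trans ((Chb_union hs1 X E).trans
      (by have := Chb_finite hE hs1; linarith))

theorem finite_level {N : ℕ} (hN : 0 < N) : {p : Nat.Primes | (p : ℕ) ∣ N}.Finite := by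
  refine Set.Finite.preimage (f := fun p : Nat.Primes => (p : ℕ)) (s := {m | m ∣ N})
    (fun x _ y _ h => Subtype.ext h) ?_
  exact (Set.finite_Iic N).subset fun m hm => Nat.le_of_dvd hN hm

theorem final {K : Type} [Field K] [NumberField K] {n : ℕ} (hn : 2 ≤ n)
    (π : SatakeSystem K n) (h : ∀ σ : K →+* ℂ, π.IsCuspidal σ)
    (Fr : Nat.Primes → AbsGal ℚ) (hFr : IsFrobeniusFamily Fr)
    {F : Type} [Field F] [Finite F] {ℓ : ℕ} [CharP F ℓ] (hℓ : bnd n (Module.finrank ℚ K) ≤ ℓ)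
    (φ : 𝓞 K →+* F) {a₁ a₂ : ℕ} (hna : a₁ + a₂ = n)
    (r₁ : AbsGal ℚ →* Matrix (Fin a₁) (Fin a₁) F) (r₂ : AbsGal ℚ →* Matrix (Fin a₂) (Fin a₂) F)
    (h₁ : IsOpen ({g | r₁ g = 1} : Set (AbsGal ℚ))) (h₂ : IsOpen ({g | r₂ g = 1} : Set (AbsGal ℚ)))
    (hc : Congruent π Fr φ fun g => (r₁ g).trace + (r₂ g).trace) (s : K →+* ℂ) :
    ∃ (V : ValuationSubring ℂ) (ι : F →+* Res V) (m : ℕ) (R : AbsGal ℚ →* GL (Fin n) ℂ),
      (∀ x : 𝓞 K, Red V (s (x : K)) (ι (φ x))) ∧ 0 < m ∧ m < ℓ ∧ n < ℓ ∧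
      Module.finrank ℚ K + 1 < ℓ ∧ (∀ g, R g ^ m = 1) ∧
      (∀ g, Red V (R g).val.trace (ι ((r₁ g).trace + (r₂ g).trace))) ∧
      IsOpen (R.ker : Set (AbsGal ℚ)) ∧
      (∀ g, r₁ g = 1 → r₂ g = 1 → R g = 1) ∧
      HasDensity {p : Nat.Primes | (R (Fr p)).val.trace ≠ s (π.A p).trace} 0 ∧
      (∀ W : Submodule ℂ (Fin n → ℂ), (∀ g, ∀ w ∈ W, (R g).val.mulVec w ∈ W) →
        W = ⊥ ∨ W = ⊤) ∧ (a₁ = 0 ∨ a₂ = 0) := by
  obtain ⟨b, hb, hb0⟩ := exists_trace (by omega) π
  choose 𝔓 h𝔓 hp hF using hFr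
  have hlev := finite_level π.level_pos
  obtain ⟨V, ι, m, R, k1, k2, k3, k4, k5, k6, k7, h3, h4, h5, h6, h7⟩ :=
    main (frobeniusData 𝔓 h𝔓 hp Fr hF) b
    (fun σ ε hε => logBound_trace hn π σ (h σ) b hb hb0 ε hε) φ (by omega) hna hℓ r₁ r₂ h₁ h₂
    (density_union hc hlev (by
      intro p hp'
      by_cases hpl : (p : ℕ) ∣ π.level
      · exact Or.inr hpl
      · refine Or.inl fun hx => hp' ?_
        obtain ⟨x, hx1, hx2⟩ := hx
        have : x = b p := by
          apply RingOfIntegers.ext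
          rw [hx1, hb p hpl]
        rw [← this]
        exact hx2)) s
  refine ⟨V, ι, m, R, k1, k2, k3, k4, k5, k6, k7, h3, h4, density_union h5 hlev ?_, h6, h7⟩
  intro p hp'
  by_cases hpl : (p : ℕ) ∣ π.level
  · exact Or.inr hpl
  · refine Or.inl fun hx => hp' ?_
    rw [← hb p hpl]
    exact hx

/-- The determinants are roots of unity. -/
theorem det_pow {K : Type} [Field K] [NumberField K] {n : ℕ} (hn : 2 ≤ n)
    (π : SatakeSystem K n) {σ : K →+* ℂ} (h : π.IsCuspidal σ) {p : ℕ} (hp : π.Good p) :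
    ∃ k : ℕ, 0 < k ∧ (π.A p).det ^ k = 1 := by
  obtain ⟨s, rfl⟩ : ∃ s, n = s + 2 := ⟨n - 2, by omega⟩
  obtain ⟨χ, f, hf, hne, he⟩ := h
  obtain ⟨h1, -⟩ := GL74.adj_rel π.level_pos hf hne hp.1 hp.2
    (fun k => (-1) ^ k * ((π.A p).charpoly.map σ).coeff (s + 2 - k)) (he p hp.1 hp.2)
  have h2 : σ (π.A p).det = (starRingEnd ℂ) (χ p) := by
    rw [← h1, Matrix.det_eq_sign_charpoly_coeff, Fintype.card_fin, Nat.sub_self,
      Polynomial.coeff_map, map_mul, map_pow, map_neg, map_one]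
  have : NeZero π.level := ⟨π.level_pos.ne'⟩
  have hu : IsUnit ((p : ℕ) : ZMod π.level) := (ZMod.isUnit_iff_coprime p _).2
    ((Nat.Prime.coprime_iff_not_dvd hp.1).2 hp.2)
  obtain ⟨u, hu⟩ := hu
  have h3 : (χ p) ^ Fintype.card (ZMod π.level)ˣ = 1 := by
    rw [← hu, ← map_pow, ← Units.val_pow_eq_pow_val, pow_card_eq_one, Units.val_one, map_one]
  refine ⟨Fintype.card (ZMod π.level)ˣ, Fintype.card_pos, ?_⟩
  apply σ.injective
  rw [map_pow, h2, ← map_pow, h3, map_one, map_one]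

/-- The trace of the inverse of a matrix of finite order. -/
theorem conj_trace {n m : ℕ} (hm : 0 < m) (M : Matrix (Fin n) (Fin n) ℂ) (hM : M ^ m = 1) :
    (starRingEnd ℂ) M.trace = (M⁻¹).trace := by
  obtain ⟨a, ha⟩ := exists_exponents hm M hM _ (Complex.isPrimitiveRoot_exp m hm.ne')
  set ζ := Complex.exp (2 * Real.pi * Complex.I / m) with hζ
  have hz : ζ ^ m = 1 := (Complex.isPrimitiveRoot_exp m hm.ne').pow_eq_one
  have hn : ‖ζ‖ = 1 := Complex.norm_eq_one_of_pow_eq_one hz hm.ne'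
  have h1 : M⁻¹ = M ^ (m - 1) := by
    apply Matrix.inv_eq_right_inv
    rw [← pow_succ', Nat.sub_add_cancel hm, hM]
  have h2 := ha 1
  rw [pow_one] at h2
  rw [h1, ha (m - 1), h2, map_sum]
  refine Finset.sum_congr rfl fun i _ => ?_
  have h3 : ‖ζ ^ (1 * a i)‖ = 1 := by rw [norm_pow, hn, one_pow]
  have h4 : ζ ^ (1 * a i) * ζ ^ ((m - 1) * a i) = 1 := by
    rw [← pow_add, ← add_mul, Nat.add_sub_cancel' hm, mul_comm, pow_mul', hz, one_pow]
  have h5 : (starRingEnd ℂ) (ζ ^ (1 * a i)) * ζ ^ (1 * a i) = 1 := by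
    rw [mul_comm, Complex.mul_conj, Complex.normSq_eq_norm_sq, h3]
    norm_num
  calc (starRingEnd ℂ) (ζ ^ (1 * a i)) =
        (starRingEnd ℂ) (ζ ^ (1 * a i)) * (ζ ^ (1 * a i) * ζ ^ ((m - 1) * a i)) := by
          rw [h4, mul_one]
    _ = ((starRingEnd ℂ) (ζ ^ (1 * a i)) * ζ ^ (1 * a i)) * ζ ^ ((m - 1) * a i) := by ring
    _ = ζ ^ ((m - 1) * a i) := by rw [h5, one_mul]

/-- The union of two sets of density zero. -/
theorem density_union' {X Y Z : Set Nat.Primes} (hX : HasDensity X 0) (hY : HasDensity Y 0)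
    (hZ : Z ⊆ X ∪ Y) : HasDensity Z 0 := by
  unfold HasDensity at hX hY ⊢
  have h1 := hX.add hY
  rw [add_zero] at h1
  refine tendsto_of_tendsto_of_tendsto_of_le_of_le' tendsto_const_nhds h1 ?_ ?_
  · filter_upwards [Chb_log.eventually_gt_atTop 0] with s hs
    exact div_nonneg (Chb_nonneg _ _) hs.le
  · filter_upwards [Chb_log.eventually_gt_atTop 0, Chb_gt] with s hs hs1
    rw [← add_div]
    exact div_le_div_of_nonneg_right ((Chb_mono hs1 hZ).trans (Chb_union hs1 X Y)) hs.le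

/-- One representation: the traces, the determinants, and for `n ≤ 3` the characteristic
polynomials. -/
theorem final_one {K : Type} [Field K] [NumberField K] {n : ℕ} (hn : 2 ≤ n)
    (π : SatakeSystem K n) (h : ∀ σ : K →+* ℂ, π.IsCuspidal σ)
    (Fr : Nat.Primes → AbsGal ℚ) (hFr : IsFrobeniusFamily Fr)
    {F : Type} [Field F] [Finite F] {ℓ : ℕ} [CharP F ℓ] (hℓ : bnd n (Module.finrank ℚ K) ≤ ℓ)
    (φ : 𝓞 K →+* F) (r : AbsGal ℚ →* GL (Fin n) F) (hr : IsOpen (r.ker : Set (AbsGal ℚ)))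
    (hc : Congruent π Fr φ fun g => (r g).val.trace) (s : K →+* ℂ) :
    ∃ R : AbsGal ℚ →* GL (Fin n) ℂ, IsOpen (R.ker : Set (AbsGal ℚ)) ∧ r.ker ≤ R.ker ∧
      (∀ W : Submodule ℂ (Fin n → ℂ), (∀ g, ∀ w ∈ W, (R g).val.mulVec w ∈ W) →
        W = ⊥ ∨ W = ⊤) ∧
      HasDensity {p : Nat.Primes | (R (Fr p)).val.trace ≠ s (π.A p).trace} 0 ∧
      (HasDensity {p : Nat.Primes | ¬ ∃ x : 𝓞 K, (x : K) = (π.A p).det ∧
          (r (Fr p)).val.det = φ x} 0 →
        HasDensity {p : Nat.Primes | (R (Fr p)).val.det ≠ s (π.A p).det} 0 ∧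
        (n ≤ 3 → HasDensity {p : Nat.Primes |
          (R (Fr p)).val.charpoly ≠ (π.A p).charpoly.map s} 0)) := by
  classical
  have hne : Nonempty (Fin n) := ⟨⟨0, by omega⟩⟩
  obtain ⟨V, ι, m, R, k1, k2, k3, k4, k5, k6, k7, h1, h2, h3, h4, -⟩ :=
    final hn π h Fr hFr hℓ φ (a₁ := n) (a₂ := 0) (by omega)
      ((Units.coeHom _).comp r) 1 (by
        have : ({g | ((Units.coeHom _).comp r) g = 1} : Set (AbsGal ℚ)) = r.ker := by
          ext g
          exact ⟨fun h => MonoidHom.mem_ker.2 (Units.ext h),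
            fun h => by
              have := MonoidHom.mem_ker.1 h
              exact congrArg Units.val this⟩
        rw [this]
        exact hr) (by
        have : ({g | (1 : AbsGal ℚ →* Matrix (Fin 0) (Fin 0) F) g = 1} : Set (AbsGal ℚ)) =
            Set.univ := by
          ext g
          exact ⟨fun _ => trivial, fun _ => rfl⟩
        rw [this]
        exact isOpen_univ) (by
        have e : (fun g : AbsGal ℚ => (((Units.coeHom _).comp r) g).trace +
            ((1 : AbsGal ℚ →* Matrix (Fin 0) (Fin 0) F) g).trace) =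
            fun g => (r g).val.trace := by
          funext g
          have : ((1 : AbsGal ℚ →* Matrix (Fin 0) (Fin 0) F) g).trace = 0 := by
            simp [Matrix.trace]
          rw [this, add_zero]
          rfl
        rw [e]
        exact hc) s
  have hp : ℓ.Prime := CharP.char_is_prime F ℓ
  have : CharP (Res V) ℓ := charP_of_injective_ringHom ι.injective ℓ
  have hℓκ : (ℓ : Res V) = 0 := CharP.cast_eq_zero (Res V) ℓ
  have hredR : ∀ g, Red V (R g).val.trace (ι (r g).val.trace) := by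
    intro g
    have := k7 g
    have e : ((1 : AbsGal ℚ →* Matrix (Fin 0) (Fin 0) F) g).trace = 0 := by
      simp [Matrix.trace]
    rw [e, add_zero] at this
    exact this
  have hMm : ∀ g, (R g).val ^ m = 1 := by
    intro g
    rw [← Units.val_pow_eq_pow_val, k6 g, Units.val_one]
  have hcp : ∀ g i, Red V ((R g).val.charpoly.coeff i)
      ((ι.mapMatrix (r g).val).charpoly.coeff i) := by
    intro g i
    refine red_charpoly V hp hℓκ k4 (R g).val k2 (hMm g) (ι.mapMatrix (r g).val) (fun k => ?_) i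
    have e1 : (R g).val ^ k = (R (g ^ k)).val := by
      rw [map_pow, Units.val_pow_eq_pow_val]
    have e2 : (ι.mapMatrix (r g).val) ^ k = ι.mapMatrix (r (g ^ k)).val := by
      rw [map_pow r, Units.val_pow_eq_pow_val, map_pow]
    have e3 : (ι.mapMatrix (r (g ^ k)).val).trace = ι (r (g ^ k)).val.trace :=
      (AddMonoidHom.map_trace (ι : F →+ Res V) _).symm
    rw [e1, e2, e3]
    exact hredR _
  have hdet : ∀ g, Red V (R g).val.det (ι (r g).val.det) := by
    intro g
    have e1 := hcp g 0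
    have e2 : ∀ k : ℕ, Red V ((-1 : ℂ) ^ k) ((-1 : Res V) ^ k) := by
      intro k
      induction k with
      | zero => simpa using (Red.one : Red V 1 1)
      | succ k ih =>
        rw [pow_succ, pow_succ]
        exact ih.mul Red.one.neg
    have e3 := (e2 (Fintype.card (Fin n))).mul e1
    rw [← Matrix.det_eq_sign_charpoly_coeff, ← Matrix.det_eq_sign_charpoly_coeff] at e3
    rw [RingHom.map_det]
    exact e3
  have hlev := finite_level π.level_pos
  refine ⟨R, h1, fun g hg => ?_, h4, h3, fun hd => ?_⟩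
  · exact h2 g (congrArg Units.val (MonoidHom.mem_ker.1 hg)) rfl
  · have hD : HasDensity {p : Nat.Primes | (R (Fr p)).val.det ≠ s (π.A p).det} 0 := by
      refine density_union hd hlev ?_
      intro p hp'
      by_cases hpl : (p : ℕ) ∣ π.level
      · exact Or.inr hpl
      · refine Or.inl fun hx => hp' ?_
        obtain ⟨x, hx1, hx2⟩ := hx
        obtain ⟨k, hk, hk1⟩ := det_pow hn π (h s) (p := p) ⟨p.2, hpl⟩
        obtain ⟨m', hm', hm1, hm2⟩ := exists_order hk hk1 hp k5
        have e1 : ((m * m' : ℕ) : Res V) ≠ 0 := by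
          intro h0
          rw [CharP.cast_eq_zero_iff (Res V) ℓ] at h0
          rcases (Nat.Prime.dvd_mul hp).1 h0 with h5 | h5
          · exact absurd (Nat.le_of_dvd k2 h5) (not_le.2 k3)
          · exact hm1 h5
        refine eq_of_valuation_lt V e1 ?_ ?_ ?_
        · rw [pow_mul, ← Matrix.det_pow, hMm, Matrix.det_one, one_pow]
        · rw [mul_comm, pow_mul, ← map_pow, hm2, map_one, one_pow]
        · have e2 := hdet (Fr p)
          rw [hx2] at e2
          have e3 := k1 x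
          rw [hx1] at e3
          exact e2.valuation_lt e3
    refine ⟨hD, fun hn3 => ?_⟩
    refine density_union (density_union' h3 hD (subset_refl _)) hlev ?_
    intro p hp'
    by_cases hpl : (p : ℕ) ∣ π.level
    · exact Or.inr hpl
    · refine Or.inl ?_
      by_contra hcon
      rw [Set.mem_union, not_or] at hcon
      have e1 : (R (Fr p)).val.trace = s (π.A p).trace := not_not.1 hcon.1
      have e2 : (R (Fr p)).val.det = s (π.A p).det := not_not.1 hcon.2
      apply hp'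
      have hg : π.Good p := ⟨p.2, hpl⟩
      have hu : ((π.A p).map s).charpoly = (π.A p).charpoly.map s := Matrix.charpoly_map _ _
      rw [← hu]
      have hdm : ((π.A p).map s).det = s (π.A p).det := (RingHom.map_det s _).symm
      have htm : ((π.A p).map s).trace = s (π.A p).trace :=
        (AddMonoidHom.map_trace (s : K →+ ℂ) _).symm
      have hd0 : s (π.A p).det ≠ 0 := by
        intro h0
        exact π.det_ne_zero p p.2 hpl (s.injective (by rw [h0, map_zero]))
      refine charpoly_eq_of_le_three hn3 _ _ ?_ ?_ ?_ ?_ ?_ ?_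
      · rw [e2]
        exact hd0
      · rw [hdm]
        exact hd0
      · exact conj_trace k2 _ (hMm _)
      · have e3 := (GL74.cuspidal_main hn (h s)).1 p hg 1
        rw [pow_one, pow_one] at e3
        rw [htm, e3]
        have e4 : ((π.A p).map s)⁻¹ = ((π.A p)⁻¹).map s := by
          apply Matrix.inv_eq_right_inv
          have e5 : (π.A p) * (π.A p)⁻¹ = 1 :=
            Matrix.mul_nonsing_inv _ (isUnit_iff_ne_zero.2 (π.det_ne_zero p p.2 hpl))
          rw [← Matrix.map_mul, e5, Matrix.map_one s (map_zero s) (map_one s)]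
        rw [e4]
        exact AddMonoidHom.map_trace (s : K →+ ℂ) _
      · rw [e1, htm]
      · rw [e2, hdm]

/-- The bound for the image. -/
theorem final_image {K : Type} [Field K] [NumberField K] {n : ℕ} (hn : 2 ≤ n)
    (π : SatakeSystem K n) (h : ∀ σ : K →+* ℂ, π.IsCuspidal σ)
    (Fr : Nat.Primes → AbsGal ℚ) (hFr : IsFrobeniusFamily Fr)
    {E : Type} [Field E] (hE : ∀ k : ℕ, 0 < k → k ≤ n → (k : E) ≠ 0)
    (φ : 𝓞 K →+* E) (r : AbsGal ℚ →* GL (Fin n) E) (hr : IsOpen (r.ker : Set (AbsGal ℚ)))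
    (hc : Congruent π Fr φ fun g => (r g).val.trace) :
    (Set.range fun g h : AbsGal ℚ => (r (g * h)).val.trace).Finite ∧
      (Set.range fun g h : AbsGal ℚ => (r (g * h)).val.trace).ncard ≤
        ord n (Module.finrank ℚ K) := by
  obtain ⟨b, hb, hb0⟩ := exists_trace (by omega) π
  choose 𝔓 h𝔓 hp hF using hFr
  have hlev := finite_level π.level_pos
  have e0 : ∀ g, ((1 : AbsGal ℚ →* Matrix (Fin 0) (Fin 0) E) g).trace = 0 := by
    intro g
    simp [Matrix.trace]
  obtain ⟨U, hUn, hUo, -, hcard, ρ₁, ρ₂, hρ⟩ := exists_quot (frobeniusData 𝔓 h𝔓 hp Fr hF) b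
    (fun σ ε hε => logBound_trace hn π σ (h σ) b hb hb0 ε hε) φ (n := n) (a₁ := n) (a₂ := 0)
    (by omega) (by omega) hE ((Units.coeHom _).comp r) 1 (by
        have : ({g | ((Units.coeHom _).comp r) g = 1} : Set (AbsGal ℚ)) = r.ker := by
          ext g
          exact ⟨fun h => MonoidHom.mem_ker.2 (Units.ext h),
            fun h => by
              have := MonoidHom.mem_ker.1 h
              exact congrArg Units.val this⟩
        rw [this]
        exact hr) (by
        have : ({g | (1 : AbsGal ℚ →* Matrix (Fin 0) (Fin 0) E) g = 1} : Set (AbsGal ℚ)) =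
            Set.univ := by
          ext g
          exact ⟨fun _ => trivial, fun _ => rfl⟩
        rw [this]
        exact isOpen_univ)
      (density_union hc hlev (by
        intro p hp'
        by_cases hpl : (p : ℕ) ∣ π.level
        · exact Or.inr hpl
        · refine Or.inl fun hx => hp' ?_
          obtain ⟨x, hx1, hx2⟩ := hx
          have : x = b p := by
            apply RingOfIntegers.ext
            rw [hx1, hb p hpl]
          rw [← this, e0, add_zero]
          exact hx2))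
  have : Finite (AbsGal ℚ ⧸ U) := Subgroup.quotient_finite_of_isOpen U hUo
  have hsub : (Set.range fun g h : AbsGal ℚ => (r (g * h)).val.trace) ⊆
      Set.range fun (x : AbsGal ℚ ⧸ U) (h : AbsGal ℚ) =>
        (ρ₁ (x * QuotientGroup.mk h)).trace := by
    rintro _ ⟨g, rfl⟩
    refine ⟨QuotientGroup.mk g, ?_⟩
    funext h
    exact (hρ (g * h)).1
  have hfin := Set.finite_range fun (x : AbsGal ℚ ⧸ U) (h : AbsGal ℚ) =>
        (ρ₁ (x * QuotientGroup.mk h)).trace
  refine ⟨hfin.subset hsub, (Set.ncard_le_ncard hsub hfin).trans (le_trans ?_ hcard)⟩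
  rw [← Set.image_univ, ← Set.ncard_univ]
  exact Set.ncard_image_le Set.finite_univ

/-- No sums of two representations. -/
theorem final_two {K : Type} [Field K] [NumberField K] {n : ℕ} (hn : 2 ≤ n)
    (π : SatakeSystem K n) (h : ∀ σ : K →+* ℂ, π.IsCuspidal σ)
    (Fr : Nat.Primes → AbsGal ℚ) (hFr : IsFrobeniusFamily Fr)
    {F : Type} [Field F] [Finite F] {ℓ : ℕ} [CharP F ℓ] (hℓ : bnd n (Module.finrank ℚ K) ≤ ℓ)
    (φ : 𝓞 K →+* F) {a b : ℕ} (ha : 0 < a) (hb : 0 < b) (hab : a + b = n)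
    (r₁ : AbsGal ℚ →* GL (Fin a) F) (r₂ : AbsGal ℚ →* GL (Fin b) F)
    (h₁ : IsOpen (r₁.ker : Set (AbsGal ℚ))) (h₂ : IsOpen (r₂.ker : Set (AbsGal ℚ)))
    (hc : Congruent π Fr φ fun g => (r₁ g).val.trace + (r₂ g).val.trace) : False := by
  obtain ⟨s⟩ : Nonempty (K →+* ℂ) := inferInstance
  have hk : ∀ {m : ℕ} (r : AbsGal ℚ →* GL (Fin m) F), IsOpen (r.ker : Set (AbsGal ℚ)) →
      IsOpen ({g | ((Units.coeHom _).comp r) g = 1} : Set (AbsGal ℚ)) := by
    intro m r hr
    have : ({g | ((Units.coeHom _).comp r) g = 1} : Set (AbsGal ℚ)) = r.ker := by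
      ext g
      exact ⟨fun h => MonoidHom.mem_ker.2 (Units.ext h),
        fun h => by
          have := MonoidHom.mem_ker.1 h
          exact congrArg Units.val this⟩
    rw [this]
    exact hr
  obtain ⟨V, ι, m, R, -, -, -, -, -, -, -, -, -, -, -, h5⟩ :=
    final hn π h Fr hFr hℓ φ hab ((Units.coeHom _).comp r₁)
      ((Units.coeHom _).comp r₂) (hk r₁ h₁) (hk r₂ h₂) hc s
  omega

end Pool.Agent.OneP74
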