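import Pool.Agent.W_7742g_h15.PowC

/-!
# Traces of the powers of a matrix of finite order

If `M ^ m = 1`, `m > 0`, and `ζ` is a primitive `m`-th root of unity then there are exponents
`a i` (`i < n`) such that `tr (M ^ j) = ∑ i, ζ ^ (j * a i)` for all `j`.

Proof.  `tr (M ^ j)` is the sum of the `j`-th powers of the roots of the characteristic polynomial
(`Pool.Agent.GalMaass.PowC_trace_pow` for `Matrix.toLin' M`, `Matrix.charpoly_toLin'` or
`LinearMap.charpoly_toMatrix`); there are `n` roots (`IsAlgClosed.card_roots_eq_natDegree` or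
`splits_iff_card_roots`, `Matrix.charpoly_natDegree_eq_dim`), each is an eigenvalue of `M`, so an
`m`-th root of unity, hence a power of `ζ` (`IsPrimitiveRoot.eq_pow_of_pow_eq_one`).  Index the
multiset of the roots by `Fin n` (`Multiset.toList`, `List.get`).
-/

set_option autoImplicit false

noncomputable section

namespace Pool.Agent.OneP74

theorem FldA_root {n m : ℕ} (M : Matrix (Fin n) (Fin n) ℂ) (hM : M ^ m = 1) {z : ℂ}
    (hz : z ∈ M.charpoly.roots) : z ^ m = 1 := by
  have h1 : Module.End.HasEigenvalue (Matrix.toLin' M : Module.End ℂ (Fin n → ℂ)) z := by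
    rw [Module.End.hasEigenvalue_iff_isRoot_charpoly, Matrix.charpoly_toLin']
    exact Polynomial.isRoot_of_mem_roots hz
  obtain ⟨v, hv⟩ := h1.exists_hasEigenvector
  have h2 := hv.pow_apply m
  rw [← Matrix.toLin'_pow, hM, Matrix.toLin'_one, LinearMap.id_apply] at h2
  have h3 : (z ^ m - 1) • v = 0 := by rw [sub_smul, one_smul, ← h2, sub_self]
  rcases smul_eq_zero.1 h3 with h4 | h4
  · exact sub_eq_zero.1 h4
  · exact absurd h4 hv.2

theorem exists_exponents {n m : ℕ} (hm : 0 < m) (M : Matrix (Fin n) (Fin n) ℂ) (hM : M ^ m = 1)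
    (ζ : ℂ) (hζ : IsPrimitiveRoot ζ m) :
    ∃ a : Fin n → ℕ, ∀ j : ℕ, (M ^ j).trace = ∑ i, ζ ^ (j * a i) := by
  have : NeZero m := ⟨hm.ne'⟩
  obtain ⟨L, hL⟩ : ∃ L : List ℂ, (L : Multiset ℂ) = M.charpoly.roots :=
    ⟨M.charpoly.roots.toList, Multiset.coe_toList _⟩
  have hlen : L.length = n := by
    rw [← Multiset.coe_card, hL, IsAlgClosed.card_roots_eq_natDegree,
      Matrix.charpoly_natDegree_eq_dim, Fintype.card_fin]
  have hex : ∀ i : Fin L.length, ∃ a : ℕ, ζ ^ a = L.get i := by
    intro i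
    have h1 : L.get i ∈ M.charpoly.roots := by
      rw [← hL]
      exact List.get_mem L i
    obtain ⟨a, -, ha⟩ := hζ.eq_pow_of_pow_eq_one (FldA_root M hM h1)
    exact ⟨a, ha⟩
  choose a ha using hex
  refine ⟨fun i => a (Fin.cast hlen.symm i), fun j => ?_⟩
  rw [Pool.Agent.GalMaass.PowC_trace_matrix, ← hL, Multiset.map_coe, Multiset.sum_coe]
  have h1 : (L.map fun z => z ^ j).sum = ∑ i : Fin L.length, (L.get i) ^ j := by
    conv_lhs => rw [← List.ofFn_get L, List.map_ofFn, List.sum_ofFn]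
    rfl
  rw [h1]
  refine (Fintype.sum_equiv (finCongr hlen.symm) _ _ fun i => ?_).symm
  rw [finCongr_apply, ← ha, ← pow_mul, mul_comm]

end Pool.Agent.OneP74
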