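import Mathlib

/-!
# The bounds

`cnt n d` bounds the number of algebraic integers of a number field of degree `d` all of whose
conjugates are at most `2 n d`; `ord n d` bounds the order of the group; `bnd n d` is the bound for
the residue characteristic.
-/

set_option autoImplicit false

noncomputable section

namespace Pool.Agent.OneP74

/-- Bound for the number of integers with all conjugates at most `2 n d`. -/
def cnt (n d : ℕ) : ℕ := d * (2 * (4 * n * d) ^ d + 1) ^ (d + 1)

/-- Bound for the order of the image. -/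
def ord (n d : ℕ) : ℕ := 2 * cnt n d ^ n ^ 2

/-- Bound for the residue characteristic. -/
def bnd (n d : ℕ) : ℕ := (3 * n) ^ (d * ord n d)

theorem cnt_pos {n d : ℕ} (hd : 0 < d) : 0 < cnt n d :=
  Nat.mul_pos hd (Nat.pow_pos (Nat.succ_pos _))

theorem ord_pos {n d : ℕ} (hd : 0 < d) : 0 < ord n d :=
  Nat.mul_pos two_pos (Nat.pow_pos (cnt_pos hd))

theorem mul_ord_lt_bnd {n d : ℕ} (hn : 0 < n) (hd : 0 < d) : n * ord n d < bnd n d := by
  have h1 : ord n d < 2 ^ ord n d := Nat.lt_two_pow_self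
  have h2 : (3 * n) ^ ord n d ≤ bnd n d :=
    Nat.pow_le_pow_right (by omega) (Nat.le_mul_of_pos_left _ hd)
  have h3 : 3 ^ ord n d * n ≤ (3 * n) ^ ord n d := by
    rw [Nat.mul_pow]
    exact Nat.mul_le_mul_left _ (Nat.le_self_pow (ord_pos hd).ne' n)
  have h4 : 2 ^ ord n d ≤ 3 ^ ord n d := Nat.pow_le_pow_left (by norm_num) _
  calc n * ord n d = ord n d * n := Nat.mul_comm _ _
    _ < 2 ^ ord n d * n := Nat.mul_lt_mul_of_pos_right h1 hn
    _ ≤ 3 ^ ord n d * n := Nat.mul_le_mul_right _ h4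
    _ ≤ (3 * n) ^ ord n d := h3
    _ ≤ bnd n d := h2

theorem lt_bnd {n d : ℕ} (hn : 0 < n) (hd : 0 < d) : d + 1 < bnd n d := by
  have h1 := mul_ord_lt_bnd hn hd
  have h2 : ord n d ≤ n * ord n d := Nat.le_mul_of_pos_left _ hn
  have h3 : 2 * cnt n d ≤ ord n d :=
    Nat.mul_le_mul_left _ (Nat.le_self_pow (Nat.pow_pos hn).ne' _)
  have h4 : d ≤ cnt n d := Nat.le_mul_of_pos_right _ (Nat.pow_pos (Nat.succ_pos _))
  omega

/-- The exponent of the norm argument: a field of degree at most `d * ord n d`. -/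
theorem pow_le_bnd {n d m D : ℕ} (hn : 0 < n) (hm : m ≤ ord n d) (hD : D ≤ d * m) :
    (3 * n) ^ D ≤ bnd n d :=
  Nat.pow_le_pow_right (by omega) (hD.trans (Nat.mul_le_mul_left _ hm))

end Pool.Agent.OneP74
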