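import Mathlib

/-!
# Reduction modulo the maximal ideal of a valuation ring of `ℂ`
-/

set_option autoImplicit false

noncomputable section

namespace Pool.Agent.OneP74

/-- The residue field of a valuation ring of `ℂ`. -/
abbrev Res (V : ValuationSubring ℂ) : Type := IsLocalRing.ResidueField V

/-- The complex number `x` lies in the valuation ring `V` and its residue class is `y`. -/
def Red (V : ValuationSubring ℂ) (x : ℂ) (y : Res V) : Prop :=
  ∃ h : x ∈ V, IsLocalRing.residue V ⟨x, h⟩ = y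

variable {V : ValuationSubring ℂ}

theorem red_iff {x : ℂ} {y : Res V} (t : V) (ht : IsLocalRing.residue V t = y) :
    Red V x y ↔ V.valuation (x - t) < 1 := by
  constructor
  · rintro ⟨h, h'⟩
    have h1 : IsLocalRing.residue V (⟨x, h⟩ - t) = 0 := by
      rw [map_sub, h', ht, sub_self]
    rw [IsLocalRing.residue_eq_zero_iff] at h1
    exact (V.valuation_lt_one_iff _).1 h1
  · intro h
    have h0 : x - t ∈ V := (V.valuation_le_one_iff _).1 h.le
    have hx : x ∈ V := by
      have := V.add_mem _ _ h0 t.2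
      simpa using this
    refine ⟨hx, ?_⟩
    have h1 : IsLocalRing.residue V (⟨x, hx⟩ - t) = 0 := by
      rw [IsLocalRing.residue_eq_zero_iff]
      exact (V.valuation_lt_one_iff _).2 h
    rw [map_sub, sub_eq_zero] at h1
    rw [h1, ht]

theorem Red.add {x x' : ℂ} {y y' : Res V} (h : Red V x y) (h' : Red V x' y') :
    Red V (x + x') (y + y') := by
  obtain ⟨h1, h2⟩ := h
  obtain ⟨h3, h4⟩ := h'
  refine ⟨V.add_mem _ _ h1 h3, ?_⟩
  rw [← h2, ← h4, ← map_add]
  rfl

theorem Red.neg {x : ℂ} {y : Res V} (h : Red V x y) : Red V (-x) (-y) := by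
  obtain ⟨h1, h2⟩ := h
  refine ⟨V.neg_mem _ h1, ?_⟩
  rw [← h2, ← map_neg]
  rfl

theorem Red.sub {x x' : ℂ} {y y' : Res V} (h : Red V x y) (h' : Red V x' y') :
    Red V (x - x') (y - y') := by
  rw [sub_eq_add_neg, sub_eq_add_neg]
  exact h.add h'.neg

theorem Red.mul {x x' : ℂ} {y y' : Res V} (h : Red V x y) (h' : Red V x' y') :
    Red V (x * x') (y * y') := by
  obtain ⟨h1, h2⟩ := h
  obtain ⟨h3, h4⟩ := h'
  refine ⟨V.mul_mem _ _ h1 h3, ?_⟩
  rw [← h2, ← h4, ← map_mul]
  rfl

theorem Red.zero : Red V 0 0 := ⟨V.zero_mem, map_zero _⟩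

theorem Red.one : Red V 1 1 := ⟨V.one_mem, map_one _⟩

theorem Red.natCast (n : ℕ) : Red V (n : ℂ) (n : Res V) := by
  induction n with
  | zero =>
    rw [Nat.cast_zero, Nat.cast_zero]
    exact Red.zero
  | succ n ih =>
    rw [Nat.cast_succ, Nat.cast_succ]
    exact ih.add Red.one

theorem Red.sum {ι : Type*} (s : Finset ι) {f : ι → ℂ} {g : ι → Res V}
    (h : ∀ i ∈ s, Red V (f i) (g i)) : Red V (∑ i ∈ s, f i) (∑ i ∈ s, g i) := by
  classical
  induction s using Finset.induction_on with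
  | empty =>
    rw [Finset.sum_empty, Finset.sum_empty]
    exact Red.zero
  | insert a s ha ih =>
    rw [Finset.sum_insert ha, Finset.sum_insert ha]
    exact (h a (Finset.mem_insert_self a s)).add
      (ih fun i hi => h i (Finset.mem_insert_of_mem hi))

theorem Red.valuation_lt {x x' : ℂ} {y : Res V} (h : Red V x y) (h' : Red V x' y) :
    V.valuation (x - x') < 1 := by
  obtain ⟨h1, h2⟩ := h'
  exact (red_iff ⟨x', h1⟩ h2).1 h

theorem exists_red (y : Res V) : ∃ x : ℂ, Red V x y := by
  obtain ⟨t, ht⟩ := IsLocalRing.residue_surjective (R := V) y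
  exact ⟨t, t.2, ht⟩

end Pool.Agent.OneP74
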