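import Pool.Agent.W_7742y_h74.LftA

/-!
# An approximate projection

`r : Γ → GL_n(κ)` is a representation of a finite group over the residue field `κ` of `V`, and
`|Γ|` is not zero in `κ`.  Let `E` be the space of the functions `Γ × Fin n → ℂ` and
`(ρ h f)(g, i) = f (g h, i)`.  For `g ∈ Γ` let `R₀ g` be a matrix with entries in `V` which reduces
to `r g` (`exists_red`), and let `c = 1 / |Γ|`, an element of `V` which reduces to `1 / |Γ|`
(`|Γ|` is a unit of `V`, since its residue class is not zero).  Put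
`(X f)(g, i) = c ∑_{h, j} (R₀ (g h⁻¹)) i j f (h, j)`.

* `X` commutes with `ρ k`: `(X (ρ k f))(g, i) = c ∑ R₀ (g h⁻¹) i j f (h k, j)`, and
  `(ρ k (X f))(g, i) = c ∑ R₀ (g k h⁻¹) i j f (h, j)`: substitute `h = h' k`.
* The matrix of `X` has the entries `X ((g, i), (h, j)) = c * R₀ (g h⁻¹) i j ∈ V`; its reduction `e`
  satisfies `e * e = e`: the entry at `((g, i), (k, l))` is
  `(1/|Γ|²) ∑_h ∑_j r (g h⁻¹) i j * r (h k⁻¹) j l = (1/|Γ|²) ∑_h r (g k⁻¹) i l
  = (1/|Γ|) r (g k⁻¹) i l`.  So the entries of `X * X - X` have valuation `< 1`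
  (`Red.sum`, `Red.mul`, `Red.sub`, `red_iff`), and `eigenvalue_lt` gives the claim on eigenvalues.
* `tr (ρ k * X) = ∑_{g, i} c * R₀ (g k g⁻¹) i i` (the coefficient of `f (g, i)` in
  `(ρ k (X f))(g, i) = c ∑ R₀ (g k h⁻¹) i j f (h, j)`), which reduces to
  `(1/|Γ|) ∑_g tr r (g k g⁻¹) = tr r (k)`.
-/

set_option autoImplicit false

noncomputable section

namespace Pool.Agent.OneP74

theorem exists_end (V : ValuationSubring ℂ) {Γ : Type} [Group Γ] [Fintype Γ] {n : ℕ}
    (hc : (Fintype.card Γ : Res V) ≠ 0) (r : Γ →* Matrix (Fin n) (Fin n) (Res V)) :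
    ∃ (ρ : Γ →* Module.End ℂ (Γ × Fin n → ℂ)) (X : Module.End ℂ (Γ × Fin n → ℂ)),
      (∀ g, ρ g * X = X * ρ g) ∧
      (∀ α, X.HasEigenvalue α → V.valuation α < 1 ∨ V.valuation (α - 1) < 1) ∧
      ∀ g, Red V (LinearMap.trace ℂ (Γ × Fin n → ℂ) (ρ g * X)) (r g).trace := by
  classical
  choose R₀ hR using fun (g : Γ) (i j : Fin n) => exists_red (V := V) (r g i j)
  obtain ⟨c, hcc⟩ := exists_red (V := V) ((Fintype.card Γ : Res V)⁻¹)
  let MX : Matrix (Γ × Fin n) (Γ × Fin n) ℂ := fun a b => c * R₀ (a.1 * b.1⁻¹) a.2 b.2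
  let e : Matrix (Γ × Fin n) (Γ × Fin n) (Res V) :=
    fun a b => (Fintype.card Γ : Res V)⁻¹ * r (a.1 * b.1⁻¹) a.2 b.2
  have hM : ∀ a b, Red V (MX a b) (e a b) := fun a b => hcc.mul (hR _ _ _)
  let ρ : Γ →* Module.End ℂ (Γ × Fin n → ℂ) :=
    { toFun := fun g => LinearMap.funLeft ℂ ℂ (fun a : Γ × Fin n => (a.1 * g, a.2))
      map_one' := by
        apply LinearMap.ext
        intro f
        funext a
        show f (a.1 * 1, a.2) = f a
        rw [mul_one]
      map_mul' := by
        intro g h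
        apply LinearMap.ext
        intro f
        funext a
        show f (a.1 * (g * h), a.2) = f (a.1 * g * h, a.2)
        rw [mul_assoc] }
  have hρ : ∀ g f a, ρ g f a = f (a.1 * g, a.2) := fun g f a => rfl
  have hXa : ∀ f a, Matrix.toLin' MX f a = ∑ b, MX a b * f b := fun f a => rfl
  refine ⟨ρ, Matrix.toLin' MX, ?_, ?_, ?_⟩
  · intro g
    apply LinearMap.ext
    intro f
    funext a
    show ρ g (Matrix.toLin' MX f) a = Matrix.toLin' MX (ρ g f) a
    rw [hρ, hXa, hXa]
    let E : Γ × Fin n ≃ Γ × Fin n := (Equiv.mulRight g).prodCongr (Equiv.refl _)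
    rw [← Equiv.sum_comp E]
    refine Finset.sum_congr rfl fun b _ => ?_
    show c * R₀ (a.1 * g * (b.1 * g)⁻¹) a.2 b.2 * f (b.1 * g, b.2) =
      c * R₀ (a.1 * b.1⁻¹) a.2 b.2 * f (b.1 * g, b.2)
    have h : a.1 * g * (b.1 * g)⁻¹ = a.1 * b.1⁻¹ := by group
    rw [h]
  · intro α hα
    obtain ⟨v, hv⟩ := hα.exists_hasEigenvector
    refine eigenvalue_lt V MX ?_ ?_ α v hv.2 ?_
    · intro i j
      exact (V.valuation_le_one_iff _).2 (hM i j).1
    · intro a b
      have h1 : Red V ((MX * MX) a b) (e a b) := by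
        have h2 : Red V ((MX * MX) a b) (∑ x, e a x * e x b) :=
          Red.sum _ fun x _ => (hM a x).mul (hM x b)
        have h3 : ∑ x, e a x * e x b = e a b := by
          rw [Fintype.sum_prod_type]
          have h4 : ∀ h : Γ, ∑ j : Fin n, e a (h, j) * e (h, j) b =
              (Fintype.card Γ : Res V)⁻¹ * (Fintype.card Γ : Res V)⁻¹ *
                r (a.1 * b.1⁻¹) a.2 b.2 := by
            intro h
            have h5 : r (a.1 * b.1⁻¹) = r (a.1 * h⁻¹) * r (h * b.1⁻¹) := by
              rw [← map_mul]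
              congr 1
              group
            rw [h5, Matrix.mul_apply, Finset.mul_sum]
            refine Finset.sum_congr rfl fun j _ => ?_
            show (Fintype.card Γ : Res V)⁻¹ * r (a.1 * h⁻¹) a.2 j *
              ((Fintype.card Γ : Res V)⁻¹ * r (h * b.1⁻¹) j b.2) = _
            ring
          rw [Finset.sum_congr rfl fun h _ => h4 h, Finset.sum_const, Finset.card_univ,
            nsmul_eq_mul]
          show _ = (Fintype.card Γ : Res V)⁻¹ * r (a.1 * b.1⁻¹) a.2 b.2
          rw [← mul_assoc, ← mul_assoc, mul_inv_cancel₀ hc, one_mul]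
        rw [h3] at h2
        exact h2
      have h2 := h1.sub (hM a b)
      have h3 := (h1.valuation_lt (hM a b))
      exact h3
    · exact hv.apply_eq_smul
  · intro g
    have h1 : LinearMap.trace ℂ (Γ × Fin n → ℂ) (ρ g * Matrix.toLin' MX) =
        ∑ a : Γ × Fin n, MX (a.1 * g, a.2) a := by
      have h2 : ρ g * Matrix.toLin' MX = Matrix.toLin' (fun a b => MX (a.1 * g, a.2) b) := by
        apply LinearMap.ext
        intro f
        rfl
      rw [h2, Matrix.trace_toLin'_eq]
      rfl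
    rw [h1]
    have h2 : Red V (∑ a : Γ × Fin n, MX (a.1 * g, a.2) a)
        (∑ a : Γ × Fin n, e (a.1 * g, a.2) a) := Red.sum _ fun a _ => hM _ _
    have h3 : ∑ a : Γ × Fin n, e (a.1 * g, a.2) a = (r g).trace := by
      rw [Fintype.sum_prod_type]
      have h4 : ∀ h : Γ, ∑ j : Fin n, e (h * g, j) (h, j) =
          (Fintype.card Γ : Res V)⁻¹ * (r g).trace := by
        intro h
        have h5 : (r g).trace = (r (h * g * h⁻¹)).trace := by
          rw [map_mul, map_mul, Matrix.trace_mul_comm, ← mul_assoc, ← map_mul,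
            inv_mul_cancel, map_one, one_mul]
        rw [h5, Matrix.trace, Finset.mul_sum]
        rfl
      rw [Finset.sum_congr rfl fun h _ => h4 h, Finset.sum_const, Finset.card_univ, nsmul_eq_mul,
        ← mul_assoc, mul_inv_cancel₀ hc, one_mul]
    rw [h3] at h2
    exact h2

end Pool.Agent.OneP74
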