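import Pool.Agent.W_7742y_h74.LftC
import Pool.Agent.W_7742y_h74.LftD

/-!
# Lifting a representation to characteristic zero

`Γ` is a finite group, `V` a valuation ring of `ℂ` with residue characteristic `ℓ > n |Γ|` and
`r : Γ → GL_n(κ)` a representation over the residue field.  There is a representation
`R : Γ → GL_n(ℂ)` whose traces reduce to those of `r`.

Proof.  `n = 0`: take `R = 1` (traces are `0`).  `n > 0`: then `0 < |Γ| < ℓ`, so `|Γ| ≠ 0` in `κ`
(which has characteristic `ℓ`: `CharP.of...`, from `(ℓ : κ) = 0` and `ℓ` prime;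
`CharP.cast_eq_zero_iff`, `Nat.le_of_dvd`).  Take `ρ`, `X` from `exists_end` and `W` from
`exists_piece`.  Then `tr (ρ g | W)` reduces to `tr r (g)` (`red_iff`: the difference to
`tr (ρ g * X)` has valuation `< 1`).  For `g = 1`: the dimension of `W` is congruent to `n` in
`κ`; both are `≤ n |Γ| < ℓ` (`Submodule.finrank_le`, the dimension of `Γ × Fin n → ℂ` is `|Γ| n`), so
`dim W = n` (`CharP.natCast_injOn_Iio` or `CharP.cast_eq_iff_mod_eq`).  Choose a basis of `W` indexed
by `Fin n` (`Module.finBasisOfFinrankEq`) and let `R g` be the matrix of `ρ g | W`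
(`LinearMap.toMatrixAlgEquiv`, multiplicative; `LinearMap.trace_eq_matrix_trace`).
-/

set_option autoImplicit false

noncomputable section

namespace Pool.Agent.OneP74

theorem exists_lift (V : ValuationSubring ℂ) {Γ : Type} [Group Γ] [Fintype Γ] {n ℓ : ℕ}
    (hp : ℓ.Prime) (hℓ : (ℓ : Res V) = 0) (hc : n * Fintype.card Γ < ℓ)
    (r : Γ →* Matrix (Fin n) (Fin n) (Res V)) :
    ∃ R : Γ →* Matrix (Fin n) (Fin n) ℂ, ∀ g, Red V (R g).trace (r g).trace := by
  classical
  rcases Nat.eq_zero_or_pos n with hn | hn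
  · subst hn
    refine ⟨1, fun g => ?_⟩
    have e1 : ((1 : Γ →* Matrix (Fin 0) (Fin 0) ℂ) g).trace = 0 := by
      rw [Matrix.trace]
      simp
    have e2 : (r g).trace = 0 := by
      rw [Matrix.trace]
      simp
    rw [e1, e2]
    exact Red.zero
  have hcard : 0 < Fintype.card Γ := Fintype.card_pos
  have hcl : Fintype.card Γ < ℓ := lt_of_le_of_lt (Nat.le_mul_of_pos_left _ hn) hc
  have hnl : n < ℓ := lt_of_le_of_lt (Nat.le_mul_of_pos_right _ hcard) hc
  have hchar : ringChar (Res V) = ℓ := by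
    have h1 : ringChar (Res V) ∣ ℓ := (ringChar.spec (Res V) ℓ).1 hℓ
    rcases (Nat.dvd_prime hp).1 h1 with h2 | h2
    · exact absurd h2 CharP.ringChar_ne_one
    · exact h2
  have hcast : ∀ m : ℕ, m < ℓ → (m : Res V) = 0 → m = 0 := by
    intro m hm h0
    have h1 : ℓ ∣ m := by
      rw [← hchar]
      exact (ringChar.spec (Res V) m).1 h0
    exact Nat.eq_zero_of_dvd_of_lt h1 hm
  have hc' : (Fintype.card Γ : Res V) ≠ 0 := fun h0 => hcard.ne' (hcast _ hcl h0)
  obtain ⟨ρ, X, h1, h2, h3⟩ := exists_end V hc' r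
  obtain ⟨W, hW, hWt⟩ := exists_piece V ρ X h1 h2
  have hRed : ∀ g, Red V (LinearMap.trace ℂ W ((ρ g).restrict (hW g))) (r g).trace := by
    intro g
    obtain ⟨hx, hres⟩ := h3 g
    exact (red_iff ⟨_, hx⟩ hres).2 (hWt g)
  have hone : (ρ 1).restrict (hW 1) = 1 := by
    ext w
    simp
  have hmul : ∀ g h, (ρ (g * h)).restrict (hW (g * h)) =
      (ρ g).restrict (hW g) * (ρ h).restrict (hW h) := by
    intro g h
    ext w
    simp
  have hfin : Module.finrank ℂ W = n := by
    have h4 := hRed 1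
    rw [hone, LinearMap.trace_one, map_one, Matrix.trace_one, Fintype.card_fin] at h4
    have h5 := Red.natCast (V := V) (Module.finrank ℂ W)
    obtain ⟨a1, a2⟩ := h4
    obtain ⟨b1, b2⟩ := h5
    have h6 : (Module.finrank ℂ W : Res V) = n := by rw [← a2, ← b2]
    have h7 : Module.finrank ℂ W < ℓ := by
      refine lt_of_le_of_lt (Submodule.finrank_le W) ?_
      rw [Module.finrank_fintype_fun_eq_card, Fintype.card_prod, Fintype.card_fin, mul_comm]
      exact hc
    rcases le_total (Module.finrank ℂ W) n with h8 | h8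
    · have h9 : ((n - Module.finrank ℂ W : ℕ) : Res V) = 0 := by
        rw [Nat.cast_sub h8, h6, sub_self]
      have := hcast _ (by omega) h9
      omega
    · have h9 : ((Module.finrank ℂ W - n : ℕ) : Res V) = 0 := by
        rw [Nat.cast_sub h8, h6, sub_self]
      have := hcast _ (by omega) h9
      omega
  let b : Module.Basis (Fin n) ℂ W := Module.finBasisOfFinrankEq ℂ W hfin
  let S : Γ →* Module.End ℂ W :=
    { toFun := fun g => (ρ g).restrict (hW g)
      map_one' := hone
      map_mul' := hmul }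
  refine ⟨((LinearMap.toMatrixAlgEquiv b : Module.End ℂ W ≃ₐ[ℂ] Matrix (Fin n) (Fin n) ℂ) :
    Module.End ℂ W →* Matrix (Fin n) (Fin n) ℂ).comp S, fun g => ?_⟩
  have h10 := hRed g
  rw [LinearMap.trace_eq_matrix_trace ℂ b] at h10
  exact h10

end Pool.Agent.OneP74
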