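import Pool.Agent.W_7742y_h74.Defs

/-!
# Eigenvalues of a matrix which is idempotent modulo the maximal ideal

`V` is a valuation ring of `ℂ`, `X` a matrix with entries in `V` such that the entries of
`X * X - X` lie in the maximal ideal (`V.valuation < 1`).  Then every eigenvalue `α` of `X` satisfies
`α ∈ 𝔪` or `α - 1 ∈ 𝔪`.

Proof.  Let `X v = α v`, `v ≠ 0`, and let `j` be an index with `V.valuation (v j)` maximal
(`Finite.exists_max`); it is not zero.  From `α v j = ∑ k, X j k * v k` we get
`|α| |v j| ≤ max |X j k| |v k| ≤ |v j|` (`Valuation.map_sum_le` or `Valuation.map_sum_lt`), so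
`|α| ≤ 1`.  And `(α * α - α) v = (X * X - X) v` gives
`|α * α - α| |v j| ≤ max_k |(X * X - X) j k| |v k| < |v j|`, so `|α| |α - 1| = |α * (α - 1)| < 1`;
since both factors are at most one (`|α - 1| ≤ max |α| 1 ≤ 1`), one of them is `< 1`.
-/

set_option autoImplicit false

noncomputable section

namespace Pool.Agent.OneP74

theorem eigenvalue_lt {ι : Type} [Fintype ι] (V : ValuationSubring ℂ)
    (X : Matrix ι ι ℂ) (hX : ∀ i j, V.valuation (X i j) ≤ 1)
    (hX2 : ∀ i j, V.valuation ((X * X - X) i j) < 1) (α : ℂ) (v : ι → ℂ) (hv : v ≠ 0)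
    (h : X.mulVec v = α • v) : V.valuation α < 1 ∨ V.valuation (α - 1) < 1 := by
  obtain ⟨i₀, hi₀⟩ : ∃ i, v i ≠ 0 := by
    by_contra hcon
    push Not at hcon
    exact hv (funext hcon)
  have : Nonempty ι := ⟨i₀⟩
  obtain ⟨j, hj⟩ := Finite.exists_max (fun i => V.valuation (v i))
  have hvj : V.valuation (v j) ≠ 0 := by
    have h1 : 0 < V.valuation (v i₀) := (V.valuation.pos_iff).2 hi₀
    exact (lt_of_lt_of_le h1 (hj i₀)).ne'
  have hpos : 0 < V.valuation (v j) := zero_lt_iff.2 hvj
  have e1 : α * v j = ∑ k, X j k * v k := by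
    have := congrFun h j
    simpa [Matrix.mulVec, dotProduct] using this.symm
  have hα : V.valuation α ≤ 1 := by
    have h2 : V.valuation (α * v j) ≤ V.valuation (v j) := by
      rw [e1]
      refine V.valuation.map_sum_le (fun k _ => ?_)
      rw [map_mul]
      calc V.valuation (X j k) * V.valuation (v k) ≤ 1 * V.valuation (v j) :=
            mul_le_mul' (hX j k) (hj k)
        _ = V.valuation (v j) := one_mul _
    rw [map_mul] at h2
    by_contra hcon
    push Not at hcon
    have h3 : 1 * V.valuation (v j) < V.valuation α * V.valuation (v j) :=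
      mul_lt_mul_of_pos_right hcon hpos
    rw [one_mul] at h3
    exact absurd h2 (not_le.2 h3)
  have hα1 : V.valuation (α - 1) ≤ 1 := by
    refine (V.valuation.map_sub α 1).trans ?_
    rw [map_one]
    exact max_le hα le_rfl
  have e2 : (X * X - X).mulVec v = (α * α - α) • v := by
    rw [Matrix.sub_mulVec, ← Matrix.mulVec_mulVec, h, Matrix.mulVec_smul, h, smul_smul, sub_smul]
  have e3 : (α * α - α) * v j = ∑ k, (X * X - X) j k * v k := by
    have := congrFun e2 j
    simpa [Matrix.mulVec, dotProduct] using this.symm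
  have h4 : V.valuation ((α * α - α) * v j) < V.valuation (v j) := by
    rw [e3]
    refine V.valuation.map_sum_lt hvj (fun k _ => ?_)
    rw [map_mul]
    calc V.valuation ((X * X - X) j k) * V.valuation (v k)
        ≤ V.valuation ((X * X - X) j k) * V.valuation (v j) := mul_le_mul' le_rfl (hj k)
      _ < 1 * V.valuation (v j) := mul_lt_mul_of_pos_right (hX2 j k) hpos
      _ = V.valuation (v j) := one_mul _
  have h5 : V.valuation α * V.valuation (α - 1) < 1 := by
    rw [← map_mul]
    by_contra hcon
    push Not at hcon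
    have h6 : V.valuation (v j) ≤ V.valuation ((α * α - α) * v j) := by
      rw [map_mul, show α * α - α = α * (α - 1) by ring]
      calc V.valuation (v j) = 1 * V.valuation (v j) := (one_mul _).symm
        _ ≤ V.valuation (α * (α - 1)) * V.valuation (v j) := mul_le_mul' hcon le_rfl
    exact absurd h4 (not_lt.2 h6)
  by_contra hcon
  push Not at hcon
  obtain ⟨c1, c2⟩ := hcon
  have : (1 : V.ValueGroup) * 1 ≤ V.valuation α * V.valuation (α - 1) := mul_le_mul' c1 c2
  rw [one_mul] at this
  exact absurd h5 (not_lt.2 this)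

end Pool.Agent.OneP74
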