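import Pool.Agent.W_7742y_h74.Defs

/-!
# Traces of endomorphisms of finite order

If `A ^ m = 1`, `m > 0`, then the trace of `A` is an algebraic integer (a sum of roots of unity), so
it lies in every valuation ring of `ℂ`.

Proof.  Choose a basis (`LinearMap.trace_eq_matrix_trace`).  The trace is the sum of the roots of the
characteristic polynomial (`Matrix.trace_eq_sum_roots_charpoly`), each root is an eigenvalue `μ` and
satisfies `μ ^ m = 1`, so it is integral over `ℤ` (`IsIntegral.of_pow`).  Compare
`isAlgebraic_trace_of_pow_eq_one` in `Pool/Agent/W_MP_6f8a18_al/TraceFrob.lean` (lines 60-115; copy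
the proof).  A valuation ring is integrally closed: if `V.valuation x > 1` and
`x ^ k = -∑_{i<k} c_i x ^ i` with integers `c_i` (`V.valuation (c_i) ≤ 1`) then
`|x| ^ k ≤ |x| ^ (k-1)`, a contradiction; or use `IsIntegrallyClosed.isIntegral_iff` for `V` and
`IsIntegral.tower_top`, and `ValuationSubring.valuation_le_one_iff`.
-/

set_option autoImplicit false

noncomputable section

namespace Pool.Agent.OneP74

theorem mem_of_isIntegral (V : ValuationSubring ℂ) {x : ℂ} (hx : IsIntegral ℤ x) : x ∈ V := by
  have h1 : IsIntegral V x := hx.tower_top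
  obtain ⟨y, hy⟩ := IsIntegrallyClosed.isIntegral_iff.1 h1
  rw [← hy]
  exact y.2

theorem isIntegral_trace {E : Type} [AddCommGroup E] [Module ℂ E] [FiniteDimensional ℂ E]
    (A : Module.End ℂ E) (m : ℕ) (hm : 0 < m) (hA : A ^ m = 1) :
    IsIntegral ℤ (LinearMap.trace ℂ E A) := by
  classical
  let b := Module.finBasis ℂ E
  let M := LinearMap.toMatrixAlgEquiv b A
  have hM : M ^ m = 1 := by
    show (LinearMap.toMatrixAlgEquiv b A) ^ m = 1
    rw [← map_pow, hA, map_one]
  have h1 : LinearMap.trace ℂ E A = M.trace := LinearMap.trace_eq_matrix_trace ℂ b A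
  rw [h1, Matrix.trace_eq_sum_roots_charpoly]
  refine IsIntegral.multiset_sum fun l hl => ?_
  have hl' : l ∈ spectrum ℂ M := by
    rw [Matrix.mem_spectrum_iff_isRoot_charpoly]
    exact Polynomial.isRoot_of_mem_roots hl
  have h2 := spectrum.pow_mem_pow M m hl'
  rw [hM] at h2
  have hne : Nonempty (Fin (Module.finrank ℂ E)) := by
    by_contra h3
    rw [not_nonempty_iff] at h3
    have h4 : Subsingleton (Matrix (Fin (Module.finrank ℂ E)) (Fin (Module.finrank ℂ E)) ℂ) :=
      inferInstance
    rw [spectrum.of_subsingleton] at hl'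
    exact hl'
  have hnt : Nontrivial (Matrix (Fin (Module.finrank ℂ E)) (Fin (Module.finrank ℂ E)) ℂ) :=
    inferInstance
  rw [spectrum.one_eq, Set.mem_singleton_iff] at h2
  refine IsIntegral.of_pow hm ?_
  rw [h2]
  exact isIntegral_one

end Pool.Agent.OneP74
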