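import Pool.Agent.W_7742y_h74.LftB

/-!
# The part of a representation where an equivariant map is close to the identity

`E` is a finite-dimensional complex representation `ρ` of a finite group, `X` an endomorphism of `E`
which commutes with all `ρ g` and all of whose eigenvalues `α` satisfy `α ∈ 𝔪` or `α - 1 ∈ 𝔪`.
There is a stable subspace `W` such that `tr (ρ g | W) ≡ tr (ρ g * X)` modulo `𝔪` for all `g`.

Proof.  `E` is the direct sum of the generalized eigenspaces `E_α` of `X`
(`Module.End.iSup_maxGenEigenspace_eq_top`, `Module.End.independent_maxGenEigenspace`), finitely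
many are nonzero, and they are stable under `ρ g` (`Module.End.mapsTo_maxGenEigenspace_of_comm`).
On `E_α` we have `ρ g * X = α ρ g + (nilpotent)`, so
`tr (ρ g * X | E_α) = α * tr (ρ g | E_α)`
(`LinearMap.trace_comp_eq_mul_of_commute_of_isNilpotent`,
`Module.End.isNilpotent_restrict_maxGenEigenspace_sub_algebraMap`; see the proof of
`PowC_trace_pow` in `Pool/Agent/W_7742g_h15/PowC.lean`, which does the same for `g ^ k`).  By
`LinearMap.trace_eq_sum_trace_restrict'`, `tr (ρ g * X) = ∑_α α * t_α(g)`, `t_α(g) = tr (ρ g | E_α)`,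
and `t_α(g)` has valuation `≤ 1` by `isIntegral_trace`, `mem_of_isIntegral` (`ρ g` has finite order).
Let `W` be the sum of the `E_α` with `V.valuation (α - 1) < 1`.  It is stable and
`tr (ρ g | W) = ∑_{α - 1 ∈ 𝔪} t_α(g)`: apply the same formula to the projection `P` onto `W`
along the sum of the other `E_α`; or apply `LinearMap.trace_eq_sum_trace_restrict` inside `W`.  A
convenient way: let `Y` be the endomorphism which is `1` on the `E_α` with `α - 1 ∈ 𝔪` and `0` on the
other ones (for instance `Submodule` projection `IsCompl`), `W = range Y`,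
`tr (ρ g | W) = tr (ρ g * Y)` (`LinearMap.trace_restrict_eq_of_forall_mem`: the image of
`ρ g * Y` is in `W`, and on `W` it is `ρ g`), and
`tr (ρ g * Y) = ∑_α tr (ρ g * Y | E_α)`.  Then
`tr (ρ g | W) - tr (ρ g * X) = ∑_{α - 1 ∈ 𝔪} (1 - α) t_α(g) - ∑_{α ∈ 𝔪, α - 1 ∉ 𝔪} α t_α(g)`,
all terms have valuation `< 1`.
-/

set_option autoImplicit false

noncomputable section

namespace Pool.Agent.OneP74

theorem exists_piece (V : ValuationSubring ℂ) {E : Type} [AddCommGroup E] [Module ℂ E]
    [FiniteDimensional ℂ E] {Γ : Type} [Group Γ] [Finite Γ] (ρ : Γ →* Module.End ℂ E)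
    (X : Module.End ℂ E) (hX : ∀ g, ρ g * X = X * ρ g)
    (hα : ∀ α, X.HasEigenvalue α → V.valuation α < 1 ∨ V.valuation (α - 1) < 1) :
    ∃ (W : Submodule ℂ E) (hW : ∀ g, ∀ w ∈ W, ρ g w ∈ W), ∀ g,
      V.valuation (LinearMap.trace ℂ W ((ρ g).restrict (hW g)) -
        LinearMap.trace ℂ E (ρ g * X)) < 1 := by
  classical
  set N : ℂ → Submodule ℂ E := fun α => X.maxGenEigenspace α with hN
  have hind : iSupIndep N := X.independent_maxGenEigenspace
  have hint : DirectSum.IsInternal N := by
    rw [DirectSum.isInternal_submodule_iff_iSupIndep_and_iSup_eq_top]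
    exact ⟨hind, Module.End.iSup_maxGenEigenspace_eq_top X⟩
  have hfin : {μ | N μ ≠ ⊥}.Finite := WellFoundedGT.finite_ne_bot_of_iSupIndep hind
  have hcomm : ∀ g, Commute X (ρ g) := fun g => (hX g).symm
  have hmρ : ∀ g α, Set.MapsTo (ρ g) (N α) (N α) := fun g α =>
    X.mapsTo_maxGenEigenspace_of_comm (hcomm g) α
  have hmX : ∀ α, Set.MapsTo X (N α) (N α) := fun α =>
    X.mapsTo_maxGenEigenspace_of_comm (Commute.refl X) α
  have hmρX : ∀ g α, Set.MapsTo (ρ g * X) (N α) (N α) := fun g α => (hmρ g α).comp (hmX α)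
  let s : Finset ℂ := hfin.toFinset.filter fun α => V.valuation (α - 1) < 1
  let W : Submodule ℂ E := ⨆ α ∈ s, N α
  have hW : ∀ g, Set.MapsTo (ρ g) W W := fun g =>
    LinearMap.mapsTo_biSup_of_mapsTo (s : Set ℂ) (hmρ g)
  refine ⟨W, fun g => hW g, fun g => ?_⟩
  have h1 : LinearMap.trace ℂ W ((ρ g).restrict (hW g)) =
      ∑ α ∈ s, LinearMap.trace ℂ (N α) ((ρ g).restrict (hmρ g α)) :=
    LinearMap.trace_eq_sum_trace_restrict_of_eq_biSup s (hind.comp Subtype.val_injective)
      (hmρ g) W rfl (hW g)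
  have h2 : LinearMap.trace ℂ E (ρ g * X) = ∑ α ∈ hfin.toFinset,
      α * LinearMap.trace ℂ (N α) ((ρ g).restrict (hmρ g α)) := by
    rw [LinearMap.trace_eq_sum_trace_restrict' hint hfin (hmρX g)]
    refine Finset.sum_congr rfl fun α _ => ?_
    have hnil := X.isNilpotent_restrict_maxGenEigenspace_sub_algebraMap α
    exact LinearMap.trace_comp_eq_mul_of_commute_of_isNilpotent (R := ℂ) α
      (f := (ρ g).restrict (hmρ g α)) (g := X.restrict (hmX α))
      (LinearMap.restrict_commute (hcomm g).symm _ _) hnil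
  have h3 : ∀ α, V.valuation (LinearMap.trace ℂ (N α) ((ρ g).restrict (hmρ g α))) ≤ 1 := by
    intro α
    rw [ValuationSubring.valuation_le_one_iff]
    refine mem_of_isIntegral V (isIntegral_trace _ (Nat.card Γ) Nat.card_pos ?_)
    have h4 : (ρ g) ^ Nat.card Γ = 1 := by
      rw [← map_pow, pow_card_eq_one', map_one]
    rw [Module.End.pow_restrict _ (hmρ g α) (by rw [h4]; exact fun x hx => hx)]
    ext x
    show ((ρ g) ^ Nat.card Γ) (x : E) = x
    rw [h4]
    rfl
  show V.valuation (LinearMap.trace ℂ W ((ρ g).restrict (hW g)) -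
        LinearMap.trace ℂ E (ρ g * X)) < 1
  rw [h1, h2, Finset.sum_filter, ← Finset.sum_sub_distrib]
  refine Valuation.map_sum_lt _ one_ne_zero fun α hα' => ?_
  rw [Set.Finite.mem_toFinset] at hα'
  by_cases hα1 : V.valuation (α - 1) < 1
  · rw [if_pos hα1]
    have h5 : LinearMap.trace ℂ (N α) ((ρ g).restrict (hmρ g α)) -
        α * LinearMap.trace ℂ (N α) ((ρ g).restrict (hmρ g α)) =
        (1 - α) * LinearMap.trace ℂ (N α) ((ρ g).restrict (hmρ g α)) := by ring
    rw [h5, map_mul, Valuation.map_sub_swap]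
    exact mul_lt_one_of_lt_of_le hα1 (h3 α)
  · rw [if_neg hα1, zero_sub, Valuation.map_neg, map_mul]
    have h6 : X.HasEigenvalue α :=
      Module.End.HasUnifEigenvalue.lt (k := ⊤) zero_lt_one hα'
    exact mul_lt_one_of_lt_of_le ((hα α h6).resolve_right hα1) (h3 α)

end Pool.Agent.OneP74
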