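import Pool.Agent.W_7742e_h15.Irr

/-!
# Mean values of class functions over the Frobenius elements

`∑_p f(frob p) p ^ (-s) / log (1 / (s - 1)) → (∑_x f x) / |Γ / U|` as `s → 1+`, for every class
function `f` on the finite group `Γ / U`.

Proof.  As in `Pool.Agent.GalSide.mean_le_one` (file `W_7742e_h15/Irr.lean`) or `card_le_of_frob`
(`Chb.lean`): with `X x` the set of the `p` with `frob p` conjugate to `x` and `cl x` the number of
the conjugates of `x`, `f (frob p) = ∑_x f x / cl x * 1_{X x} (p)`, so for `s > 1`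
`∑_p f (frob p) p ^ (-s) = ∑_x (f x / cl x) primeSum (X x) s`, and
`primeSum (X x) s / log (1 / (s - 1)) → cl x / |Γ / U|` by `chebotarev`.
-/

set_option autoImplicit false

noncomputable section

open Filter Topology

namespace Pool.Agent.OneP74

open Pool.Agent.GalSide

variable {G : Type} [Group G] [TopologicalSpace G] [IsTopologicalGroup G] [CompactSpace G]

theorem summable_frob (Φ : FrobeniusData G) (U : Subgroup G) [U.Normal]
    [Finite (G ⧸ U)] (f : G ⧸ U → ℝ) {s : ℝ} (hs : 1 < s) :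
    Summable fun p : Nat.Primes => f (QuotientGroup.mk (Φ.frob p)) * ((p : ℕ) : ℝ) ^ (-s) := by
  classical
  have hfin : Fintype (G ⧸ U) := Fintype.ofFinite _
  have hsp := irr_summable_prime_rpow hs
  have hp0 : ∀ p : Nat.Primes, 0 ≤ ((p : ℕ) : ℝ) ^ (-s) := fun p =>
    Real.rpow_nonneg (Nat.cast_nonneg _) _
  refine Summable.of_norm_bounded (hsp.mul_left (∑ x : G ⧸ U, |f x|)) fun p => ?_
  rw [norm_mul, Real.norm_eq_abs, Real.norm_eq_abs, abs_of_nonneg (hp0 p)]
  refine mul_le_mul_of_nonneg_right ?_ (hp0 p)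
  exact Finset.single_le_sum (f := fun x => |f x|) (fun x _ => abs_nonneg _)
    (Finset.mem_univ (QuotientGroup.mk (Φ.frob p) : G ⧸ U))

theorem tendsto_mean (Φ : FrobeniusData G) (U : Subgroup G) [U.Normal] (hU : IsOpen (U : Set G))
    [Fintype (G ⧸ U)] (f : G ⧸ U → ℝ) (hf : ∀ x y, IsConj x y → f x = f y) :
    Tendsto (fun s : ℝ => (∑' p : Nat.Primes, f (QuotientGroup.mk (Φ.frob p)) *
        ((p : ℕ) : ℝ) ^ (-s)) / Real.log (1 / (s - 1))) (𝓝[>] 1)
      (𝓝 ((∑ x, f x) / (Fintype.card (G ⧸ U) : ℝ))) := by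
  classical
  let F : Nat.Primes → G ⧸ U := fun p => QuotientGroup.mk (Φ.frob p)
  let X : G ⧸ U → Set Nat.Primes := fun x => {p | IsConj (F p) x}
  let cl : G ⧸ U → ℝ := fun x => (Nat.card {y : G ⧸ U // IsConj y x} : ℝ)
  have hcl : ∀ x, 0 < cl x := by
    intro x
    have : Nonempty {y : G ⧸ U // IsConj y x} := ⟨⟨x, IsConj.refl x⟩⟩
    exact Nat.cast_pos.2 Nat.card_pos
  have hd : ∀ x, HasDensity (X x) (cl x / (Nat.card (G ⧸ U) : ℝ)) := by
    intro x
    obtain ⟨g, rfl⟩ := QuotientGroup.mk_surjective x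
    exact Φ.chebotarev U hU g
  let w : G ⧸ U → ℝ := fun x => f x / cl x
  -- the decomposition of `f`
  have hdec : ∀ y : G ⧸ U, ∑ x : G ⧸ U, w x * (if IsConj y x then 1 else 0) = f y := by
    intro y
    have h1 : ∀ x : G ⧸ U, w x * (if IsConj y x then (1 : ℝ) else 0) =
        if IsConj y x then f y / cl y else 0 := by
      intro x
      by_cases h : IsConj y x
      · rw [if_pos h, if_pos h, mul_one]
        show f x / cl x = f y / cl y
        have h2 : cl x = cl y := by
          show (Nat.card {z : G ⧸ U // IsConj z x} : ℝ) = (Nat.card {z : G ⧸ U // IsConj z y} : ℝ)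
          congr 1
          refine Nat.card_congr (Equiv.subtypeEquivRight fun z => ?_)
          exact ⟨fun hz => hz.trans h.symm, fun hz => hz.trans h⟩
        rw [h2, hf y x h]
      · rw [if_neg h, if_neg h, mul_zero]
    rw [Finset.sum_congr rfl fun x _ => h1 x, ← Finset.sum_filter, Finset.sum_const,
      nsmul_eq_mul]
    have h3 : ((Finset.univ.filter fun x : G ⧸ U => IsConj y x).card : ℝ) = cl y := by
      show _ = (Nat.card {z : G ⧸ U // IsConj z y} : ℝ)
      rw [Nat.card_eq_fintype_card, Fintype.card_subtype]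
      congr 2
      ext z
      simp only [Finset.mem_filter, Finset.mem_univ, true_and]
      exact isConj_comm
    rw [h3, mul_div_cancel₀ _ (hcl y).ne']
  have hlim : Tendsto (fun s : ℝ => (∑ x : G ⧸ U, w x * primeSum (X x) s) /
      Real.log (1 / (s - 1))) (𝓝[>] 1)
      (𝓝 (∑ x : G ⧸ U, w x * (cl x / (Nat.card (G ⧸ U) : ℝ)))) := by
    simp only [Finset.sum_div, mul_div_assoc]
    exact tendsto_finsetSum _ fun x _ => (hd x).const_mul (w x)
  have hval : ∑ x : G ⧸ U, w x * (cl x / (Nat.card (G ⧸ U) : ℝ)) =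
      (∑ x : G ⧸ U, f x) / (Fintype.card (G ⧸ U) : ℝ) := by
    rw [Finset.sum_div]
    refine Finset.sum_congr rfl fun x _ => ?_
    show f x / cl x * (cl x / (Nat.card (G ⧸ U) : ℝ)) = _
    rw [Nat.card_eq_fintype_card, ← mul_div_assoc, div_mul_cancel₀ _ (hcl x).ne']
  rw [← hval]
  refine hlim.congr' ?_
  filter_upwards [self_mem_nhdsWithin] with s hs1
  have hsp := irr_summable_prime_rpow (show (1 : ℝ) < s from hs1)
  have h1 : ∀ x, Summable (fun p : Nat.Primes => w x *
      (X x).indicator (fun q : Nat.Primes => ((q : ℕ) : ℝ) ^ (-s)) p) := fun x =>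
    (hsp.indicator (X x)).mul_left (w x)
  congr 1
  have h3 : ∀ x, w x * primeSum (X x) s = ∑' p : Nat.Primes, w x *
      (X x).indicator (fun q : Nat.Primes => ((q : ℕ) : ℝ) ^ (-s)) p := fun x => by
    rw [tsum_mul_left]
    rfl
  rw [Finset.sum_congr rfl fun x _ => h3 x, ← Summable.tsum_finsetSum fun x _ => h1 x]
  refine tsum_congr fun p => ?_
  show _ = f (F p) * _
  rw [← hdec (F p), Finset.sum_mul]
  refine Finset.sum_congr rfl fun x _ => ?_
  rw [mul_assoc]
  congr 1
  by_cases h : IsConj (F p) x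
  · rw [Set.indicator_of_mem (show p ∈ X x from h), if_pos h, one_mul]
  · rw [Set.indicator_of_notMem (show p ∉ X x from h), if_neg h, zero_mul]

end Pool.Agent.OneP74
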