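import Pool.Agent.W_7742y_h74.Fin

/-! One Galois representation modulo one large prime suffices, for cusp forms on `GL_n` with integral
Satake polynomials. -/

namespace Pool.Agent.OneP74.OnePrimeResult

open NumberField
open Pool.Agent.OneP74 Pool.Agent.GalSide Pool.Agent.Cheb Pool.Agent.H74V

/-- Let `K` be a number field of degree `d`, `n ≥ 2` and `π` a system of Satake classes of rank `n`
whose characteristic polynomials are integral over `K`, such that for every embedding `σ` of `K` the
conjugate `π^σ` is the system of Satake classes of a cusp form on `GL_n` over `ℚ`.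

(0) Let `E` be a field in which `1, ..., n` are not zero, `ψ : 𝓞 K → E` a ring homomorphism and
`r : G_ℚ → GL_n(E)` a representation with open kernel such that `tr r(Fr p) = ψ (tr A p)` for all
primes `p` outside a set of density zero.  Then there are at most `ord n d` functions
`h ↦ tr r(g h)`, `g ∈ G_ℚ`.

Let `F` be a finite field of characteristic `ℓ ≥ bnd n d` and `φ : 𝓞 K → F` a ring homomorphism.

(1) Let `r : G_ℚ → GL_n(F)` be a representation with open kernel such that
`tr r(Fr p) = φ (tr A p)` for all primes `p` outside a set of density zero.  Then for every embedding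
`s : K → ℂ` there is an irreducible representation `R : G_ℚ → GL_n(ℂ)` with open kernel containing the
kernel of `r` such that `tr R(Fr p) = s (tr A p)` for all `p` outside a set of density zero.  If also
`det r(Fr p) = φ (det A p)` for all `p` outside a set of density zero then
`det R(Fr p) = s (det A p)` for all `p` outside a set of density zero, and if moreover `n ≤ 3` then
the characteristic polynomials of `R(Fr p)` and `s (A p)` are equal for these `p`.

(2) There are no representations `r₁`, `r₂` of `G_ℚ` over `F` of dimensions `a, b ≥ 1`, `a + b = n`,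
with open kernels such that `tr r₁(Fr p) + tr r₂(Fr p) = φ (tr A p)` for all `p` outside a set of
density zero. -/
theorem result (K : Type) [Field K] [NumberField K] (n : ℕ) (hn : 2 ≤ n) (π : SatakeSystem K n)
    (h : ∀ σ : K →+* ℂ, π.IsCuspidal σ) (Fr : Nat.Primes → AbsGal ℚ) (hFr : IsFrobeniusFamily Fr) :
    (∀ (E : Type) [Field E] (ψ : 𝓞 K →+* E) (r : AbsGal ℚ →* GL (Fin n) E),
      (∀ k : ℕ, 0 < k → k ≤ n → (k : E) ≠ 0) → IsOpen (r.ker : Set (AbsGal ℚ)) →
      Congruent π Fr ψ (fun g => (r g).val.trace) →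
        (Set.range fun g h : AbsGal ℚ => (r (g * h)).val.trace).Finite ∧
        (Set.range fun g h : AbsGal ℚ => (r (g * h)).val.trace).ncard ≤
          ord n (Module.finrank ℚ K)) ∧
    ∀ (F : Type) [Field F] [Finite F] (ℓ : ℕ) [CharP F ℓ], bnd n (Module.finrank ℚ K) ≤ ℓ →
      ∀ φ : 𝓞 K →+* F,
      (∀ r : AbsGal ℚ →* GL (Fin n) F, IsOpen (r.ker : Set (AbsGal ℚ)) →
        Congruent π Fr φ (fun g => (r g).val.trace) → ∀ s : K →+* ℂ,
          ∃ R : AbsGal ℚ →* GL (Fin n) ℂ, IsOpen (R.ker : Set (AbsGal ℚ)) ∧ r.ker ≤ R.ker ∧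
            (∀ W : Submodule ℂ (Fin n → ℂ), (∀ g, ∀ w ∈ W, (R g).val.mulVec w ∈ W) →
              W = ⊥ ∨ W = ⊤) ∧
            HasDensity {p : Nat.Primes | (R (Fr p)).val.trace ≠ s (π.A p).trace} 0 ∧
            (HasDensity {p : Nat.Primes | ¬ ∃ x : 𝓞 K, (x : K) = (π.A p).det ∧
                (r (Fr p)).val.det = φ x} 0 →
              HasDensity {p : Nat.Primes | (R (Fr p)).val.det ≠ s (π.A p).det} 0 ∧
              (n ≤ 3 → HasDensity {p : Nat.Primes |
                (R (Fr p)).val.charpoly ≠ (π.A p).charpoly.map s} 0))) ∧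
      ∀ a b : ℕ, 0 < a → 0 < b → a + b = n → ∀ (r₁ : AbsGal ℚ →* GL (Fin a) F)
        (r₂ : AbsGal ℚ →* GL (Fin b) F), IsOpen (r₁.ker : Set (AbsGal ℚ)) →
          IsOpen (r₂.ker : Set (AbsGal ℚ)) →
          ¬ Congruent π Fr φ (fun g => (r₁ g).val.trace + (r₂ g).val.trace) :=
  ⟨fun _ _ ψ r hE hr hc => final_image hn π h Fr hFr hE ψ r hr hc, fun _ _ _ _ _ hℓ φ =>
    ⟨fun r hr hc s => final_one hn π h Fr hFr hℓ φ r hr hc s, fun _ _ ha hb hab r₁ r₂ h₁ h₂ hc =>
      final_two hn π h Fr hFr hℓ φ ha hb hab r₁ r₂ h₁ h₂ hc⟩⟩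

end Pool.Agent.OneP74.OnePrimeResult
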