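import Pool.Agent.W_7742v_h74.Stmt
import Pool.Agent.W_7742e_h15.Defs
import Pool.Agent.Chebotarev_h15.AppDefs
import Pool.Agent.W_7742y_h74.Bnd

/-!
# Definitions for the statement of the one-prime theorem

`GalSide.HasDensity`: Dirichlet density; `Cheb.AbsGal ℚ`: the absolute Galois group of `ℚ`;
`Cheb.IsFrobAt 𝔓 p σ`: `σ x ≡ x ^ p` modulo `𝔓` for all algebraic integers `x`.
-/

set_option autoImplicit false

noncomputable section

namespace Pool.Agent.OneP74

open NumberField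
open Pool.Agent.GalSide Pool.Agent.Cheb Pool.Agent.H74V

/-- `Fr p` is an (arithmetic) Frobenius element at `p` in the absolute Galois group of `ℚ`, for every
prime number `p`: there is a prime ideal `𝔓` of the ring of all algebraic integers which contains `p`
such that `Fr p x ≡ x ^ p` modulo `𝔓`. -/
def IsFrobeniusFamily (Fr : Nat.Primes → AbsGal ℚ) : Prop :=
  ∀ p : Nat.Primes, ∃ 𝔓 : Ideal (Zbar ℚ), 𝔓.IsPrime ∧ ((p : ℕ) : Zbar ℚ) ∈ 𝔓 ∧
    IsFrobAt 𝔓 (p : ℕ) (Fr p)

/-- `T (Fr p) = φ (tr A p)` for all primes `p` outside a set of Dirichlet density zero. -/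
def Congruent {K : Type} [Field K] [NumberField K] {n : ℕ} (π : SatakeSystem K n)
    (Fr : Nat.Primes → AbsGal ℚ) {F : Type} [Field F] (φ : 𝓞 K →+* F) (T : AbsGal ℚ → F) : Prop :=
  HasDensity {p : Nat.Primes | ¬ ∃ x : 𝓞 K, (x : K) = (π.A p).trace ∧ T (Fr p) = φ x} 0

end Pool.Agent.OneP74
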